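import Pool.Agent.J6H25.PIT.BB1

/-!
# The rank of an expression
-/

set_option autoImplicit false

namespace Pool.Agent.J6H25.PIT

/-- The rank of an expression is the second component; the first one is the rank which is needed for
the dependence on a suitable variable. -/
def rk : Ex → ℕ × ℕ
  | Ex.var _ => (0, 1)
  | Ex.num _ => (0, 0)
  | Ex.op Op.mul s t => (min (max (rk s).1 (rk t).2) (max (rk t).1 (rk s).2),
      max (rk s).2 (rk t).2)
  | Ex.op _ s t => (max (rk s).1 (rk t).1,
      if (rk s).2 = 0 ∧ (rk t).2 = 0 then 0 else max (rk s).1 (rk t).1 + 1)

theorem rk_mul (s t : Ex) : rk (Ex.op Op.mul s t) =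
    (min (max (rk s).1 (rk t).2) (max (rk t).1 (rk s).2), max (rk s).2 (rk t).2) := rfl

theorem rk_op {o : Op} (ho : o ≠ Op.mul) (s t : Ex) : rk (Ex.op o s t) =
    (max (rk s).1 (rk t).1,
      if (rk s).2 = 0 ∧ (rk t).2 = 0 then 0 else max (rk s).1 (rk t).1 + 1) := by
  cases o
  · rfl
  · rfl
  · exact absurd rfl ho

theorem rk_le (F : Ex) : (rk F).1 ≤ (rk F).2 ∧ (rk F).2 ≤ (rk F).1 + 1 := by
  induction F with
  | var i => simp [rk]
  | num q => simp [rk]
  | op o s t ihs iht =>
    by_cases ho : o = Op.mul
    · subst ho
      rw [rk_mul]
      simp only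
      omega
    · rw [rk_op ho]
      simp only
      split_ifs <;> omega

theorem rk_pos {F : Ex} {i : ℕ} (h : F.occ i ≠ 0) : 1 ≤ (rk F).2 := by
  induction F with
  | var i => simp [rk]
  | num q => simp [Ex.occ] at h
  | op o s t ihs iht =>
    simp only [Ex.occ] at h
    have h' : 1 ≤ (rk s).2 ∨ 1 ≤ (rk t).2 := by
      rcases Nat.eq_zero_or_pos (s.occ i) with h0 | h0
      · exact Or.inr (iht (by omega))
      · exact Or.inl (ihs (by omega))
    by_cases ho : o = Op.mul
    · subst ho
      rw [rk_mul]
      simp only
      omega
    · rw [rk_op ho]
      simp only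
      split_ifs <;> omega

theorem rk_subs {F G : Ex} (h : G ∈ F.subs) : (rk G).2 ≤ (rk F).2 := by
  induction F with
  | var j => simp only [Ex.subs, List.mem_singleton] at h; rw [h]
  | num q => simp only [Ex.subs, List.mem_singleton] at h; rw [h]
  | op o s t ihs iht =>
    simp only [Ex.subs, List.mem_cons, List.mem_append] at h
    have h1 := rk_le s
    have h2 := rk_le t
    by_cases ho : o = Op.mul
    · subst ho
      rcases h with h | h | h
      · rw [h]
      · have := ihs h; rw [rk_mul]; simp only; omega
      · have := iht h; rw [rk_mul]; simp only; omega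
    · rcases h with h | h | h
      · rw [h]
      · have := ihs h; rw [rk_op ho]; simp only; split_ifs <;> omega
      · have := iht h; rw [rk_op ho]; simp only; split_ifs <;> omega

theorem rk_sbs {σ : ℕ → Ex} (hσ : ∀ i, (rk (σ i)).1 = 0 ∧ (rk (σ i)).2 ≤ 1) (F : Ex) :
    (rk (F.sbs σ)).1 ≤ (rk F).1 ∧ (rk (F.sbs σ)).2 ≤ (rk F).2 := by
  induction F with
  | var i =>
    have := hσ i
    simp only [Ex.sbs, rk]
    omega
  | num q => simp [Ex.sbs]
  | op o s t ihs iht =>
    simp only [Ex.sbs]
    by_cases ho : o = Op.mul
    · subst ho
      rw [rk_mul, rk_mul]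
      simp only
      omega
    · rw [rk_op ho, rk_op ho]
      simp only
      split_ifs <;> omega

theorem rk_pow (F : Ex) : (rk F).2 = 0 ∨ 2 ^ (rk F).1 ≤ F.vlist.length := by
  induction F with
  | var i => right; simp [rk, Ex.vlist]
  | num q => left; simp [rk]
  | op o s t ihs iht =>
    have hlen : (Ex.op o s t).vlist.length = s.vlist.length + t.vlist.length := by simp [Ex.vlist]
    rw [hlen]
    have h1 := rk_le s
    have h2 := rk_le t
    by_cases ho : o = Op.mul
    · subst ho
      rw [rk_mul]
      simp only
      rcases ihs with hs | hs
      · rcases iht with ht | ht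
        · left; omega
        · right
          have : min (max (rk s).1 (rk t).2) (max (rk t).1 (rk s).2) ≤ (rk t).1 := by omega
          exact (Nat.pow_le_pow_right (by norm_num) this).trans (by omega)
      · rcases iht with ht | ht
        · right
          have : min (max (rk s).1 (rk t).2) (max (rk t).1 (rk s).2) ≤ (rk s).1 := by omega
          exact (Nat.pow_le_pow_right (by norm_num) this).trans (by omega)
        · right
          rcases lt_trichotomy (rk s).1 (rk t).1 with h | h | h
          · have : min (max (rk s).1 (rk t).2) (max (rk t).1 (rk s).2) ≤ (rk t).1 := by omega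
            exact (Nat.pow_le_pow_right (by norm_num) this).trans (by omega)
          · have : min (max (rk s).1 (rk t).2) (max (rk t).1 (rk s).2) ≤ (rk s).1 + 1 := by omega
            refine (Nat.pow_le_pow_right (by norm_num) this).trans ?_
            rw [h] at hs
            rw [h, pow_succ]
            omega
          · have : min (max (rk s).1 (rk t).2) (max (rk t).1 (rk s).2) ≤ (rk s).1 := by omega
            exact (Nat.pow_le_pow_right (by norm_num) this).trans (by omega)
    · rw [rk_op ho]
      simp only
      split_ifs with h0
      · left; rfl
      · right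
        rcases le_total (rk s).1 (rk t).1 with h | h
        · rw [max_eq_right h]
          rcases iht with ht | ht
          · have h3 : (rk s).2 ≠ 0 := fun h4 => h0 ⟨h4, ht⟩
            rcases ihs with hs | hs
            · exact absurd hs h3
            · have : (rk t).1 = (rk s).1 := by omega
              rw [this]; omega
          · omega
        · rw [max_eq_left h]
          rcases ihs with hs | hs
          · have h3 : (rk t).2 ≠ 0 := fun h4 => h0 ⟨hs, h4⟩
            rcases iht with ht | ht
            · exact absurd ht h3
            · have : (rk s).1 = (rk t).1 := by omega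
              rw [this]; omega
          · omega

theorem rk_log (F : Ex) : (rk F).2 ≤ Nat.log 2 F.vlist.length + 1 := by
  have h := rk_le F
  rcases rk_pow F with h1 | h1
  · omega
  · have := Nat.le_log_of_pow_le (by norm_num) h1
    omega

/-- the maximal number of blocks of consecutive multiplications on a path; `b` says whether the
expression is an argument of a multiplication -/
def layers : Bool → Ex → ℕ
  | _, Ex.var _ => 0
  | _, Ex.num _ => 0
  | b, Ex.op Op.mul s t => max (layers true s) (layers true t) + (if b then 0 else 1)
  | _, Ex.op _ s t => max (layers false s) (layers false t)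

theorem rk_layers (F : Ex) : (rk F).1 ≤ layers false F ∧ (rk F).2 ≤ layers true F + 1 := by
  induction F with
  | var i => simp [rk, layers]
  | num q => simp [rk, layers]
  | op o s t ihs iht =>
    cases o
    · rw [rk_op (by simp)]
      simp only [layers]
      split_ifs <;> omega
    · rw [rk_op (by simp)]
      simp only [layers]
      split_ifs <;> omega
    · rw [rk_mul]
      simp only [layers]
      simp only [if_true, if_false, Bool.false_eq_true]
      have := rk_le s
      have := rk_le t
      omega

theorem layers_true_le (F : Ex) : layers true F ≤ layers false F := by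
  cases F with
  | var i => simp [layers]
  | num q => simp [layers]
  | op o s t => cases o <;> simp [layers]

end Pool.Agent.J6H25.PIT
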