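import Pool.Agent.J6H25.PIT.Time4

/-!
# The decoder for expressions
-/

set_option autoImplicit false

namespace Pool.Agent.J6H25.PIT

open Pool.Agent.NPC

variable {α β γ : Type} [TEnc α] [TEnc β] [TEnc γ]

/-- the decoder for symbols -/
def Tok.decode : ℕ ⊕ (ℚ ⊕ ℕ) → Option Tok
  | Sum.inl i => some (Tok.var i)
  | Sum.inr (Sum.inl q) => some (Tok.num q)
  | Sum.inr (Sum.inr n) => if n < 3 then some (Tok.op (Op.ofCode n)) else none

theorem Tok.code_decode {c : ℕ ⊕ (ℚ ⊕ ℕ)} {t : Tok} (h : Tok.decode c = some t) : t.code = c := by
  rcases c with i | q | n
  · simp only [Tok.decode, Option.some.injEq] at h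
    subst h
    rfl
  · simp only [Tok.decode, Option.some.injEq] at h
    subst h
    rfl
  · simp only [Tok.decode] at h
    split_ifs at h with h3
    simp only [Option.some.injEq] at h
    subst h
    simp only [Tok.code]
    have : n = 0 ∨ n = 1 ∨ n = 2 := by omega
    rcases this with rfl | rfl | rfl <;> rfl

theorem Tok.decode_code (t : Tok) : Tok.decode t.code = some t := by
  cases t with
  | var i => rfl
  | num q => rfl
  | op o => cases o <;> rfl

theorem poly_decode : Poly Tok.decode := by
  have h : Poly (fun c : ℕ ⊕ (ℚ ⊕ ℕ) => Sum.elim (fun i : ℕ => some (Tok.var i))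
      (fun c => Sum.elim (fun q : ℚ => some (Tok.num q)) (fun n : ℕ =>
        if n < 3 then some (Tok.op (Op.ofCode n)) else none) c) c) := by
    refine Poly.sumElim (g := fun _ i => some (Tok.var i)) (h := fun _ c =>
      Sum.elim (fun q : ℚ => some (Tok.num q)) (fun n : ℕ =>
        if n < 3 then some (Tok.op (Op.ofCode n)) else none) c) Poly.id
      (Poly.some (poly_tokvar (Poly.snd Poly.id))) ?_
    refine Poly.sumElim (g := fun _ q => some (Tok.num q)) (h := fun _ n =>
      if n < 3 then some (Tok.op (Op.ofCode n)) else none) (Poly.snd Poly.id)
      (Poly.some (poly_toknum (Poly.snd Poly.id))) ?_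
    exact Poly.ite (by fun_prop) (Poly.some (poly_tokop (poly_ofCode (Poly.snd Poly.id))))
      (NPC.Poly.const _)
  refine h.congr fun c => ?_
  rcases c with i | q | n <;> rfl

instance : TDec Tok := TDec.of Tok.code Tok.decode (fun _ => rfl) Tok.decode_code
  (fun _ _ h => Tok.code_decode h) poly_decode

/-- the strict parser -/
def ps (s : Option (List Ex)) (t : Tok) : Option (List Ex) :=
  match s with
  | none => none
  | some l => match t with
    | Tok.var i => some (Ex.var i :: l)
    | Tok.num q => some (Ex.num q :: l)
    | Tok.op o => match l with
      | b :: a :: l' => some (Ex.op o a b :: l')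
      | _ => none

/-- the height of the stack -/
def cs (s : Option ℕ) (t : Tok) : Option ℕ :=
  s.elim none fun n => match t with
    | Tok.var _ => some (n + 1)
    | Tok.num _ => some (n + 1)
    | Tok.op _ => if n < 2 then none else some (n - 1)

theorem ps_toks (E : Ex) (l : List Ex) : E.toks.foldl ps (some l) = some (E :: l) := by
  induction E generalizing l with
  | var i => rfl
  | num q => rfl
  | op o s t ihs iht => simp [Ex.toks, ihs, iht, ps]

theorem ps_spec (l : List Tok) {st : List Ex} (h : l.foldl ps (some []) = some st) :
    st.reverse.flatMap Ex.toks = l := by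
  induction l using List.reverseRecOn generalizing st with
  | nil => simp at h; subst h; rfl
  | append_singleton l t ih =>
    rw [List.foldl_append, List.foldl_cons, List.foldl_nil] at h
    cases hl : l.foldl ps (some []) with
    | none => rw [hl] at h; simp [ps] at h
    | some st' =>
      rw [hl] at h
      have h1 := ih hl
      cases t with
      | var i =>
        simp only [ps, Option.some.injEq] at h
        subst h
        simp [h1, Ex.toks]
      | num q =>
        simp only [ps, Option.some.injEq] at h
        subst h
        simp [h1, Ex.toks]
      | op o =>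
        rcases st' with _ | ⟨b, _ | ⟨a, l'⟩⟩
        · simp [ps] at h
        · simp [ps] at h
        · simp only [ps, Option.some.injEq] at h
          subst h
          rw [← h1]
          simp [Ex.toks]

theorem cs_eq (l : List Tok) : ∀ s : Option (List Ex), l.foldl cs (s.map List.length) =
    (l.foldl ps s).map List.length := by
  induction l with
  | nil => intro s; rfl
  | cons t l ih =>
    intro s
    rw [List.foldl_cons, List.foldl_cons, ← ih]
    congr 1
    cases s with
    | none => rfl
    | some st =>
      cases t with
      | var i => simp [ps, cs]
      | num q => simp [ps, cs]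
      | op o =>
        rcases st with _ | ⟨b, _ | ⟨a, l'⟩⟩
        · simp [ps, cs]
        · simp [ps, cs]
        · simp [ps, cs]

/-- the decoder -/
def Ex.decode (l : List Tok) : Option Ex := (l.foldl ps (some [])).elim none fun st =>
  if st.length = 1 then st.head? else none

theorem Ex.decode_toks (E : Ex) : Ex.decode E.toks = some E := by
  unfold Ex.decode
  rw [ps_toks]
  simp

theorem Ex.toks_decode {l : List Tok} {E : Ex} (h : Ex.decode l = some E) : E.toks = l := by
  unfold Ex.decode at h
  cases hl : l.foldl ps (some []) with
  | none => rw [hl] at h; simp at h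
  | some st =>
    rw [hl] at h
    simp only [Option.elim_some] at h
    split_ifs at h with h1
    obtain ⟨F, rfl⟩ := List.length_eq_one_iff.1 h1
    simp only [List.head?_cons, Option.some.injEq] at h
    subst h
    have := ps_spec l hl
    simpa using this

/-- the words which are codes of expressions -/
def wf (l : List Tok) : Bool := decide (l.foldl cs (some 0) = some 1)

theorem wf_iff (l : List Tok) : wf l = true ↔ (Ex.decode l).isSome = true := by
  have h := cs_eq l (some [])
  simp only [Option.map_some, List.length_nil] at h
  unfold wf Ex.decode
  rw [decide_eq_true_eq, h]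
  cases l.foldl ps (some []) with
  | none => simp
  | some st =>
    simp only [Option.map_some, Option.some.injEq, Option.elim_some]
    constructor
    · intro h1
      obtain ⟨F, rfl⟩ := List.length_eq_one_iff.1 h1
      simp
    · intro h1
      split_ifs at h1 with h2
      · exact h2
      · simp at h1

theorem cs_le (l : List Tok) : ∀ (s : Option ℕ) (n m : ℕ), (∀ a, s = some a → a ≤ m) →
    l.foldl cs s = some n → n ≤ m + l.length := by
  induction l with
  | nil => intro s n m hs h; exact hs n h
  | cons t l ih =>
    intro s n m hs h
    rw [List.foldl_cons] at h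
    have := ih (cs s t) n (m + 1) (by
      intro a ha
      cases s with
      | none => simp [cs] at ha
      | some b =>
        have hb := hs b rfl
        cases t with
        | var i => simp [cs] at ha; omega
        | num q => simp [cs] at ha; omega
        | op o =>
          simp only [cs, Option.elim_some] at ha
          split_ifs at ha
          simp only [Option.some.injEq] at ha
          omega) h
    rw [List.length_cons]
    omega

@[fun_prop]
theorem poly_cs {s : α → Option ℕ} {t : α → Tok} (hs : Poly s) (ht : Poly t) :
    Poly (fun a => cs (s a) (t a)) := by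
  unfold cs
  refine Poly.optElim (g := fun _ => none) (h := fun a n => match t a with
    | Tok.var _ => some (n + 1)
    | Tok.num _ => some (n + 1)
    | Tok.op _ => if n < 2 then none else some (n - 1)) hs (NPC.Poly.const _) ?_
  exact poly_tokCases (t := fun p : α × ℕ => t p.1) (f := fun p _ => some (p.2 + 1))
    (g := fun p _ => some (p.2 + 1)) (h := fun p _ => if p.2 < 2 then none else some (p.2 - 1))
    (by fun_prop) (by fun_prop) (by fun_prop) (by fun_prop)

theorem poly_wf : Poly wf := by
  have h : Poly (fun l : List Tok => l.foldl cs (some 0)) := by
    refine Poly.foldl (l := fun l : List Tok => l) (s := fun _ => some 0) (F := fun _ => cs)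
      Poly.id (NPC.Poly.const _) (by fun_prop)
      (Polynomial.C 4 * Polynomial.X + Polynomial.C 8) ?_
    intro l k hk
    simp only [Polynomial.eval_add, Polynomial.eval_mul, Polynomial.eval_C, Polynomial.eval_X]
    have h1 := length_lt_sz l
    cases h : (l.take k).foldl cs (some 0) with
    | none => rw [sz_none]; omega
    | some n =>
      have h2 := cs_le (l.take k) (some 0) n 0 (by simp) h
      rw [List.length_take] at h2
      rw [sz_some]
      have h3 := sz_nat_le n
      have h4 : n.size ≤ n := Nat.size_le.2 Nat.lt_two_pow_self
      omega
  unfold wf
  fun_prop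

theorem poly_exdecode : Poly Ex.decode := by
  have h : Poly (fun l : List Tok => if wf l = true then some l else none) :=
    Poly.ite (by
      have := poly_wf
      fun_prop) (Poly.some Poly.id) (NPC.Poly.const _)
  refine Poly.of_toT ((Poly.toT' h).congr fun l => ?_)
  cases hl : Ex.decode l with
  | none =>
    have : ¬ wf l = true := by rw [wf_iff, hl]; simp
    rw [if_neg this]
    rfl
  | some E =>
    have : wf l = true := by rw [wf_iff, hl]; rfl
    rw [if_pos this, ← Ex.toks_decode hl]
    rfl

instance : TDec Ex := TDec.of Ex.toks Ex.decode (fun _ => rfl) Ex.decode_toks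
  (fun _ _ h => Ex.toks_decode h) poly_exdecode

end Pool.Agent.J6H25.PIT
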