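import Pool.Agent.J6H25.PIT.Hard2

/-!
# Points where expressions are not zero; dependence on variables
-/

set_option autoImplicit false

namespace Pool.Agent.J6H25.PIT

open Function (update)

/-- the expression is zero as a polynomial function -/
def IsZ (E : Ex) : Prop := ∀ x : ℕ → ℚ, E.eval x = 0

/-- the expression depends on the variable `i` -/
def Dep (i : ℕ) (E : Ex) : Prop := ∃ (x : ℕ → ℚ) (u : ℚ), E.eval (update x i u) ≠ E.eval x

theorem poly_ne_zero_iff (E : Ex) : E.poly ≠ 0 ↔ ¬ IsZ E := by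
  rw [not_iff_not]
  constructor
  · intro h x
    rw [← Ex.eval_poly, h, map_zero]
  · intro h
    refine MvPolynomial.funext fun x => ?_
    rw [Ex.eval_poly, h x, map_zero]

/-- a common point where finitely many expressions are not zero -/
theorem generic (l : List Ex) (h : ∀ E ∈ l, ¬ IsZ E) : ∃ x : ℕ → ℚ, ∀ E ∈ l, E.eval x ≠ 0 := by
  have h1 : (l.map Ex.poly).prod ≠ 0 := by
    intro h0
    rw [List.prod_eq_zero_iff] at h0
    obtain ⟨E, hE, h0⟩ := List.mem_map.1 h0
    exact (poly_ne_zero_iff E).2 (h E hE) h0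
  have h2 : ∃ x : ℕ → ℚ, MvPolynomial.eval x (l.map Ex.poly).prod ≠ 0 := by
    by_contra h3
    push Not at h3
    exact h1 (MvPolynomial.funext fun x => by rw [h3 x, map_zero])
  obtain ⟨x, hx⟩ := h2
  refine ⟨x, fun E hE h0 => hx ?_⟩
  rw [map_list_prod, List.map_map, List.prod_eq_zero_iff]
  exact List.mem_map.2 ⟨E, hE, by simp [Ex.eval_poly, h0]⟩

/-- the polynomial in the variable `i` -/
noncomputable def Ex.uni (x : ℕ → ℚ) (i : ℕ) : Ex → Polynomial ℚ
  | var j => if j = i then Polynomial.X else Polynomial.C (x j)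
  | num q => Polynomial.C q
  | op o s t => o.ap (s.uni x i) (t.uni x i)

theorem Ex.eval_uni (x : ℕ → ℚ) (i : ℕ) (u : ℚ) (E : Ex) :
    (E.uni x i).eval u = E.eval (update x i u) := by
  induction E with
  | var j =>
    by_cases h : j = i
    · subst h; simp [uni, eval]
    · simp [uni, eval, h]
  | num q => simp [uni, eval]
  | op o s t ihs iht => cases o <;> simp [uni, eval, Op.ap, ihs, iht]

theorem Ex.natDegree_uni (x : ℕ → ℚ) (i : ℕ) (E : Ex) : (E.uni x i).natDegree ≤ E.occ i := by
  induction E with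
  | var j =>
    by_cases h : j = i
    · subst h; simp [uni, occ]
    · simp [uni, occ, h]
  | num q => simp [uni]
  | op o s t ihs iht =>
    cases o
    · exact (Polynomial.natDegree_add_le _ _).trans (by simp only [occ]; omega)
    · exact (Polynomial.natDegree_sub_le _ _).trans (by simp only [occ]; omega)
    · exact Polynomial.natDegree_mul_le.trans (by simp only [occ]; omega)

/-- a variable can be given a small natural number as its value -/
theorem exists_small {E : Ex} {x : ℕ → ℚ} (h : E.eval x ≠ 0) (i : ℕ) {D : ℕ} (hD : E.occ i < D) :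
    ∃ v < D, E.eval (update x i (v : ℚ)) ≠ 0 := by
  have h0 : E.uni x i ≠ 0 := by
    intro h0
    apply h
    have := E.eval_uni x i (x i)
    rw [h0, Function.update_eq_self] at this
    simpa using this.symm
  obtain ⟨r, hr, hr'⟩ : ∃ r ∈ (Finset.range D).image (fun v : ℕ => (v : ℚ)),
      (E.uni x i).eval r ≠ 0 := by
    by_contra hc
    push Not at hc
    apply h0
    refine Polynomial.eq_zero_of_natDegree_lt_card_of_eval_eq_zero' _ _ hc ?_
    rw [Finset.card_image_of_injective _ Nat.cast_injective, Finset.card_range]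
    exact (E.natDegree_uni x i).trans_lt hD
  obtain ⟨v, hv, rfl⟩ := Finset.mem_image.1 hr
  exact ⟨v, Finset.mem_range.1 hv, by rwa [Ex.eval_uni] at hr'⟩

/-- **Grid points.** -/
theorem exists_grid {E : Ex} {D : ℕ} (hD : ∀ i, E.occ i < D) (S : Finset ℕ) {x : ℕ → ℚ}
    (h : E.eval x ≠ 0) : ∃ f : ℕ → ℕ, (∀ i, f i < D) ∧
      E.eval (fun i => if i ∈ S then (f i : ℚ) else x i) ≠ 0 := by
  have hD0 : 0 < D := (Nat.zero_le _).trans_lt (hD 0)
  induction S using Finset.induction_on with
  | empty => exact ⟨fun _ => 0, fun _ => hD0, by simpa using h⟩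
  | insert i S hi ih =>
    obtain ⟨f, hf, hf'⟩ := ih
    obtain ⟨v, hv, hv'⟩ := exists_small hf' i (hD i)
    refine ⟨update f i v, fun j => ?_, ?_⟩
    · by_cases hj : j = i
      · subst hj; simpa using hv
      · simpa [hj] using hf j
    · convert hv' using 2
      funext j
      by_cases hj : j = i
      · subst hj; simp
      · simp [hj]

/-- replacement of the variables -/
def Ex.sbs (σ : ℕ → Ex) : Ex → Ex
  | var i => σ i
  | num q => num q
  | op o s t => op o (s.sbs σ) (t.sbs σ)

theorem Ex.eval_sbs (σ : ℕ → Ex) (x : ℕ → ℚ) (E : Ex) :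
    (E.sbs σ).eval x = E.eval (fun i => (σ i).eval x) := by
  induction E with
  | var i => rfl
  | num q => rfl
  | op o s t ihs iht => simp [sbs, eval, ihs, iht]

theorem Ex.mem_subs_sbs {σ : ℕ → Ex} (hσ : ∀ i, (σ i).subs = [σ i]) {E F : Ex}
    (h : F ∈ (E.sbs σ).subs) : ∃ G ∈ E.subs, F = G.sbs σ := by
  induction E with
  | var i =>
    simp only [sbs, hσ, List.mem_singleton] at h
    exact ⟨var i, by simp [subs], h⟩
  | num q =>
    simp only [sbs, subs, List.mem_singleton] at h
    exact ⟨num q, by simp [subs], h⟩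
  | op o s t ihs iht =>
    simp only [sbs, subs, List.mem_cons, List.mem_append] at h
    rcases h with rfl | h | h
    · exact ⟨op o s t, by simp [subs], rfl⟩
    · obtain ⟨G, hG, rfl⟩ := ihs h
      exact ⟨G, by simp [subs, hG], rfl⟩
    · obtain ⟨G, hG, rfl⟩ := iht h
      exact ⟨G, by simp [subs, hG], rfl⟩

/-- an expression depends on a variable if it takes different values for two values of it -/
theorem Dep.of_ne {i : ℕ} {E : Ex} {x : ℕ → ℚ} {u v : ℚ}
    (h : E.eval (update x i u) ≠ E.eval (update x i v)) : Dep i E :=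
  ⟨update x i v, u, by simpa using h⟩

theorem Dep.occ {i : ℕ} {E : Ex} (h : Dep i E) : E.occ i ≠ 0 := by
  obtain ⟨x, u, h⟩ := h
  intro h0
  refine h (Ex.eval_congr fun j hj => ?_)
  have : j ≠ i := by rintro rfl; exact hj h0
  simp [this]

theorem Dep.not_isZ {i : ℕ} {E : Ex} (h : Dep i E) : ¬ IsZ E := by
  obtain ⟨x, u, h⟩ := h
  intro h0
  exact h (by rw [h0, h0])

/-- the difference of the values of an expression at two values of the variable `i` -/
def Ex.dif (i z : ℕ) (E : Ex) : Ex :=
  op Op.sub (E.sbs fun j => if j = i then var z else var j) E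

theorem Ex.eval_dif (i z : ℕ) (E : Ex) (x : ℕ → ℚ) :
    (E.dif i z).eval x = E.eval (update x i (x z)) - E.eval x := by
  simp only [dif, eval, Op.ap, eval_sbs]
  congr 2
  funext j
  by_cases h : j = i
  · subst h; simp [eval]
  · simp [h, eval]

theorem Dep.dif {i z : ℕ} {E : Ex} (h : Dep i E) (hz : E.occ z = 0) (hzi : z ≠ i) :
    ¬ IsZ (E.dif i z) := by
  obtain ⟨x, u, h⟩ := h
  intro h0
  apply h
  have h1 := h0 (update x z u)
  rw [Ex.eval_dif, sub_eq_zero, Function.update_self] at h1
  have e1 : E.eval (update (update x z u) i u) = E.eval (update x i u) := by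
    refine Ex.eval_congr fun j hj => ?_
    have hjz : j ≠ z := by rintro rfl; exact hj hz
    by_cases hji : j = i
    · subst hji; simp
    · simp [hji, hjz]
  have e2 : E.eval (update x z u) = E.eval x := by
    refine Ex.eval_congr fun j hj => ?_
    have hjz : j ≠ z := by rintro rfl; exact hj hz
    simp [hjz]
  rw [← e1, h1, e2]

theorem exists_fresh (l : List ℕ) : ∃ z, z ∉ l := by
  obtain ⟨z, hz⟩ := Infinite.exists_notMem_finset l.toFinset
  exact ⟨z, by simpa using hz⟩

/-- the list of the occurrences of variables -/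
def Ex.vlist : Ex → List ℕ
  | var i => [i]
  | num _ => []
  | op _ s t => s.vlist ++ t.vlist

theorem Ex.count_vlist (E : Ex) (i : ℕ) : E.vlist.count i = E.occ i := by
  induction E with
  | var j =>
    by_cases h : j = i
    · subst h; simp [vlist, occ]
    · simp [vlist, occ, h]
  | num q => simp [vlist, occ]
  | op o s t ihs iht => simp [vlist, occ, ihs, iht]

theorem Ex.mem_vlist {E : Ex} {i : ℕ} : i ∈ E.vlist ↔ E.occ i ≠ 0 := by
  rw [← E.count_vlist, ← List.count_pos_iff]
  omega

theorem Ex.occ_le_length (E : Ex) (i : ℕ) : E.occ i ≤ E.vlist.length := by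
  rw [← E.count_vlist]
  exact List.count_le_length

/-- **Products.** -/
theorem Dep.mul {i : ℕ} {s t : Ex} (hs : Dep i s) (ht : ¬ IsZ t) :
    Dep i (Ex.op Op.mul s t) ∧ Dep i (Ex.op Op.mul t s) := by
  obtain ⟨z, hz⟩ := exists_fresh (i :: s.vlist)
  rw [List.mem_cons, not_or, Ex.mem_vlist, not_not] at hz
  obtain ⟨x, hx⟩ := generic [s.dif i z, t] (by
    intro E hE
    simp only [List.mem_cons, List.not_mem_nil, or_false] at hE
    rcases hE with rfl | rfl
    · exact hs.dif hz.2 hz.1
    · exact ht)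
  have h1 := hx (s.dif i z) (by simp)
  have h2 := hx t (by simp)
  rw [Ex.eval_dif, sub_ne_zero] at h1
  have key : ∃ u v : ℚ, ((s.uni x i) * (t.uni x i)).eval u ≠
      ((s.uni x i) * (t.uni x i)).eval v := by
    by_contra hc
    push Not at hc
    have hconst : (s.uni x i) * (t.uni x i) =
        Polynomial.C (((s.uni x i) * (t.uni x i)).eval 0) := by
      refine Polynomial.funext fun u => ?_
      rw [hc u 0, Polynomial.eval_C]
    have ht0 : t.uni x i ≠ 0 := by
      intro h0
      apply h2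
      have := t.eval_uni x i (x i)
      rw [h0, Function.update_eq_self] at this
      simpa using this.symm
    have hs0 : s.uni x i ≠ 0 := by
      intro h0
      apply h1
      rw [← Ex.eval_uni, h0]
      have := s.eval_uni x i (x i)
      rw [h0, Function.update_eq_self] at this
      rw [← this]
      simp
    have hdeg := Polynomial.natDegree_mul hs0 ht0
    rw [hconst, Polynomial.natDegree_C] at hdeg
    have hs1 : (s.uni x i).natDegree = 0 := by omega
    obtain ⟨c, hc'⟩ := Polynomial.natDegree_eq_zero.1 hs1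
    apply h1
    have e1 := s.eval_uni x i (x z)
    have e2 := s.eval_uni x i (x i)
    rw [Function.update_eq_self] at e2
    rw [← e1, ← e2, ← hc']
    simp
  obtain ⟨u, v, huv⟩ := key
  simp only [Polynomial.eval_mul, Ex.eval_uni] at huv
  constructor
  · exact Dep.of_ne (x := x) (u := u) (v := v) (by simpa [Ex.eval, Op.ap] using huv)
  · refine Dep.of_ne (x := x) (u := u) (v := v) ?_
    simp only [Ex.eval, Op.ap]
    rw [mul_comm, mul_comm (t.eval _)]
    exact huv

/-- The relation between an expression and its simplification, for the set `O` of variables which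
occur outside. -/
def Rel (O : Set ℕ) (E E' : Ex) : Prop :=
  (∀ x, E.eval x = E'.eval x) ∨ ((∃ i ∉ O, Dep i E) ∧ ∃ i ∉ O, Dep i E')

theorem Dep.congr {i : ℕ} {E E' : Ex} (h : Dep i E) (he : ∀ x, E.eval x = E'.eval x) :
    Dep i E' := by
  obtain ⟨x, u, h⟩ := h
  exact ⟨x, u, by rwa [← he, ← he]⟩

theorem Rel.refl (O : Set ℕ) (E : Ex) : Rel O E E := Or.inl fun _ => rfl

theorem Rel.trans {O : Set ℕ} {E E' E'' : Ex} (h : Rel O E E') (h' : Rel O E' E'') :
    Rel O E E'' := by
  rcases h with h | ⟨h1, i, hi, h2⟩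
  · rcases h' with h' | ⟨⟨i, hi, h1⟩, h2⟩
    · exact Or.inl fun x => (h x).trans (h' x)
    · exact Or.inr ⟨⟨i, hi, h1.congr fun x => (h x).symm⟩, h2⟩
  · rcases h' with h' | ⟨_, h3⟩
    · exact Or.inr ⟨h1, i, hi, h2.congr h'⟩
    · exact Or.inr ⟨h1, h3⟩

/-- a variable of one operand only -/
theorem Dep.op {i : ℕ} {o : Op} {s t : Ex} (hs : Dep i s) (hi : t.occ i = 0)
    (ht : ¬ IsZ t) : Dep i (Ex.op o s t) ∧ Dep i (Ex.op o t s) := by
  have e : ∀ (x : ℕ → ℚ) u, t.eval (update x i u) = t.eval x := fun x u =>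
    Ex.eval_congr fun j hj => by
      have : j ≠ i := by rintro rfl; exact hj hi
      simp [this]
  have hs' := hs
  obtain ⟨x, u, h⟩ := hs
  cases o
  · exact ⟨⟨x, u, by simpa [Ex.eval, Op.ap, e] using h⟩, ⟨x, u, by simpa [Ex.eval, Op.ap, e] using h⟩⟩
  · exact ⟨⟨x, u, by simpa [Ex.eval, Op.ap, e] using h⟩, ⟨x, u, by simpa [Ex.eval, Op.ap, e] using h⟩⟩
  · exact hs'.mul ht

/-- **Congruence.** -/
theorem Rel.op_left {O O' : Set ℕ} {s s' t : Ex} (o : Op) (h : Rel O' s s') (hO : O ⊆ O')
    (ht : ∀ i, t.occ i ≠ 0 → i ∈ O') : Rel O (Ex.op o s t) (Ex.op o s' t) ∧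
      Rel O (Ex.op o t s) (Ex.op o t s') := by
  rcases h with h | ⟨⟨i, hi, h1⟩, j, hj, h2⟩
  · exact ⟨Or.inl fun x => by simp [Ex.eval, h x], Or.inl fun x => by simp [Ex.eval, h x]⟩
  · have hti : t.occ i = 0 := by by_contra hc; exact hi (ht i hc)
    have htj : t.occ j = 0 := by by_contra hc; exact hj (ht j hc)
    by_cases hz : IsZ t
    · cases o
      · refine ⟨Or.inr ⟨⟨i, fun h => hi (hO h), ?_⟩, j, fun h => hj (hO h), ?_⟩,
          Or.inr ⟨⟨i, fun h => hi (hO h), ?_⟩, j, fun h => hj (hO h), ?_⟩⟩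
        · exact h1.congr fun x => by simp [Ex.eval, Op.ap, hz x]
        · exact h2.congr fun x => by simp [Ex.eval, Op.ap, hz x]
        · exact h1.congr fun x => by simp [Ex.eval, Op.ap, hz x]
        · exact h2.congr fun x => by simp [Ex.eval, Op.ap, hz x]
      · obtain ⟨x1, u1, g1⟩ := h1
        obtain ⟨x2, u2, g2⟩ := h2
        refine ⟨Or.inr ⟨⟨i, fun h => hi (hO h), x1, u1, ?_⟩, j, fun h => hj (hO h), x2, u2, ?_⟩,
          Or.inr ⟨⟨i, fun h => hi (hO h), x1, u1, ?_⟩, j, fun h => hj (hO h), x2, u2, ?_⟩⟩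
        all_goals simpa [Ex.eval, Op.ap, hz _] using ‹_ ≠ _›
      · exact ⟨Or.inl fun x => by simp [Ex.eval, Op.ap, hz x],
          Or.inl fun x => by simp [Ex.eval, Op.ap, hz x]⟩
    · exact ⟨Or.inr ⟨⟨i, fun h => hi (hO h), (h1.op hti hz).1⟩, j, fun h => hj (hO h),
          (h2.op htj hz).1⟩,
        Or.inr ⟨⟨i, fun h => hi (hO h), (h1.op hti hz).2⟩, j, fun h => hj (hO h),
          (h2.op htj hz).2⟩⟩

end Pool.Agent.J6H25.PIT
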