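import Pool.Agent.J6H25.PIT.Alg1

/-!
# Evaluation with partial assignments; the choice of the base point
-/

set_option autoImplicit false

namespace Pool.Agent.J6H25.PIT

open Function (update)

/-- numerators and denominators -/
abbrev Q : Type := ℤ × ℕ

/-- the value -/
def val (a : Q) : ℚ := (a.1 : ℚ) / a.2

/-- the operations on fractions -/
def qap (o : Op) (a b : Q) : Q :=
  if o = Op.mul then (a.1 * b.1, a.2 * b.2)
  else if o = Op.add then (a.1 * b.2 + b.1 * a.2, a.2 * b.2)
  else (a.1 * b.2 - b.1 * a.2, a.2 * b.2)

theorem val_qap {a b : Q} (ha : a.2 ≠ 0) (hb : b.2 ≠ 0) (o : Op) :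
    (qap o a b).2 ≠ 0 ∧ val (qap o a b) = o.ap (val a) (val b) := by
  have ha' : (a.2 : ℚ) ≠ 0 := by exact_mod_cast ha
  have hb' : (b.2 : ℚ) ≠ 0 := by exact_mod_cast hb
  cases o
  · simp only [qap, reduceCtorEq, if_false, if_true, val, Op.ap]
    refine ⟨mul_ne_zero ha hb, ?_⟩
    push_cast
    field_simp
  · simp only [qap, reduceCtorEq, if_false, val, Op.ap]
    refine ⟨mul_ne_zero ha hb, ?_⟩
    push_cast
    field_simp
  · simp only [qap, if_true, val, Op.ap]
    refine ⟨mul_ne_zero ha hb, ?_⟩
    push_cast
    field_simp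

/-- assignments of natural numbers to variables -/
abbrev Asg : Type := List (ℕ × ℕ)

/-- the value assigned to a variable -/
def look (ρ : Asg) (i : ℕ) : Option ℕ := ((ρ.filter fun p => decide (p.1 = i)).head?).map Prod.snd

theorem look_nil (i : ℕ) : look [] i = none := rfl

theorem look_cons (p : ℕ × ℕ) (ρ : Asg) (i : ℕ) :
    look (p :: ρ) i = if p.1 = i then some p.2 else look ρ i := by
  unfold look
  by_cases h : p.1 = i
  · simp [h]
  · simp [h]

theorem look_append (ρ ρ' : Asg) (i : ℕ) :
    look (ρ ++ ρ') i = (look ρ i).or (look ρ' i) := by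
  induction ρ with
  | nil => simp [look_nil]
  | cons p ρ ih =>
    rw [List.cons_append, look_cons, look_cons, ih]
    split_ifs <;> simp

theorem look_map_zero (H : List ℕ) (i : ℕ) :
    look (H.map fun h => (h, 0)) i = if i ∈ H then some 0 else none := by
  induction H with
  | nil => simp [look_nil]
  | cons h H ih =>
    rw [List.map_cons, look_cons, ih]
    by_cases h1 : h = i
    · simp [h1]
    · have h2 : i ≠ h := fun h3 => h1 h3.symm
      simp [h1, h2]

/-- the point extends the assignment -/
def Ext (ρ : Asg) (x : ℕ → ℚ) : Prop := ∀ i v, look ρ i = some v → x i = v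

/-- a value which is zero -/
def isz (x : Option Q) : Bool := x.elim false fun a => decide (a.1 = 0)

/-- a value which is not zero -/
def nz (x : Option Q) : Bool := !(isz x)

/-- the operations on partially known values; `none` is a value which depends on the variables
without values -/
def so (o : Op) (x y : Option Q) : Option Q :=
  if o = Op.mul ∧ (isz x = true ∨ isz y = true) then some (0, 1)
  else x.elim none fun a => y.elim none fun b => some (qap o a b)

/-- recursion on expressions -/
def Ex.fold {β : Type} (v : ℕ → β) (n : ℚ → β) (o : Op → β → β → β) : Ex → β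
  | var i => v i
  | num q => n q
  | op f s t => o f (s.fold v n o) (t.fold v n o)

/-- evaluation with a partial assignment -/
def st (ρ : Asg) (E : Ex) : Option Q :=
  E.fold (fun i => (look ρ i).map fun v : ℕ => (((v : ℤ), 1) : Q)) (fun q => some (q.num, q.den)) so

/-- the variables without values occur at most once -/
def RO' (ρ : Asg) (E : Ex) : Prop := ∀ i, look ρ i = none → E.occ i ≤ 1

theorem val_eq_zero {a : Q} (ha : a.2 ≠ 0) : val a = 0 ↔ a.1 = 0 := by
  unfold val
  have ha' : (a.2 : ℚ) ≠ 0 := by exact_mod_cast ha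
  simp [ha']

/-- **Evaluation with a partial assignment.** -/
theorem st_spec (ρ : Asg) (E : Ex) (hE : RO' ρ E) :
    (∀ a, st ρ E = some a → a.2 ≠ 0 ∧ ∀ x, Ext ρ x → E.eval x = val a) ∧
    (st ρ E = none → ∃ i, look ρ i = none ∧ E.occ i ≠ 0 ∧
      ∃ (x : ℕ → ℚ) (u : ℚ), Ext ρ x ∧ E.eval (update x i u) ≠ E.eval x) := by
  induction E with
  | var i =>
    unfold st Ex.fold
    cases h : look ρ i with
    | none =>
      refine ⟨by simp, fun _ => ⟨i, h, by simp [Ex.occ],
        fun j => ((look ρ j).getD 0 : ℕ), ((look ρ i).getD 0 : ℕ) + 1, ?_, ?_⟩⟩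
      · intro j v hj
        simp [hj]
      · simp [Ex.eval]
    | some v =>
      refine ⟨fun a ha => ?_, by simp⟩
      simp only [Option.map_some, Option.some.injEq] at ha
      subst ha
      exact ⟨by simp, fun x hx => by simp [Ex.eval, val, hx i v h]⟩
  | num q =>
    unfold st Ex.fold
    refine ⟨fun a ha => ?_, by simp⟩
    simp only [Option.some.injEq] at ha
    subst ha
    exact ⟨q.den_ne_zero, fun x _ => by simp [Ex.eval, val, Rat.num_div_den]⟩
  | op o s t ihs iht =>
    have hRs : RO' ρ s := fun i hi => by have := hE i hi; simp only [Ex.occ] at this; omega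
    have hRt : RO' ρ t := fun i hi => by have := hE i hi; simp only [Ex.occ] at this; omega
    obtain ⟨s1, s2⟩ := ihs hRs
    obtain ⟨t1, t2⟩ := iht hRt
    have hdef : st ρ (Ex.op o s t) = so o (st ρ s) (st ρ t) := rfl
    rw [hdef]
    -- points of dependence of one operand where the other one is not zero
    have hcomb : ∀ (a b : Ex), (∀ i, look ρ i = none → a.occ i + b.occ i ≤ 1) →
        ∀ (i : ℕ), look ρ i = none → a.occ i ≠ 0 → ∀ (x : ℕ → ℚ) (u : ℚ), Ext ρ x →
        a.eval (update x i u) ≠ a.eval x → ∀ y, Ext ρ y → ∃ w : ℕ → ℚ, Ext ρ w ∧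
          a.eval (update w i u) ≠ a.eval w ∧ b.eval (update w i u) = b.eval y ∧
          b.eval w = b.eval y := by
      intro a b hab i hi hai x u hx hne y hy
      refine ⟨fun j => if a.occ j ≠ 0 then x j else y j, ?_, ?_, ?_, ?_⟩
      · intro j v hj
        by_cases h : a.occ j = 0
        · simp [h, hy j v hj]
        · simp [h, hx j v hj]
      · have e1 : a.eval (update (fun j => if a.occ j ≠ 0 then x j else y j) i u) =
            a.eval (update x i u) := Ex.eval_congr fun j hj => by
          by_cases hji : j = i
          · subst hji; simp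
          · simp [hji, hj]
        have e2 : a.eval (fun j => if a.occ j ≠ 0 then x j else y j) = a.eval x :=
          Ex.eval_congr fun j hj => by simp [hj]
        rw [e1, e2]
        exact hne
      · refine Ex.eval_congr fun j hj => ?_
        have hji : j ≠ i := by
          rintro rfl
          have := hab j hi
          omega
        rw [Function.update_of_ne hji]
        by_cases h : a.occ j = 0
        · simp [h]
        · simp only [ne_eq, h, not_false_eq_true, if_true]
          cases hl : look ρ j with
          | none => have := hab j hl; omega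
          | some v => rw [hx j v hl, hy j v hl]
      · refine Ex.eval_congr fun j hj => ?_
        by_cases h : a.occ j = 0
        · simp [h]
        · simp only [ne_eq, h, not_false_eq_true, if_true]
          cases hl : look ρ j with
          | none => have := hab j hl; omega
          | some v => rw [hx j v hl, hy j v hl]
    have hocc : ∀ i, look ρ i = none → s.occ i + t.occ i ≤ 1 := fun i hi => hE i hi
    have hocc' : ∀ i, look ρ i = none → t.occ i + s.occ i ≤ 1 := fun i hi => by
      have := hocc i hi; omega
    have hext : Ext ρ fun j => ((look ρ j).getD 0 : ℕ) := fun j v hj => by simp [hj]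
    by_cases hz : o = Op.mul ∧ (isz (st ρ s) = true ∨ isz (st ρ t) = true)
    · obtain ⟨rfl, hz⟩ := hz
      have : so Op.mul (st ρ s) (st ρ t) = some (0, 1) := by simp [so, hz]
      rw [this]
      refine ⟨fun a ha => ?_, by simp⟩
      simp only [Option.some.injEq] at ha
      subst ha
      refine ⟨by simp, fun x hx => ?_⟩
      have hz0 : s.eval x = 0 ∨ t.eval x = 0 := by
        rcases hz with hz | hz
        · left
          cases h : st ρ s with
          | none => simp [isz, h] at hz
          | some a =>
            obtain ⟨h1, h2⟩ := s1 a h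
            rw [h2 x hx, val_eq_zero h1]
            simpa [isz, h] using hz
        · right
          cases h : st ρ t with
          | none => simp [isz, h] at hz
          | some a =>
            obtain ⟨h1, h2⟩ := t1 a h
            rw [h2 x hx, val_eq_zero h1]
            simpa [isz, h] using hz
      rcases hz0 with h | h <;> simp [Ex.eval, Op.ap, h, val]
    · have hso : so o (st ρ s) (st ρ t) =
          (st ρ s).elim none fun a => (st ρ t).elim none fun b => some (qap o a b) := by
        unfold so
        rw [if_neg hz]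
      rw [hso]
      cases hs : st ρ s with
      | some a =>
        obtain ⟨hs1, hs2⟩ := s1 a hs
        cases ht : st ρ t with
        | some b =>
          obtain ⟨ht1, ht2⟩ := t1 b ht
          refine ⟨fun c hc => ?_, by simp⟩
          simp only [Option.elim_some, Option.some.injEq] at hc
          subst hc
          refine ⟨(val_qap hs1 ht1 o).1, fun x hx => ?_⟩
          rw [(val_qap hs1 ht1 o).2, Ex.eval, hs2 x hx, ht2 x hx]
        | none =>
          refine ⟨by simp, fun _ => ?_⟩
          obtain ⟨i, hi, hti, x, u, hx, hne⟩ := t2 ht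
          obtain ⟨w, hw, w1, w2, w3⟩ := hcomb t s hocc' i hi hti x u hx hne x hx
          refine ⟨i, hi, by simp only [Ex.occ]; omega, w, u, hw, ?_⟩
          simp only [Ex.eval]
          rw [w2, w3]
          cases o
          · simpa [Op.ap] using w1
          · simpa [Op.ap] using w1
          · have hs0 : s.eval x ≠ 0 := by
              rw [hs2 x hx, Ne, val_eq_zero hs1]
              intro h0
              exact hz ⟨rfl, Or.inl (by simp [isz, hs, h0])⟩
            simpa [Op.ap, hs0] using w1
      | none =>
        refine ⟨by simp, fun _ => ?_⟩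
        obtain ⟨i, hi, hsi, x, u, hx, hne⟩ := s2 hs
        -- a point where `t` is not zero, if necessary
        have hty : ∃ y, Ext ρ y ∧ (o = Op.mul → t.eval y ≠ 0) := by
          cases ht : st ρ t with
          | some b =>
            obtain ⟨ht1, ht2⟩ := t1 b ht
            refine ⟨_, hext, fun ho => ?_⟩
            rw [ht2 _ hext, Ne, val_eq_zero ht1]
            intro h0
            exact hz ⟨ho, Or.inr (by simp [isz, ht, h0])⟩
          | none =>
            obtain ⟨j, hj, htj, y, v, hy, hne'⟩ := t2 ht
            by_cases h0 : t.eval y = 0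
            · refine ⟨update y j v, ?_, fun _ h1 => hne' (by rw [h0, h1])⟩
              intro k w hk
              have : k ≠ j := by rintro rfl; rw [hj] at hk; simp at hk
              rw [Function.update_of_ne this]
              exact hy k w hk
            · exact ⟨y, hy, fun _ => h0⟩
        obtain ⟨y, hy, hy'⟩ := hty
        obtain ⟨w, hw, w1, w2, w3⟩ := hcomb s t hocc i hi hsi x u hx hne y hy
        refine ⟨i, hi, by simp only [Ex.occ]; omega, w, u, hw, ?_⟩
        simp only [Ex.eval]
        rw [w2, w3]
        cases o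
        · simpa [Op.ap] using w1
        · simpa [Op.ap] using w1
        · simpa [Op.ap, hy' rfl] using w1

/-- zero on all points which extend the assignment -/
def Zr (ρ : Asg) (E : Ex) : Prop := ∀ x, Ext ρ x → E.eval x = 0

theorem nz_iff {ρ : Asg} {E : Ex} (hE : RO' ρ E) : nz (st ρ E) = true ↔ ¬ Zr ρ E := by
  obtain ⟨h1, h2⟩ := st_spec ρ E hE
  have hext : Ext ρ fun j => ((look ρ j).getD 0 : ℕ) := fun j v hj => by simp [hj]
  cases h : st ρ E with
  | none =>
    simp only [nz, isz, Option.elim_none, Bool.not_false, true_iff]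
    obtain ⟨i, hi, _, x, u, hx, hne⟩ := h2 h
    intro hz
    apply hne
    rw [hz x hx, hz (update x i u)]
    intro k w hk
    have : k ≠ i := by rintro rfl; rw [hi] at hk; simp at hk
    rw [Function.update_of_ne this]
    exact hx k w hk
  | some a =>
    obtain ⟨h3, h4⟩ := h1 a h
    simp only [nz, isz, Option.elim_some, Bool.not_eq_true', decide_eq_false_iff_not]
    rw [not_iff_not, ← val_eq_zero h3]
    constructor
    · intro h0 x hx
      rw [h4 x hx, h0]
    · intro hz
      rw [← h4 _ hext]
      exact hz _ hext

/-- all partial assignments of at most `r` variables of `W` with values less than `D` (and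
possibly some more) -/
def pts : ℕ → List ℕ → ℕ → List Asg
  | 0, _, _ => [[]]
  | r + 1, W, D => pts r W D ++ W.flatMap fun w => (List.range D).flatMap fun v =>
      (pts r W D).map fun g => (w, v) :: g

theorem look_pts {r : ℕ} {W : List ℕ} {D : ℕ} {g : Asg} (hg : g ∈ pts r W D) {i v : ℕ}
    (hi : look g i = some v) : i ∈ W := by
  induction r generalizing g with
  | zero =>
    simp only [pts, List.mem_singleton] at hg
    subst hg
    simp [look_nil] at hi
  | succ r ih =>
    simp only [pts, List.mem_append, List.mem_flatMap, List.mem_map, List.mem_range] at hg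
    rcases hg with hg | ⟨w, hw, v', hv', g', hg', rfl⟩
    · exact ih hg hi
    · rw [look_cons] at hi
      split_ifs at hi with h
      · subst h; exact hw
      · exact ih hg' hi

theorem exists_pts {W : List ℕ} {D : ℕ} {f : ℕ → ℕ} (hf : ∀ i, f i < D) (S : Finset ℕ) :
    ∀ {r : ℕ}, S.card ≤ r → (∀ i ∈ S, i ∈ W) →
    ∃ g ∈ pts r W D, ∀ i, look g i = if i ∈ S then some (f i) else none := by
  induction S using Finset.induction_on with
  | empty =>
    intro r _ _
    refine ⟨[], ?_, fun i => by simp [look_nil]⟩
    induction r with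
    | zero => simp [pts]
    | succ r ih => simp [pts, ih (Nat.zero_le _)]
  | insert j S hj ih =>
    intro r hr hW
    rw [Finset.card_insert_of_notMem hj] at hr
    obtain ⟨r, rfl⟩ : ∃ r', r = r' + 1 := ⟨r - 1, by omega⟩
    obtain ⟨g, hg, hg'⟩ := ih (r := r) (by omega) fun i hi => hW i (Finset.mem_insert_of_mem hi)
    refine ⟨(j, f j) :: g, ?_, fun i => ?_⟩
    · simp only [pts, List.mem_append, List.mem_flatMap, List.mem_map, List.mem_range]
      exact Or.inr ⟨j, hW j (Finset.mem_insert_self _ _), f j, hf j, g, hg, rfl⟩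
    · rw [look_cons, hg']
      by_cases h : j = i
      · subst h; simp
      · have h' : i ≠ j := fun h1 => h h1.symm
        simp [h, h']

/-- test whether an expression is different from zero for some values of the variables of `H` -/
def NZ (r D : ℕ) (H : List ℕ) (ρ : Asg) (C : Ex) : Bool :=
  (pts r H D).any fun g => nz (st (g ++ (ρ ++ H.map fun h => (h, 0))) C)

theorem NZ_iff {r D : ℕ} {H : List ℕ} {ρ : Asg} {C : Ex} (hH : ∀ i ∈ H, look ρ i = none)
    (hr : H.toFinset.card ≤ r) (hD : ∀ i, C.occ i < D) (hC : ∀ i ∉ H, C.occ i ≤ 1) :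
    NZ r D H ρ C = true ↔ ¬ Zr ρ C := by
  have hro : ∀ g : Asg, RO' (g ++ (ρ ++ H.map fun h => (h, 0))) C := by
    intro g i hi
    by_cases h : i ∈ H
    · rw [look_append, look_append, look_map_zero, if_pos h] at hi
      cases h1 : look g i <;> cases h2 : look ρ i <;> simp [h1, h2] at hi
    · exact hC i h
  unfold NZ
  rw [List.any_eq_true]
  constructor
  · rintro ⟨g, hg, hn⟩ hz
    rw [nz_iff (hro g)] at hn
    apply hn
    intro x hx
    refine hz x fun i v hi => hx i v ?_
    have h1 : i ∉ H := fun h => by rw [hH i h] at hi; simp at hi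
    have h2 : look g i = none := by
      cases h : look g i with
      | none => rfl
      | some w => exact absurd (look_pts hg h) h1
    rw [look_append, look_append, h2, hi]
    simp
  · intro hz
    unfold Zr at hz
    push Not at hz
    obtain ⟨x, hx, hne⟩ := hz
    obtain ⟨f, hf, hf'⟩ := exists_grid hD H.toFinset hne
    obtain ⟨g, hg, hg'⟩ := exists_pts (W := H) hf H.toFinset hr (by simp)
    refine ⟨g, hg, ?_⟩
    rw [nz_iff (hro g)]
    intro h0
    refine hf' (h0 _ ?_)
    intro i v hi
    by_cases h : i ∈ H
    · rw [look_append, hg' i] at hi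
      simp only [List.mem_toFinset, h, if_true, Option.some_or, Option.some.injEq] at hi
      simp [h, hi]
    · rw [look_append, hg' i] at hi
      simp only [List.mem_toFinset, h, if_false, Option.none_or] at hi
      rw [look_append, look_map_zero, if_neg h, Option.or_none] at hi
      simp [h, hx i v hi]

/-- the value of the next variable -/
def pick (r D : ℕ) (H : List ℕ) (Cs : List Ex) (N : ℕ) (ρ : Asg) (x : ℕ) : ℕ :=
  (((List.range N).filter fun v => Cs.all fun C =>
    !(NZ r D H ρ C) || NZ r D H ((x, v) :: ρ) C).head?).getD 0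

/-- the values of the variables of `L` -/
def asgn (r D : ℕ) (H : List ℕ) (Cs : List Ex) (N : ℕ) (L : List ℕ) (ρ : Asg) : Asg :=
  L.foldl (fun ρ x => if (look ρ x).isSome then ρ else (x, pick r D H Cs N ρ x) :: ρ) ρ

/-- two bad values for the same expression -/
theorem zr_of_two {ρ : Asg} {C : Ex} {x v w : ℕ} (hC : C.occ x ≤ 1) (hx : look ρ x = none)
    (hvw : v ≠ w) (hv : Zr ((x, v) :: ρ) C) (hw : Zr ((x, w) :: ρ) C) : Zr ρ C := by
  intro y hy
  have e : ∀ a : ℕ, Zr ((x, a) :: ρ) C → C.eval (update y x (a : ℚ)) = 0 := by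
    intro a ha
    refine ha _ fun i b hi => ?_
    rw [look_cons] at hi
    by_cases h : x = i
    · subst h
      simp only [if_true, Option.some.injEq] at hi
      simp [hi]
    · simp only [h, if_false] at hi
      rw [Function.update_of_ne fun h' => h h'.symm]
      exact hy i b hi
  have h1 := e v hv
  have h2 := e w hw
  rw [Ex.eval_affine hC] at h1 h2
  have hne : (v : ℚ) - w ≠ 0 := sub_ne_zero.2 (by exact_mod_cast hvw)
  have h3 : ((v : ℚ) - w) * (C.eval (update y x 1) - C.eval (update y x 0)) = 0 := by
    linear_combination h1 - h2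
  have h4 : C.eval (update y x 1) - C.eval (update y x 0) = 0 :=
    (mul_eq_zero.1 h3).resolve_left hne
  rw [h4, mul_zero, add_zero] at h1
  have h5 := Ex.eval_affine hC y (y x)
  rw [Function.update_eq_self, h4, h1] at h5
  simpa using h5

/-- The hypotheses of the choice of the base point. -/
structure GH (r D : ℕ) (H : List ℕ) (Cs : List Ex) (N : ℕ) : Prop where
  card : H.toFinset.card ≤ r
  deg : ∀ C ∈ Cs, ∀ i, C.occ i < D
  ro : ∀ C ∈ Cs, ∀ i ∉ H, C.occ i ≤ 1
  len : Cs.length < N

theorem pick_spec {r D : ℕ} {H : List ℕ} {Cs : List Ex} {N : ℕ} (hG : GH r D H Cs N) {ρ : Asg}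
    (hH : ∀ i ∈ H, look ρ i = none) {x : ℕ} (hxH : x ∉ H) (hx : look ρ x = none) :
    ∀ C ∈ Cs, ¬ Zr ρ C → ¬ Zr ((x, pick r D H Cs N ρ x) :: ρ) C := by
  have hH' : ∀ v, ∀ i ∈ H, look ((x, v) :: ρ) i = none := by
    intro v i hi
    have : x ≠ i := by rintro rfl; exact hxH hi
    rw [look_cons, if_neg this, hH i hi]
  have hgood : ∃ v < N, ∀ C ∈ Cs, ¬ Zr ρ C → ¬ Zr ((x, v) :: ρ) C := by
    by_contra hc
    push Not at hc
    have hc' : ∀ v ∈ Finset.range N, ∃ C, C ∈ Cs ∧ ¬ Zr ρ C ∧ Zr ((x, v) :: ρ) C := by
      intro v hv
      obtain ⟨C, h1, h2, h3⟩ := hc v (Finset.mem_range.1 hv)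
      exact ⟨C, h1, h2, h3⟩
    choose! f hf using hc'
    obtain ⟨v, hv, w, hw, hvw, hfe⟩ := Finset.exists_ne_map_eq_of_card_lt_of_maps_to
      (s := Finset.range N) (t := Cs.toFinset) (f := f)
      (by rw [Finset.card_range]; exact (List.toFinset_card_le _).trans_lt hG.len)
      (fun v hv => by simpa using (hf v hv).1)
    obtain ⟨h1, h2, h3⟩ := hf v hv
    obtain ⟨h4, h5, h6⟩ := hf w hw
    rw [← hfe] at h6
    exact h2 (zr_of_two (hG.ro _ h1 x hxH) hx hvw h3 h6)
  have hmem : pick r D H Cs N ρ x ∈ (List.range N).filter (fun v => Cs.all fun C =>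
      !(NZ r D H ρ C) || NZ r D H ((x, v) :: ρ) C) := by
    unfold pick
    cases h : ((List.range N).filter fun v => Cs.all fun C =>
        !(NZ r D H ρ C) || NZ r D H ((x, v) :: ρ) C).head? with
    | some v => exact List.mem_of_mem_head? (by rw [Option.getD_some]; exact h)
    | none =>
      exfalso
      rw [List.head?_eq_none_iff] at h
      obtain ⟨v, hv, hv'⟩ := hgood
      have : v ∈ (List.range N).filter (fun v => Cs.all fun C =>
          !(NZ r D H ρ C) || NZ r D H ((x, v) :: ρ) C) := by
        rw [List.mem_filter, List.mem_range, List.all_eq_true]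
        refine ⟨hv, fun C hC => ?_⟩
        by_cases h1 : Zr ρ C
        · have : NZ r D H ρ C = false := by
            rw [← Bool.not_eq_true, NZ_iff hH hG.card (hG.deg C hC) (hG.ro C hC)]
            exact fun h => h h1
          simp [this]
        · have := (NZ_iff (hH' v) hG.card (hG.deg C hC) (hG.ro C hC)).2 (hv' C hC h1)
          simp [this]
      rw [h] at this
      simp at this
  rw [List.mem_filter, List.all_eq_true] at hmem
  intro C hC hz
  have h1 := hmem.2 C hC
  have h2 := (NZ_iff hH hG.card (hG.deg C hC) (hG.ro C hC)).2 hz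
  rw [h2] at h1
  simp only [Bool.not_true, Bool.false_or] at h1
  exact (NZ_iff (hH' _) hG.card (hG.deg C hC) (hG.ro C hC)).1 h1

/-- **The choice of the base point.** -/
theorem asgn_spec {r D : ℕ} {H : List ℕ} {Cs : List Ex} {N : ℕ} (hG : GH r D H Cs N)
    (L : List ℕ) (hL : ∀ i ∈ L, i ∉ H) (ρ : Asg) (hρ : ∀ i, (look ρ i).isSome → i ∉ H) :
    (∀ i, (look (asgn r D H Cs N L ρ) i).isSome ↔ (i ∈ L ∨ (look ρ i).isSome)) ∧
    ∀ C ∈ Cs, ¬ Zr ρ C → ¬ Zr (asgn r D H Cs N L ρ) C := by
  induction L generalizing ρ with
  | nil => exact ⟨fun i => by simp [asgn], fun C _ h => h⟩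
  | cons x L ih =>
    have hstep : asgn r D H Cs N (x :: L) ρ = asgn r D H Cs N L
        (if (look ρ x).isSome then ρ else (x, pick r D H Cs N ρ x) :: ρ) := rfl
    rw [hstep]
    have hxH := hL x List.mem_cons_self
    by_cases hx : (look ρ x).isSome = true
    · rw [if_pos hx]
      obtain ⟨h1, h2⟩ := ih (fun i hi => hL i (List.mem_cons_of_mem _ hi)) ρ hρ
      refine ⟨fun i => ?_, h2⟩
      rw [h1 i, List.mem_cons]
      constructor
      · rintro (h | h)
        · exact Or.inl (Or.inr h)
        · exact Or.inr h
      · rintro ((rfl | h) | h)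
        · exact Or.inr hx
        · exact Or.inl h
        · exact Or.inr h
    · rw [if_neg hx]
      have hx' : look ρ x = none := by simpa using hx
      have hH : ∀ i ∈ H, look ρ i = none := fun i hi => by
        by_contra hc
        exact hρ i (Option.isSome_iff_ne_none.2 hc) hi
      obtain ⟨h1, h2⟩ := ih (fun i hi => hL i (List.mem_cons_of_mem _ hi))
        ((x, pick r D H Cs N ρ x) :: ρ) (by
          intro i hi
          rw [look_cons] at hi
          split_ifs at hi with h
          · simp only at h; subst h; exact hxH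
          · exact hρ i hi)
      refine ⟨fun i => ?_, fun C hC hz => h2 C hC (pick_spec hG hH hxH hx' C hC hz)⟩
      rw [h1 i, look_cons, List.mem_cons]
      by_cases h : x = i
      · subst h; simp
      · have h' : i ≠ x := fun h3 => h h3.symm
        simp [h, h']

end Pool.Agent.J6H25.PIT
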