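import Pool.Agent.J6H25.PIT.Alg2

/-!
# The test whether an expression depends on a variable
-/

set_option autoImplicit false

namespace Pool.Agent.J6H25.PIT

open Function (update)

/-- `F` is obtained by additions and subtractions from `m` subexpressions in each of which every
variable not in `W` occurs at most once. -/
inductive Parts (W : Set ℕ) : ℕ → Ex → Prop
  | one {F : Ex} : (∀ i ∉ W, F.occ i ≤ 1) → Parts W 1 F
  | add {m n : ℕ} {s t : Ex} : Parts W m s → Parts W n t → Parts W (m + n) (Ex.op Op.add s t)
  | sub {m n : ℕ} {s t : Ex} : Parts W m s → Parts W n t → Parts W (m + n) (Ex.op Op.sub s t)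

theorem Parts.pos {W : Set ℕ} {m : ℕ} {F : Ex} (h : Parts W m F) : 1 ≤ m := by
  induction h with
  | one => exact le_rfl
  | add => omega
  | sub => omega

/-- every variable not in `Z` occurs at most once -/
def rob (Z : List ℕ) (F : Ex) : Bool :=
  F.vlist.all fun i => decide (i ∈ Z) ||
    decide ((F.vlist.filter fun j => decide (j = i)).length ≤ 1)

theorem length_filter_eq (l : List ℕ) (i : ℕ) :
    (l.filter fun j => decide (j = i)).length = l.count i := by
  rw [List.count_eq_countP, List.countP_eq_length_filter]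
  congr 2

theorem rob_iff {Z : List ℕ} {F : Ex} : rob Z F = true ↔ ∀ i ∉ Z, F.occ i ≤ 1 := by
  simp only [rob, List.all_eq_true, Bool.or_eq_true, decide_eq_true_eq, length_filter_eq,
    Ex.count_vlist]
  constructor
  · intro h i hi
    by_cases h0 : F.occ i = 0
    · omega
    · exact (h i (Ex.mem_vlist.2 h0)).resolve_left hi
  · intro h i _
    by_cases hi : i ∈ Z
    · exact Or.inl hi
    · exact Or.inr (h i hi)

/-- one step of the computation of the parts -/
def partso (Z : List ℕ) (o : Op) (p q : Ex × List Ex) : Ex × List Ex :=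
  (Ex.op o p.1 q.1, if rob Z (Ex.op o p.1 q.1) = true ∨ o = Op.mul then [Ex.op o p.1 q.1]
    else p.2 ++ q.2)

/-- the parts, together with the expression -/
def partsp (Z : List ℕ) (F : Ex) : Ex × List Ex :=
  F.fold (fun i => (Ex.var i, [Ex.var i])) (fun q => (Ex.num q, [Ex.num q])) (partso Z)

/-- the parts -/
def partsl (Z : List ℕ) (F : Ex) : List Ex := (partsp Z F).2

theorem partsp_fst (Z : List ℕ) (F : Ex) : (partsp Z F).1 = F := by
  induction F with
  | var i => rfl
  | num q => rfl
  | op o s t ihs iht =>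
    change Ex.op o (partsp Z s).1 (partsp Z t).1 = _
    rw [ihs, iht]

theorem partsl_op (Z : List ℕ) (o : Op) (s t : Ex) : partsl Z (Ex.op o s t) =
    if rob Z (Ex.op o s t) = true ∨ o = Op.mul then [Ex.op o s t]
      else partsl Z s ++ partsl Z t := by
  change (if rob Z (Ex.op o (partsp Z s).1 (partsp Z t).1) = true ∨ o = Op.mul
    then [Ex.op o (partsp Z s).1 (partsp Z t).1] else (partsp Z s).2 ++ (partsp Z t).2) = _
  rw [partsp_fst, partsp_fst]
  rfl

theorem partsl_spec {W : Set ℕ} {m : ℕ} {F : Ex} (h : Parts W m F) {Z : List ℕ}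
    (hZ : ∀ i ∈ W, F.occ i ≠ 0 → i ∈ Z) :
    (partsl Z F).length ≤ m ∧ ∀ P ∈ partsl Z F, ∀ i ∉ Z, P.occ i ≤ 1 := by
  induction h with
  | @one F hF =>
    have h1 : rob Z F = true := rob_iff.2 fun i hi => by
      by_cases h0 : F.occ i = 0
      · omega
      · exact hF i fun hw => hi (hZ i hw h0)
    have h2 : partsl Z F = [F] := by
      cases F with
      | var i => rfl
      | num q => rfl
      | op o s t => rw [partsl_op, if_pos (Or.inl h1)]
    rw [h2]
    refine ⟨le_rfl, fun P hP => ?_⟩
    rw [List.mem_singleton] at hP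
    subst hP
    exact rob_iff.1 h1
  | @add m n s t hs ht ihs iht =>
    have hm := hs.pos
    rw [partsl_op]
    obtain ⟨s1, s2⟩ := ihs fun i hi h0 => hZ i hi (by simp only [Ex.occ]; omega)
    obtain ⟨t1, t2⟩ := iht fun i hi h0 => hZ i hi (by simp only [Ex.occ]; omega)
    by_cases h : rob Z (Ex.op Op.add s t) = true ∨ Op.add = Op.mul
    · rw [if_pos h]
      refine ⟨by simp only [List.length_singleton]; omega, fun P hP => ?_⟩
      rw [List.mem_singleton] at hP
      subst hP
      exact rob_iff.1 (h.resolve_right (by simp))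
    · rw [if_neg h]
      refine ⟨by rw [List.length_append]; omega, fun P hP => ?_⟩
      rcases List.mem_append.1 hP with hP | hP
      · exact s2 P hP
      · exact t2 P hP
  | @sub m n s t hs ht ihs iht =>
    have hm := hs.pos
    rw [partsl_op]
    obtain ⟨s1, s2⟩ := ihs fun i hi h0 => hZ i hi (by simp only [Ex.occ]; omega)
    obtain ⟨t1, t2⟩ := iht fun i hi h0 => hZ i hi (by simp only [Ex.occ]; omega)
    by_cases h : rob Z (Ex.op Op.sub s t) = true ∨ Op.sub = Op.mul
    · rw [if_pos h]
      refine ⟨by simp only [List.length_singleton]; omega, fun P hP => ?_⟩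
      rw [List.mem_singleton] at hP
      subst hP
      exact rob_iff.1 (h.resolve_right (by simp))
    · rw [if_neg h]
      refine ⟨by rw [List.length_append]; omega, fun P hP => ?_⟩
      rcases List.mem_append.1 hP with hP | hP
      · exact s2 P hP
      · exact t2 P hP

/-- the parts with their signs -/
def sparts (Z : List ℕ) : Ex → List (ℚ × Ex)
  | Ex.var i => [(1, Ex.var i)]
  | Ex.num q => [(1, Ex.num q)]
  | Ex.op o s t => if rob Z (Ex.op o s t) = true ∨ o = Op.mul then [(1, Ex.op o s t)]
      else if o = Op.add then sparts Z s ++ sparts Z t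
      else sparts Z s ++ (sparts Z t).map fun p => (-p.1, p.2)

theorem sparts_snd (Z : List ℕ) (F : Ex) : (sparts Z F).map Prod.snd = partsl Z F := by
  induction F with
  | var i => rfl
  | num q => rfl
  | op o s t ihs iht =>
    rw [partsl_op, sparts, ← ihs, ← iht]
    split_ifs
    · rfl
    · simp
    · simp

theorem sumU_append (us vs : List (ℚ × Ex)) (x : ℕ → ℚ) :
    sumU (us ++ vs) x = sumU us x + sumU vs x := by simp [sumU]

theorem sumU_neg (us : List (ℚ × Ex)) (x : ℕ → ℚ) :
    sumU (us.map fun p => (-p.1, p.2)) x = - sumU us x := by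
  induction us with
  | nil => simp
  | cons p us ih => simp only [List.map_cons, sumU_cons, ih]; ring

theorem sumU_sparts (Z : List ℕ) (F : Ex) (x : ℕ → ℚ) : sumU (sparts Z F) x = F.eval x := by
  induction F with
  | var i => simp [sparts]
  | num q => simp [sparts]
  | op o s t ihs iht =>
    rw [sparts]
    split_ifs with h1 h2
    · simp
    · subst h2
      rw [sumU_append, ihs, iht]
      rfl
    · have : o = Op.sub := by
        cases o
        · exact absurd rfl h2
        · rfl
        · exact absurd (Or.inr rfl) h1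
      subst this
      rw [sumU_append, sumU_neg, ihs, iht]
      simp [Ex.eval, Op.ap, sub_eq_add_neg]

theorem NN_mono : Monotone NN := monotone_nat_of_le_succ fun n => by simp only [NN]; omega

/-- the expression in which the variables with values, except for those of `S`, are replaced by
their values -/
def res (ρ : Asg) (S : Finset ℕ) (E : Ex) : Ex :=
  E.sbs fun i => if i ∈ S then Ex.var i else (look ρ i).elim (Ex.var i) fun v => Ex.num v

theorem eval_res (ρ : Asg) (S : Finset ℕ) (E : Ex) (x : ℕ → ℚ) :
    (res ρ S E).eval x =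
      E.eval (fun i => if i ∈ S then x i else (look ρ i).elim (x i) fun v => (v : ℚ)) := by
  unfold res
  rw [Ex.eval_sbs]
  congr 1
  funext i
  split_ifs with h
  · rfl
  · cases look ρ i <;> rfl

theorem occ_res_le (ρ : Asg) (S : Finset ℕ) (E : Ex) (i : ℕ) : (res ρ S E).occ i ≤ E.occ i := by
  unfold res
  induction E with
  | var j =>
    simp only [Ex.sbs]
    split_ifs
    · exact le_rfl
    · cases look ρ j
      · exact le_rfl
      · exact Nat.zero_le _
  | num q => exact le_rfl
  | op o s t ihs iht => simp only [Ex.sbs, Ex.occ]; omega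

theorem Dep.res_mono {ρ : Asg} {S S' : Finset ℕ} (h : S ⊆ S') {E : Ex} {y : ℕ}
    (hy : look ρ y = none) (hd : Dep y (res ρ S E)) : Dep y (res ρ S' E) := by
  obtain ⟨x, u, hne⟩ := hd
  rw [eval_res, eval_res] at hne
  refine ⟨fun i => if i ∈ S then x i else (look ρ i).elim (x i) fun v => (v : ℚ), u, ?_⟩
  rw [eval_res, eval_res]
  convert hne using 2
  · funext i
    by_cases hiy : i = y
    · subst hiy
      simp [hy]
    · by_cases hiS : i ∈ S
      · simp [hiy, hiS, h hiS]
      · by_cases hiS' : i ∈ S'
        · simp [hiy, hiS, hiS']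
        · simp only [hiS, hiS', if_false, Function.update_of_ne hiy]
          cases look ρ i <;> rfl
  · funext i
    by_cases hiS : i ∈ S
    · simp [hiS, h hiS]
    · by_cases hiS' : i ∈ S'
      · simp [hiS, hiS']
      · simp only [hiS, hiS', if_false]
        cases look ρ i <;> rfl

theorem isZ_res_mono {ρ : Asg} {S S' : Finset ℕ} (h : S ⊆ S') {E : Ex}
    (hd : ¬ IsZ (res ρ S E)) : ¬ IsZ (res ρ S' E) := by
  unfold IsZ at hd ⊢
  push Not at hd ⊢
  obtain ⟨x, hne⟩ := hd
  rw [eval_res] at hne
  refine ⟨fun i => if i ∈ S then x i else (look ρ i).elim (x i) fun v => (v : ℚ), ?_⟩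
  rw [eval_res]
  convert hne using 2
  funext i
  by_cases hiS : i ∈ S
  · simp [hiS, h hiS]
  · by_cases hiS' : i ∈ S'
    · simp [hiS, hiS']
    · simp only [hiS, hiS', if_false]
      cases look ρ i <;> rfl

theorem not_isZ_res_empty {ρ : Asg} {E : Ex} (h : ¬ Zr ρ E) : ¬ IsZ (res ρ ∅ E) := by
  unfold Zr at h
  unfold IsZ
  push Not at h ⊢
  obtain ⟨x, hx, hne⟩ := h
  refine ⟨x, ?_⟩
  rw [eval_res]
  convert hne using 2
  funext i
  cases hi : look ρ i with
  | none => simp
  | some v => simp [hx i v hi]

theorem zr_nil_iff {E : Ex} : Zr [] E ↔ IsZ E :=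
  ⟨fun h x => h x fun i v hi => by simp [look_nil] at hi, fun h x _ => h x⟩

/-- The hypotheses for the parts of an expression: their number is at most `m`, the variables with
values occur at most once in each of them, and no subexpression is made zero by the values. -/
structure PH (ρ : Asg) (m : ℕ) (us : List (ℚ × Ex)) : Prop where
  len : us.length ≤ m
  ro : ∀ p ∈ us, ∀ i, (look ρ i).isSome → p.2.occ i ≤ 1
  nz : ∀ p ∈ us, ∀ C ∈ p.2.subs, ¬ IsZ C → ¬ Zr ρ C

theorem exists_set_of_sum (x : ℕ → ℚ) {m : ℕ} (hm : 1 ≤ m) {us : List (ℚ × Ex)}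
    (hus : us.length ≤ m) (L : Finset ℕ) (hU : ∀ t ∈ us, Gd L x t.2 ∧ RO L t.2) {w : ℕ → ℚ}
    (hw : Off L x w) (hne : sumU us w ≠ 0) :
    ∃ S ⊆ L, S.card < NN m ∧ ∃ y, Off S x y ∧ sumU us y ≠ 0 := by
  by_contra hc
  push Not at hc
  by_cases h0 : us.length = 0
  · rw [List.length_eq_zero_iff] at h0
    subst h0
    simp at hne
  · refine hne (small_support x (m := us.length) (by omega) rfl _ L rfl hU ?_ w hw)
    intro S hS hSc y hy
    exact hc S hS (hSc.trans_le (NN_mono hus)) y hy

/-- the variables with values -/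
theorem exists_dom (ρ : Asg) : ∃ L : Finset ℕ, ∀ i, i ∈ L ↔ (look ρ i).isSome := by
  refine ⟨((ρ.map Prod.fst).toFinset).filter fun i => (look ρ i).isSome, fun i => ?_⟩
  rw [Finset.mem_filter, and_iff_right_iff_imp]
  intro h
  rw [List.mem_toFinset, List.mem_map]
  obtain ⟨v, hv⟩ := Option.isSome_iff_exists.1 h
  unfold look at hv
  obtain ⟨p, hp, hpv⟩ := Option.map_eq_some_iff.1 hv
  have := List.mem_of_mem_head? hp
  rw [List.mem_filter] at this
  exact ⟨p, this.1, by simpa using this.2⟩

/-- **Small sets for expressions which are not zero.** -/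
theorem exists_set_nz {ρ : Asg} {m : ℕ} (hm : 1 ≤ m) {us : List (ℚ × Ex)} (hP : PH ρ m us)
    {T : Ex} (hT : ∀ x, T.eval x = sumU us x) (hz : ¬ IsZ T) :
    ∃ S : Finset ℕ, (∀ i ∈ S, (look ρ i).isSome) ∧ S.card < NN m ∧ ¬ IsZ (res ρ S T) := by
  classical
  obtain ⟨L, hL⟩ := exists_dom ρ
  -- a generic point
  obtain ⟨X, hX⟩ := generic (T :: ((us.flatMap fun p => p.2.subs).filter fun C =>
      decide (¬ IsZ C)).map (res ρ ∅)) (by
    intro E hE
    rcases List.mem_cons.1 hE with rfl | hE
    · exact hz
    · obtain ⟨C, hC, rfl⟩ := List.mem_map.1 hE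
      rw [List.mem_filter, List.mem_flatMap] at hC
      obtain ⟨⟨p, hp, hC⟩, h1⟩ := hC
      exact not_isZ_res_empty (hP.nz p hp C hC (by simpa using h1)))
  set x : ℕ → ℚ := fun i => (look ρ i).elim (X i) fun v => (v : ℚ) with hx
  have hXoff : Off L x X := by
    intro i hi
    rw [hL, Bool.not_eq_true, Option.isSome_eq_false_iff, Option.isNone_iff_eq_none] at hi
    simp [hx, hi]
  have hU : ∀ t ∈ us, Gd L x t.2 ∧ RO L t.2 := by
    intro p hp
    refine ⟨fun C hC => ?_, fun i hi => hP.ro p hp i ((hL i).1 hi)⟩
    by_cases h1 : IsZ C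
    · exact Or.inr fun y _ => h1 y
    · left
      have := hX (res ρ ∅ C) (List.mem_cons_of_mem _ (List.mem_map.2 ⟨C, by
        rw [List.mem_filter, List.mem_flatMap]
        exact ⟨⟨p, hp, hC⟩, by simpa using h1⟩, rfl⟩))
      rw [eval_res] at this
      simpa [hx] using this
  have hne : sumU us X ≠ 0 := by
    rw [← hT]
    exact hX T List.mem_cons_self
  obtain ⟨S, hS, hSc, y, hy, hyne⟩ := exists_set_of_sum x hm hP.len L hU hXoff hne
  refine ⟨S, fun i hi => (hL i).1 (hS hi), hSc, fun h0 => hyne ?_⟩
  rw [← hT, ← h0 y, eval_res]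
  congr 1
  funext i
  by_cases hi : i ∈ S
  · simp [hi]
  · rw [if_neg hi, hy i hi, hx]
    simp only
    cases h : look ρ i with
    | some v => rfl
    | none => simp only [Option.elim_none]

/-- replacement of the variable `y` by a constant -/
def fixv (y : ℕ) (c : ℚ) (E : Ex) : Ex := E.sbs fun i => if i = y then Ex.num c else Ex.var i

theorem eval_fixv (y : ℕ) (c : ℚ) (E : Ex) (x : ℕ → ℚ) :
    (fixv y c E).eval x = E.eval (update x y c) := by
  unfold fixv
  rw [Ex.eval_sbs]
  congr 1
  funext i
  by_cases h : i = y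
  · subst h; simp [Ex.eval]
  · simp [h, Ex.eval]

theorem occ_fixv_le (y : ℕ) (c : ℚ) (E : Ex) (i : ℕ) : (fixv y c E).occ i ≤ E.occ i := by
  unfold fixv
  induction E with
  | var j =>
    simp only [Ex.sbs]
    split_ifs
    · exact Nat.zero_le _
    · exact le_rfl
  | num q => exact le_rfl
  | op o s t ihs iht => simp only [Ex.sbs, Ex.occ]; omega

theorem sumU_fixv (y : ℕ) (c : ℚ) (us : List (ℚ × Ex)) (x : ℕ → ℚ) :
    sumU (us.map fun p => (p.1, fixv y c p.2)) x = sumU us (update x y c) := by
  induction us with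
  | nil => simp
  | cons p us ih => simp only [List.map_cons, sumU_cons, ih, eval_fixv]

/-- **Small sets for expressions which depend on a variable.** -/
theorem exists_set_dep {ρ : Asg} {m : ℕ} (hm : 1 ≤ m) {us : List (ℚ × Ex)} (hP : PH ρ m us)
    {T : Ex} (hT : ∀ x, T.eval x = sumU us x) {y : ℕ} (hy : look ρ y = none) (hd : Dep y T) :
    ∃ S : Finset ℕ, (∀ i ∈ S, (look ρ i).isSome) ∧ S.card < NN (2 * m) ∧
      Dep y (res ρ S T) := by
  classical
  obtain ⟨L, hL⟩ := exists_dom ρ
  have hyL : y ∉ L := by rw [hL, hy]; simp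
  obtain ⟨z, hz⟩ := exists_fresh (y :: (T.vlist ++ (us.flatMap fun p => p.2.vlist) ++
    ρ.map Prod.fst))
  simp only [List.mem_cons, List.mem_append, not_or] at hz
  obtain ⟨hzy, ⟨hzT, hzU⟩, hzρ⟩ := hz
  rw [Ex.mem_vlist, not_not] at hzT
  have hzl : look ρ z = none := by
    cases h : look ρ z with
    | none => rfl
    | some v =>
      exfalso
      apply hzρ
      unfold look at h
      obtain ⟨p, hp, hpv⟩ := Option.map_eq_some_iff.1 h
      have := List.mem_of_mem_head? hp
      rw [List.mem_filter] at this
      exact List.mem_map.2 ⟨p, this.1, by simpa using this.2⟩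
  set ren : Ex → Ex := fun E => E.sbs fun j => if j = y then Ex.var z else Ex.var j with hren
  have eval_ren : ∀ E (x : ℕ → ℚ), (ren E).eval x = E.eval (update x y (x z)) := by
    intro E x
    rw [hren, Ex.eval_sbs]
    congr 1
    funext j
    by_cases h : j = y
    · subst h; simp [Ex.eval]
    · simp [h, Ex.eval]
  set Cs : List Ex := (us.flatMap fun p => p.2.subs).filter fun C => decide (¬ IsZ C) with hCs
  -- a generic point
  obtain ⟨X, hX⟩ := generic (T.dif y z :: (Cs.map (res ρ ∅) ++ Cs.map fun C => ren (res ρ ∅ C)))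
    (by
    intro E hE
    rcases List.mem_cons.1 hE with rfl | hE
    · exact hd.dif hzT hzy
    · rcases List.mem_append.1 hE with hE | hE
      · obtain ⟨C, hC, rfl⟩ := List.mem_map.1 hE
        rw [hCs, List.mem_filter, List.mem_flatMap] at hC
        obtain ⟨⟨p, hp, hC⟩, h1⟩ := hC
        exact not_isZ_res_empty (hP.nz p hp C hC (by simpa using h1))
      · obtain ⟨C, hC, rfl⟩ := List.mem_map.1 hE
        rw [hCs, List.mem_filter, List.mem_flatMap] at hC
        obtain ⟨⟨p, hp, hC⟩, h1⟩ := hC
        have h2 := not_isZ_res_empty (hP.nz p hp C hC (by simpa using h1))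
        unfold IsZ at h2 ⊢
        push Not at h2 ⊢
        obtain ⟨x, hx⟩ := h2
        refine ⟨update x z (x y), ?_⟩
        rw [eval_ren, Function.update_self]
        convert hx using 1
        refine Ex.eval_congr fun j hj => ?_
        by_cases hjy : j = y
        · subst hjy; simp
        · have hjz : j ≠ z := by
            rintro rfl
            apply hzU
            rw [List.mem_flatMap]
            refine ⟨p, hp, ?_⟩
            rw [Ex.mem_vlist]
            have h3 := occ_res_le ρ ∅ C j
            have h4 : ∀ (E : Ex), C ∈ E.subs → C.occ j ≤ E.occ j := by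
              intro E
              induction E with
              | var i => intro h; simp only [Ex.subs, List.mem_singleton] at h; rw [h]
              | num i => intro h; simp only [Ex.subs, List.mem_singleton] at h; rw [h]
              | op o s t ihs iht =>
                intro h
                simp only [Ex.subs, List.mem_cons, List.mem_append] at h
                rcases h with h | h | h
                · rw [h]
                · have := ihs h; simp only [Ex.occ]; omega
                · have := iht h; simp only [Ex.occ]; omega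
            have h5 := h4 p.2 hC
            omega
          simp [hjy, hjz])
  set x : ℕ → ℚ := fun i => (look ρ i).elim (X i) fun v => (v : ℚ) with hx
  have hxy : x y = X y := by simp [hx, hy]
  have hXoff : Off L x X := by
    intro i hi
    rw [hL, Bool.not_eq_true, Option.isSome_eq_false_iff, Option.isNone_iff_eq_none] at hi
    simp [hx, hi]
  set vs : List (ℚ × Ex) := (us.map fun p => (p.1, fixv y (X z) p.2)) ++
    (us.map fun p => (p.1, fixv y (X y) p.2)).map fun p => (-p.1, p.2) with hvs
  have hval : ∀ w : ℕ → ℚ, sumU vs w = T.eval (update w y (X z)) - T.eval (update w y (X y)) := by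
    intro w
    rw [hvs, sumU_append, sumU_neg, sumU_fixv, sumU_fixv, hT, hT, sub_eq_add_neg]
  have hGd : ∀ p ∈ us, ∀ c : ℚ, (c = X z ∨ c = X y) → Gd L x (fixv y c p.2) := by
    intro p hp c hc C' hC'
    obtain ⟨C, hC, rfl⟩ := Ex.mem_subs_sbs (fun i => by split_ifs <;> rfl) hC'
    change Pn L x (fixv y c C)
    by_cases h1 : IsZ C
    · exact Or.inr fun w _ => by rw [eval_fixv]; exact h1 _
    · left
      rw [eval_fixv]
      have hmem : C ∈ Cs := by
        rw [hCs, List.mem_filter, List.mem_flatMap]
        exact ⟨⟨p, hp, hC⟩, by simpa using h1⟩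
      rcases hc with rfl | rfl
      · have := hX (ren (res ρ ∅ C)) (List.mem_cons_of_mem _ (List.mem_append.2 (Or.inr
          (List.mem_map.2 ⟨C, hmem, rfl⟩))))
        rw [eval_ren, eval_res] at this
        convert this using 2
        funext i
        by_cases hiy : i = y
        · subst hiy; simp [hy]
        · simp [hiy, hx]
      · have := hX (res ρ ∅ C) (List.mem_cons_of_mem _ (List.mem_append.2 (Or.inl
          (List.mem_map.2 ⟨C, hmem, rfl⟩))))
        rw [eval_res] at this
        convert this using 2
        funext i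
        by_cases hiy : i = y
        · subst hiy; simp [hy]
        · simp [hiy, hx]
  have hU : ∀ t ∈ vs, Gd L x t.2 ∧ RO L t.2 := by
    have hro : ∀ p ∈ us, ∀ c : ℚ, RO L (fixv y c p.2) := fun p hp c i hi =>
      (occ_fixv_le y c p.2 i).trans (hP.ro p hp i ((hL i).1 hi))
    intro t ht
    rw [hvs] at ht
    rcases List.mem_append.1 ht with ht | ht
    · obtain ⟨p, hp, rfl⟩ := List.mem_map.1 ht
      exact ⟨hGd p hp _ (Or.inl rfl), hro p hp _⟩
    · obtain ⟨q, hq, rfl⟩ := List.mem_map.1 ht
      obtain ⟨p, hp, rfl⟩ := List.mem_map.1 hq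
      exact ⟨hGd p hp _ (Or.inr rfl), hro p hp _⟩
  have hne : sumU vs X ≠ 0 := by
    rw [hval, Function.update_eq_self]
    have := hX (T.dif y z) List.mem_cons_self
    rwa [Ex.eval_dif] at this
  obtain ⟨S, hS, hSc, w, hw, hwne⟩ := exists_set_of_sum x (m := 2 * m) (by omega)
    (us := vs) (by
      rw [hvs, List.length_append, List.length_map, List.length_map, List.length_map]
      have := hP.len
      omega) L hU hXoff hne
  refine ⟨S, fun i hi => (hL i).1 (hS hi), hSc, ?_⟩
  have hyS : y ∉ S := fun h => hyL (hS h)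
  rw [hval, sub_ne_zero] at hwne
  refine Dep.of_ne (x := w) (u := X z) (v := X y) ?_
  have key : ∀ c : ℚ, (res ρ S T).eval (update w y c) = T.eval (update w y c) := by
    intro c
    rw [eval_res]
    congr 1
    funext i
    by_cases hiy : i = y
    · subst hiy; simp [hy]
    · by_cases hi : i ∈ S
      · simp [hi]
      · rw [if_neg hi, Function.update_of_ne hiy, hw i hi, hx]
        simp only
        cases h : look ρ i with
        | some v => rfl
        | none => simp only [Option.elim_none]
  rw [key, key]
  exact hwne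

end Pool.Agent.J6H25.PIT
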