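import Pool.Agent.J6H25.PIT.Alg3

/-!
# The test of dependence is correct
-/

set_option autoImplicit false

namespace Pool.Agent.J6H25.PIT

open Function (update)

/-- the values are known and different -/
def neq (x y : Option Q) : Bool :=
  x.elim false fun a => y.elim false fun b => decide (a.1 * b.2 ≠ b.1 * a.2)

/-- the number of values of the variables which are tried -/
def Dg (G : Ex) : ℕ := (G.vlist ++ G.vlist).length + 2

/-- the subexpressions of the parts -/
def csl (Z : List ℕ) (s t : Ex) : List Ex := (partsl Z s ++ partsl Z t).flatMap Ex.subs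

/-- the base point -/
def bpt (r : ℕ) (Z : List ℕ) (s t G : Ex) (y : ℕ) : Asg :=
  asgn r (Dg G) (y :: Z) (csl Z s t) ((csl Z s t).length + 1)
    (G.vlist.filter fun i => !decide (i ∈ y :: Z)) []

/-- the test of dependence for a given set of exceptional variables -/
def dz (r r' : ℕ) (Z : List ℕ) (s t G : Ex) (y : ℕ) : Bool :=
  (pts r' G.vlist (Dg G)).any fun g => (List.range (Dg G)).any fun v =>
    (List.range (Dg G)).any fun v' =>
      neq (st ((y, v) :: (g ++ (bpt r Z s t G y ++ (y :: Z).map fun h => (h, 0)))) G)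
        (st ((y, v') :: (g ++ (bpt r Z s t G y ++ (y :: Z).map fun h => (h, 0)))) G)

/-- the test of dependence -/
def depb (k r' : ℕ) (s t G : Ex) (y : ℕ) : Bool :=
  (pts (2 * k) G.vlist 1).any fun z => dz (2 * k + 1) r' (z.map Prod.fst) s t G y

theorem look_isSome_iff (ρ : Asg) (i : ℕ) : (look ρ i).isSome ↔ i ∈ ρ.map Prod.fst := by
  induction ρ with
  | nil => simp [look_nil]
  | cons p ρ ih =>
    rw [look_cons, List.map_cons, List.mem_cons, ← ih]
    by_cases h : p.1 = i
    · simp [h]
    · have h' : i ≠ p.1 := fun h1 => h h1.symm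
      simp [h, h']

theorem st_total {ρ : Asg} {E : Ex} (h : ∀ i, E.occ i ≠ 0 → (look ρ i).isSome) :
    ∃ a, st ρ E = some a ∧ a.2 ≠ 0 ∧ ∀ x, Ext ρ x → E.eval x = val a := by
  have hro : RO' ρ E := fun i hi => by
    by_contra hc
    have := h i (by omega)
    rw [hi] at this
    simp at this
  obtain ⟨h1, h2⟩ := st_spec ρ E hro
  cases hst : st ρ E with
  | none =>
    obtain ⟨i, hi, hi', _⟩ := h2 hst
    have := h i hi'
    rw [hi] at this
    simp at this
  | some a => exact ⟨a, rfl, h1 a hst⟩

theorem neq_iff {a b : Q} (ha : a.2 ≠ 0) (hb : b.2 ≠ 0) :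
    neq (some a) (some b) = true ↔ val a ≠ val b := by
  have ha' : (a.2 : ℚ) ≠ 0 := by exact_mod_cast ha
  have hb' : (b.2 : ℚ) ≠ 0 := by exact_mod_cast hb
  simp only [neq, Option.elim_some, decide_eq_true_eq, val, ne_eq]
  rw [not_iff_not, div_eq_div_iff ha' hb']
  constructor
  · intro h; exact_mod_cast h
  · intro h; exact_mod_cast h

theorem bpt_dom {r : ℕ} {Z : List ℕ} {s t G : Ex} {y : ℕ} (i : ℕ) :
    (look (bpt r Z s t G y) i).isSome ↔ (G.occ i ≠ 0 ∧ i ∉ y :: Z) := by
  -- the domain does not depend on the hypotheses about the values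
  have key : ∀ (D : ℕ) (H : List ℕ) (Cs : List Ex) (N : ℕ) (L : List ℕ) (ρ : Asg),
      (look (asgn r D H Cs N L ρ) i).isSome ↔ (i ∈ L ∨ (look ρ i).isSome) := by
    intro D H Cs N L
    induction L with
    | nil => intro ρ; simp [asgn]
    | cons x L ih =>
      intro ρ
      have hstep : asgn r D H Cs N (x :: L) ρ = asgn r D H Cs N L
        (if (look ρ x).isSome then ρ else (x, pick r D H Cs N ρ x) :: ρ) := rfl
      rw [hstep, ih, List.mem_cons]
      by_cases hx : (look ρ x).isSome = true
      · rw [if_pos hx]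
        constructor
        · rintro (h | h)
          · exact Or.inl (Or.inr h)
          · exact Or.inr h
        · rintro ((rfl | h) | h)
          · exact Or.inr hx
          · exact Or.inl h
          · exact Or.inr h
      · rw [if_neg hx, look_cons]
        by_cases h : x = i
        · subst h; simp
        · have h' : i ≠ x := fun h3 => h h3.symm
          simp [h, h']
  unfold bpt
  rw [key]
  simp only [List.mem_filter, Ex.mem_vlist, look_nil, Option.isSome_none, Bool.false_eq_true,
    or_false, Bool.not_eq_true', decide_eq_false_iff_not]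

theorem env_total {r : ℕ} {Z : List ℕ} {s t G : Ex} {y : ℕ} (g : Asg) (v : ℕ) (i : ℕ)
    (hi : G.occ i ≠ 0) :
    (look ((y, v) :: (g ++ (bpt r Z s t G y ++ (y :: Z).map fun h => (h, 0)))) i).isSome := by
  rw [look_cons]
  split_ifs with h
  · rfl
  · rw [look_append, look_append, look_map_zero]
    by_cases h1 : i ∈ y :: Z
    · rw [if_pos h1]
      cases look g i <;> cases look (bpt r Z s t G y) i <;> rfl
    · have h2 := (bpt_dom (r := r) (Z := Z) (s := s) (t := t) (G := G) (y := y) i).2 ⟨hi, h1⟩
      obtain ⟨w, hw⟩ := Option.isSome_iff_exists.1 h2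
      rw [hw]
      cases look g i <;> rfl

/-- **Soundness.** -/
theorem depb_sound {k r' : ℕ} {s t G : Ex} {y : ℕ} (h : depb k r' s t G y = true) : Dep y G := by
  simp only [depb, dz, List.any_eq_true] at h
  obtain ⟨z, -, g, -, v, -, v', -, h⟩ := h
  set a := g ++ (bpt (2 * k + 1) (z.map Prod.fst) s t G y ++
    (y :: z.map Prod.fst).map fun h => (h, 0)) with ha
  obtain ⟨p, hp, hp1, hp2⟩ := st_total (ρ := (y, v) :: a) (E := G) fun i hi => env_total g v i hi
  obtain ⟨q, hq, hq1, hq2⟩ := st_total (ρ := (y, v') :: a) (E := G) fun i hi => env_total g v' i hi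
  rw [hp, hq, neq_iff hp1 hq1] at h
  set x : ℕ → ℚ := fun j => ((look a j).getD 0 : ℕ) with hx
  have hext : ∀ w : ℕ, Ext ((y, w) :: a) (update x y (w : ℚ)) := by
    intro w i b hi
    rw [look_cons] at hi
    by_cases h1 : y = i
    · subst h1
      simp only [if_true, Option.some.injEq] at hi
      simp [hi]
    · simp only [h1, if_false] at hi
      rw [Function.update_of_ne fun h' => h1 h'.symm, hx]
      simp [hi]
  refine Dep.of_ne (x := x) (u := (v : ℚ)) (v := (v' : ℚ)) ?_
  rw [hp2 _ (hext v), hq2 _ (hext v')]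
  exact h

theorem occ_le_of_mem_subs {E C : Ex} (h : C ∈ E.subs) (i : ℕ) : C.occ i ≤ E.occ i := by
  induction E with
  | var j => simp only [Ex.subs, List.mem_singleton] at h; rw [h]
  | num q => simp only [Ex.subs, List.mem_singleton] at h; rw [h]
  | op o s t ihs iht =>
    simp only [Ex.subs, List.mem_cons, List.mem_append] at h
    rcases h with h | h | h
    · rw [h]
    · have := ihs h; simp only [Ex.occ]; omega
    · have := iht h; simp only [Ex.occ]; omega

theorem mem_subs_of_mem_partsl {Z : List ℕ} {F P : Ex} (h : P ∈ partsl Z F) : P ∈ F.subs := by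
  induction F with
  | var j => simpa [partsl, partsp, Ex.fold, Ex.subs] using h
  | num q => simpa [partsl, partsp, Ex.fold, Ex.subs] using h
  | op o s t ihs iht =>
    rw [partsl_op] at h
    split_ifs at h
    · rw [List.mem_singleton] at h
      subst h
      exact Ex.mem_subs_self _
    · simp only [Ex.subs, List.mem_cons, List.mem_append]
      rcases List.mem_append.1 h with h | h
      · exact Or.inr (Or.inl (ihs h))
      · exact Or.inr (Or.inr (iht h))

theorem length_vlist_sbs {σ : ℕ → Ex} (hσ : ∀ i, (σ i).vlist.length ≤ 1) (E : Ex) :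
    (E.sbs σ).vlist.length ≤ E.vlist.length := by
  induction E with
  | var i => exact hσ i
  | num q => exact le_rfl
  | op o s t ihs iht =>
    simp only [Ex.sbs, Ex.vlist, List.length_append]
    omega

/-- The bound for the number of variables which are varied. -/
def RR (M k : ℕ) : ℕ := 2 * k + (NN (2 * (2 * M)) + (NN (2 * M) + NN M))

/-- a small set of variables with dependence -/
theorem exists_small_set {M : ℕ} (hM : 1 ≤ M) {Z : List ℕ} {ρ : Asg} {o : Op} {s t : Ex} {y : ℕ}
    (hy : look ρ y = none) (hs : PH ρ M (sparts Z s)) (ht : PH ρ M (sparts Z t))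
    (hd : Dep y (Ex.op o s t)) :
    ∃ S : Finset ℕ, (∀ i ∈ S, (look ρ i).isSome) ∧
      S.card ≤ NN (2 * (2 * M)) + (NN (2 * M) + NN M) ∧ Dep y (res ρ S (Ex.op o s t)) := by
  -- sums
  have hsum : ∀ us : List (ℚ × Ex), us.length ≤ 2 * M →
      (∀ p ∈ us, ∃ q, (q ∈ sparts Z s ∨ q ∈ sparts Z t) ∧ p.2 = q.2) →
      (∀ x, (Ex.op o s t).eval x = sumU us x) → ∃ S : Finset ℕ, (∀ i ∈ S, (look ρ i).isSome) ∧
      S.card ≤ NN (2 * (2 * M)) + (NN (2 * M) + NN M) ∧ Dep y (res ρ S (Ex.op o s t)) := by
    intro us hlen hmem heq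
    have hPH : PH ρ (2 * M) us := by
      refine ⟨hlen, fun p hp i hi => ?_, fun p hp C hC => ?_⟩
      · obtain ⟨q, hq | hq, he⟩ := hmem p hp
        · rw [he]; exact hs.ro q hq i hi
        · rw [he]; exact ht.ro q hq i hi
      · obtain ⟨q, hq | hq, he⟩ := hmem p hp
        · rw [he] at hC; exact hs.nz q hq C hC
        · rw [he] at hC; exact ht.nz q hq C hC
    obtain ⟨S, h1, h2, h3⟩ := exists_set_dep (by omega) hPH heq hy hd
    exact ⟨S, h1, by omega, h3⟩
  cases o with
  | add =>
    refine hsum (sparts Z s ++ sparts Z t) ?_ ?_ ?_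
    · rw [List.length_append]
      have := hs.len
      have := ht.len
      omega
    · intro p hp
      exact ⟨p, List.mem_append.1 hp, rfl⟩
    · intro x
      rw [sumU_append, sumU_sparts, sumU_sparts]
      rfl
  | sub =>
    refine hsum (sparts Z s ++ (sparts Z t).map fun p => (-p.1, p.2)) ?_ ?_ ?_
    · rw [List.length_append, List.length_map]
      have := hs.len
      have := ht.len
      omega
    · intro p hp
      rcases List.mem_append.1 hp with hp | hp
      · exact ⟨p, Or.inl hp, rfl⟩
      · obtain ⟨q, hq, rfl⟩ := List.mem_map.1 hp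
        exact ⟨q, Or.inr hq, rfl⟩
    · intro x
      rw [sumU_append, sumU_neg, sumU_sparts, sumU_sparts]
      simp [Ex.eval, Op.ap, sub_eq_add_neg]
  | mul =>
    have hsz : ¬ IsZ s := by
      intro h
      obtain ⟨x, u, hne⟩ := hd
      apply hne
      simp [Ex.eval, Op.ap, h _]
    have htz : ¬ IsZ t := by
      intro h
      obtain ⟨x, u, hne⟩ := hd
      apply hne
      simp [Ex.eval, Op.ap, h _]
    have hor : Dep y s ∨ Dep y t := by
      obtain ⟨x, u, hne⟩ := hd
      by_contra hc
      rw [not_or] at hc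
      have h1 : s.eval (update x y u) = s.eval x := by
        by_contra h; exact hc.1 ⟨x, u, h⟩
      have h2 : t.eval (update x y u) = t.eval x := by
        by_contra h; exact hc.2 ⟨x, u, h⟩
      apply hne
      simp [Ex.eval, Op.ap, h1, h2]
    rcases hor with hd' | hd'
    · obtain ⟨S₁, a1, a2, a3⟩ := exists_set_dep hM hs (fun x => (sumU_sparts Z s x).symm) hy hd'
      obtain ⟨S₂, b1, b2, b3⟩ := exists_set_nz hM ht (fun x => (sumU_sparts Z t x).symm) htz
      refine ⟨S₁ ∪ S₂, fun i hi => (Finset.mem_union.1 hi).elim (a1 i) (b1 i), ?_, ?_⟩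
      · have := Finset.card_union_le S₁ S₂
        omega
      · exact ((a3.res_mono Finset.subset_union_left hy).mul
          (isZ_res_mono Finset.subset_union_right b3)).1
    · obtain ⟨S₁, a1, a2, a3⟩ := exists_set_dep hM ht (fun x => (sumU_sparts Z t x).symm) hy hd'
      obtain ⟨S₂, b1, b2, b3⟩ := exists_set_nz hM hs (fun x => (sumU_sparts Z s x).symm) hsz
      refine ⟨S₁ ∪ S₂, fun i hi => (Finset.mem_union.1 hi).elim (a1 i) (b1 i), ?_, ?_⟩
      · have := Finset.card_union_le S₁ S₂
        omega
      · exact ((a3.res_mono Finset.subset_union_left hy).mul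
          (isZ_res_mono Finset.subset_union_right b3)).2

/-- **Completeness.** -/
theorem depb_complete {M k : ℕ} (hM : 1 ≤ M) {o : Op} {s t : Ex} {W : Finset ℕ}
    (hW : W.card ≤ 2 * k) {m n : ℕ} (hm : m ≤ M) (hn : n ≤ M) (hs : Parts W m s)
    (ht : Parts W n t) {y : ℕ} (hd : Dep y (Ex.op o s t)) :
    depb k (RR M k) s t (Ex.op o s t) y = true := by
  set G := Ex.op o s t with hG
  -- the exceptional variables
  obtain ⟨z, hz, hz'⟩ := exists_pts (W := G.vlist) (D := 1) (f := fun _ => 0)
    (fun _ => Nat.zero_lt_one) (W.filter fun i => G.occ i ≠ 0)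
    (r := 2 * k) ((Finset.card_filter_le _ _).trans hW) (fun i hi => by
      rw [Ex.mem_vlist]; exact (Finset.mem_filter.1 hi).2)
  set Z := z.map Prod.fst with hZ
  have hZmem : ∀ i, i ∈ Z ↔ i ∈ W ∧ G.occ i ≠ 0 := by
    intro i
    rw [hZ, ← look_isSome_iff, hz' i]
    by_cases h : i ∈ W.filter fun i => G.occ i ≠ 0
    · rw [if_pos h]
      exact ⟨fun _ => Finset.mem_filter.1 h, fun _ => rfl⟩
    · rw [if_neg h]
      exact ⟨fun h' => by simp at h', fun h' => absurd (Finset.mem_filter.2 h') h⟩
  have hsG : ∀ i, s.occ i ≤ G.occ i := fun i => by simp only [hG, Ex.occ]; omega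
  have htG : ∀ i, t.occ i ≤ G.occ i := fun i => by simp only [hG, Ex.occ]; omega
  obtain ⟨s1, s2⟩ := partsl_spec hs (Z := Z) fun i hi h0 => (hZmem i).2 ⟨hi, by
    have := hsG i; omega⟩
  obtain ⟨t1, t2⟩ := partsl_spec ht (Z := Z) fun i hi h0 => (hZmem i).2 ⟨hi, by
    have := htG i; omega⟩
  have hcard : (y :: Z).toFinset.card ≤ 2 * k + 1 := by
    rw [List.toFinset_cons]
    refine (Finset.card_insert_le _ _).trans ?_
    have : Z.toFinset = W.filter fun i => G.occ i ≠ 0 := by
      ext i
      rw [List.mem_toFinset, hZmem, Finset.mem_filter]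
    rw [this]
    have := (Finset.card_filter_le W fun i => G.occ i ≠ 0).trans hW
    omega
  have hGH : GH (2 * k + 1) (Dg G) (y :: Z) (csl Z s t) ((csl Z s t).length + 1) := by
    refine ⟨hcard, fun C hC i => ?_, fun C hC i hi => ?_, Nat.lt_succ_self _⟩
    · obtain ⟨P, hP, hC⟩ := List.mem_flatMap.1 hC
      have h1 := occ_le_of_mem_subs hC i
      have h2 : P.occ i ≤ G.occ i := by
        rcases List.mem_append.1 hP with hP | hP
        · exact (occ_le_of_mem_subs (mem_subs_of_mem_partsl hP) i).trans (hsG i)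
        · exact (occ_le_of_mem_subs (mem_subs_of_mem_partsl hP) i).trans (htG i)
      have h3 := G.occ_le_length i
      simp only [Dg, List.length_append]
      omega
    · obtain ⟨P, hP, hC⟩ := List.mem_flatMap.1 hC
      have h1 := occ_le_of_mem_subs hC i
      have hiZ : i ∉ Z := fun h => hi (List.mem_cons_of_mem _ h)
      rcases List.mem_append.1 hP with hP | hP
      · exact h1.trans (s2 P hP i hiZ)
      · exact h1.trans (t2 P hP i hiZ)
  set ρ := bpt (2 * k + 1) Z s t G y with hρ
  have hdom : ∀ i, (look ρ i).isSome ↔ (G.occ i ≠ 0 ∧ i ∉ y :: Z) := bpt_dom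
  have hval : ∀ C ∈ csl Z s t, ¬ Zr [] C → ¬ Zr ρ C :=
    (asgn_spec hGH (G.vlist.filter fun i => !decide (i ∈ y :: Z)) (by
      intro i hi
      rw [List.mem_filter] at hi
      simpa using hi.2) [] (by simp [look_nil])).2
  have hyρ : look ρ y = none := by
    rw [← Option.not_isSome_iff_eq_none, hdom]
    simp
  have hPHs : PH ρ M (sparts Z s) := by
    have hmem : ∀ p ∈ sparts Z s, p.2 ∈ partsl Z s := fun p hp => by
      rw [← sparts_snd]; exact List.mem_map.2 ⟨p, hp, rfl⟩
    refine ⟨?_, fun p hp i hi => ?_, fun p hp C hC h => ?_⟩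
    · have : (sparts Z s).length = (partsl Z s).length := by rw [← sparts_snd, List.length_map]
      omega
    · exact s2 _ (hmem p hp) i fun h => ((hdom i).1 hi).2 (List.mem_cons_of_mem _ h)
    · refine hval C (List.mem_flatMap.2 ⟨p.2, List.mem_append.2 (Or.inl (hmem p hp)), hC⟩) ?_
      rwa [zr_nil_iff]
  have hPHt : PH ρ M (sparts Z t) := by
    have hmem : ∀ p ∈ sparts Z t, p.2 ∈ partsl Z t := fun p hp => by
      rw [← sparts_snd]; exact List.mem_map.2 ⟨p, hp, rfl⟩
    refine ⟨?_, fun p hp i hi => ?_, fun p hp C hC h => ?_⟩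
    · have : (sparts Z t).length = (partsl Z t).length := by rw [← sparts_snd, List.length_map]
      omega
    · exact t2 _ (hmem p hp) i fun h => ((hdom i).1 hi).2 (List.mem_cons_of_mem _ h)
    · refine hval C (List.mem_flatMap.2 ⟨p.2, List.mem_append.2 (Or.inr (hmem p hp)), hC⟩) ?_
      rwa [zr_nil_iff]
  obtain ⟨S, hS, hSc, hSd⟩ := exists_small_set hM hyρ hPHs hPHt hd
  -- grid points
  obtain ⟨w, hw⟩ := exists_fresh (y :: G.vlist)
  rw [List.mem_cons, not_or, Ex.mem_vlist, not_not] at hw
  have hw0 : (res ρ S G).occ w = 0 := by have := occ_res_le ρ S G w; omega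
  have hnz := hSd.dif hw0 hw.1
  unfold IsZ at hnz
  push Not at hnz
  obtain ⟨x, hx⟩ := hnz
  have hD : ∀ i, ((res ρ S G).dif y w).occ i < Dg G := by
    intro i
    have h1 := Ex.occ_le_length ((res ρ S G).dif y w) i
    have h2 : ((res ρ S G).dif y w).vlist.length ≤ G.vlist.length + G.vlist.length := by
      simp only [Ex.dif, Ex.vlist, List.length_append]
      have e1 : (res ρ S G).vlist.length ≤ G.vlist.length := length_vlist_sbs (fun i => by
        split_ifs
        · simp [Ex.vlist]
        · cases look ρ i <;> simp [Ex.vlist]) G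
      have e2 : ((res ρ S G).sbs fun j => if j = y then Ex.var w else Ex.var j).vlist.length ≤
          (res ρ S G).vlist.length := length_vlist_sbs (fun i => by
        split_ifs <;> simp [Ex.vlist]) _
      omega
    simp only [Dg, List.length_append]
    omega
  obtain ⟨f, hf, hf'⟩ := exists_grid hD ((w :: y :: G.vlist).toFinset) hx
  rw [Ex.eval_dif, sub_ne_zero] at hf'
  set X : ℕ → ℚ := fun i => if i ∈ (w :: y :: G.vlist).toFinset then (f i : ℚ) else x i with hX
  have hXw : X w = f w := by simp [hX]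
  have hXmem : ∀ i, G.occ i ≠ 0 → X i = f i := fun i hi => by
    have : i ∈ (w :: y :: G.vlist).toFinset := by
      rw [List.mem_toFinset, List.mem_cons, List.mem_cons, Ex.mem_vlist]
      exact Or.inr (Or.inr hi)
    simp only [hX, this, if_true]
  have hXy : X y = f y := by simp [hX]
  obtain ⟨g, hg, hg'⟩ := exists_pts (W := G.vlist) hf (S ∪ Z.toFinset) (r := RR M k) (by
      refine (Finset.card_union_le _ _).trans ?_
      have : Z.toFinset.card ≤ 2 * k := by
        have : Z.toFinset = W.filter fun i => G.occ i ≠ 0 := by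
          ext i
          rw [List.mem_toFinset, hZmem, Finset.mem_filter]
        rw [this]
        exact (Finset.card_filter_le _ _).trans hW
      unfold RR
      omega) (by
      intro i hi
      rw [Ex.mem_vlist]
      rcases Finset.mem_union.1 hi with hi | hi
      · exact ((hdom i).1 (hS i hi)).1
      · exact ((hZmem i).1 (List.mem_toFinset.1 hi)).2)
  simp only [depb, dz, List.any_eq_true, List.mem_range]
  refine ⟨z, hz, g, hg, f w, hf w, f y, hf y, ?_⟩
  rw [← hZ, ← hρ]
  set a := g ++ (ρ ++ (y :: Z).map fun h => (h, 0)) with ha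
  have hvalue : ∀ c : ℕ, ∃ p : Q, st ((y, c) :: a) G = some p ∧ p.2 ≠ 0 ∧
      val p = (res ρ S G).eval (update X y (c : ℚ)) := by
    intro c
    obtain ⟨p, hp, hp1, hp2⟩ := st_total (ρ := (y, c) :: a) (E := G)
      fun i hi => env_total g c i hi
    refine ⟨p, hp, hp1, ?_⟩
    have hext : Ext ((y, c) :: a) fun j => ((look ((y, c) :: a) j).getD 0 : ℕ) :=
      fun j v hj => by simp [hj]
    rw [← hp2 _ hext, eval_res]
    refine Ex.eval_congr fun i hi => ?_
    rw [look_cons]
    by_cases hiy : y = i
    · subst hiy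
      have hyS : y ∉ S := fun h => by have := hS y h; rw [hyρ] at this; simp at this
      simp [hyS, hyρ]
    · have hiy' : i ≠ y := fun h => hiy h.symm
      simp only [hiy, if_false, Function.update_of_ne hiy']
      rw [ha, look_append, look_append, look_map_zero, hg' i]
      by_cases hiS : i ∈ S
      · simp [hiS, hXmem i hi]
      · by_cases hiZ : i ∈ Z
        · have h1 : look ρ i = none := by
            rw [← Option.not_isSome_iff_eq_none, hdom]
            exact fun h => h.2 (List.mem_cons_of_mem _ hiZ)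
          simp [hiS, hiZ, h1, hXmem i hi]
        · have h1 : (look ρ i).isSome := (hdom i).2 ⟨hi, by
            rw [List.mem_cons, not_or]; exact ⟨hiy', hiZ⟩⟩
          obtain ⟨v, hv⟩ := Option.isSome_iff_exists.1 h1
          simp [hiS, hiZ, hv]
  obtain ⟨p, hp, hp1, hp2⟩ := hvalue (f w)
  obtain ⟨q, hq, hq1, hq2⟩ := hvalue (f y)
  rw [hp, hq, neq_iff hp1 hq1, hp2, hq2, ← hXw, ← hXy, Function.update_eq_self]
  exact hf'

end Pool.Agent.J6H25.PIT
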