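import Pool.Agent.J6H25.PIT.Alg4

/-!
# Simplification of expressions, and the algorithm
-/

set_option autoImplicit false

namespace Pool.Agent.J6H25.PIT

open Function (update)

/-- the number of occurrences in a list -/
def cnt (l : List ℕ) (i : ℕ) : ℕ := (l.filter fun j => decide (j = i)).length

theorem cnt_eq (l : List ℕ) (i : ℕ) : cnt l i = l.count i := length_filter_eq l i

/-- the variables whose occurrences (in the list `l`) are all their occurrences are replaced by
zero -/
def zpr (l c : List ℕ) (G : Ex) : Ex :=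
  G.sbs fun i => if cnt l i = cnt c i then Ex.num 0 else Ex.var i

/-- simplification of an expression with simplified operands -/
def sg (k r' : ℕ) (l c : List ℕ) (o : Op) (s t : Ex) : Ex :=
  ((((Ex.op o s t).vlist.filter fun i => decide (cnt l i = cnt c i)).filter fun y =>
    depb k r' s t (Ex.op o s t) y).head?).elim (zpr l c (Ex.op o s t)) fun y => Ex.var y

/-- one step of the simplification -/
def simpo (k r' : ℕ) (c : List ℕ) (o : Op) (p q : List ℕ × Ex) : List ℕ × Ex :=
  (p.1 ++ q.1, sg k r' (p.1 ++ q.1) c o p.2 q.2)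

/-- the simplification, together with the list of the variables of the expression -/
def smp (k r' : ℕ) (c : List ℕ) (E : Ex) : List ℕ × Ex :=
  E.fold (fun i => ([i], Ex.var i)) (fun q => ([], Ex.num q)) (simpo k r' c)

theorem smp_fst (k r' : ℕ) (c : List ℕ) (E : Ex) : (smp k r' c E).1 = E.vlist := by
  induction E with
  | var i => rfl
  | num q => rfl
  | op o s t ihs iht =>
    change (smp k r' c s).1 ++ (smp k r' c t).1 = _
    rw [ihs, iht]
    rfl

/-- the simplification -/
def smx (k r' : ℕ) (c : List ℕ) (E : Ex) : Ex := (smp k r' c E).2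

theorem smx_op (k r' : ℕ) (c : List ℕ) (o : Op) (s t : Ex) : smx k r' c (Ex.op o s t) =
    sg k r' (Ex.op o s t).vlist c o (smx k r' c s) (smx k r' c t) := by
  change sg k r' ((smp k r' c s).1 ++ (smp k r' c t).1) c o (smp k r' c s).2 (smp k r' c t).2 = _
  rw [smp_fst, smp_fst]
  rfl

/-- The two cases of the simplification. -/
theorem smx_cases (k r' : ℕ) (c : List ℕ) (o : Op) (s t : Ex) :
    (∃ y, (Ex.op o s t).occ y = c.count y ∧
        (Ex.op o (smx k r' c s) (smx k r' c t)).occ y ≠ 0 ∧
        depb k r' (smx k r' c s) (smx k r' c t) (Ex.op o (smx k r' c s) (smx k r' c t)) y = true ∧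
        smx k r' c (Ex.op o s t) = Ex.var y) ∨
    ((∀ y, (Ex.op o s t).occ y = c.count y →
        (Ex.op o (smx k r' c s) (smx k r' c t)).occ y ≠ 0 →
        depb k r' (smx k r' c s) (smx k r' c t) (Ex.op o (smx k r' c s) (smx k r' c t)) y = false) ∧
      smx k r' c (Ex.op o s t) = (Ex.op o (smx k r' c s) (smx k r' c t)).sbs
        fun i => if (Ex.op o s t).occ i = c.count i then Ex.num 0 else Ex.var i) := by
  rw [smx_op]
  unfold sg
  cases h : (((Ex.op o (smx k r' c s) (smx k r' c t)).vlist.filter fun i =>
      decide (cnt (Ex.op o s t).vlist i = cnt c i)).filter fun y =>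
      depb k r' (smx k r' c s) (smx k r' c t)
        (Ex.op o (smx k r' c s) (smx k r' c t)) y).head? with
  | some y =>
    left
    have := List.mem_of_mem_head? h
    rw [List.mem_filter, List.mem_filter, Ex.mem_vlist, decide_eq_true_eq, cnt_eq, cnt_eq,
      Ex.count_vlist] at this
    exact ⟨y, this.1.2, this.1.1, this.2, rfl⟩
  | none =>
    right
    rw [List.head?_eq_none_iff, List.filter_eq_nil_iff] at h
    refine ⟨fun y hy h0 => ?_, ?_⟩
    · have := h y (by
        rw [List.mem_filter, Ex.mem_vlist, decide_eq_true_eq, cnt_eq, cnt_eq, Ex.count_vlist]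
        exact ⟨h0, hy⟩)
      simpa using this
    · simp only [Option.elim_none, zpr, cnt_eq, Ex.count_vlist]

theorem occ_sbs_zero (p : ℕ → Prop) [DecidablePred p] (E : Ex) (i : ℕ) :
    (E.sbs fun i => if p i then Ex.num 0 else Ex.var i).occ i = if p i then 0 else E.occ i := by
  induction E with
  | var j =>
    simp only [Ex.sbs]
    by_cases hj : p j
    · by_cases hji : j = i
      · subst hji; simp [hj, Ex.occ]
      · simp [hj, Ex.occ, hji]
    · by_cases hji : j = i
      · subst hji; simp [hj, Ex.occ]
      · simp [hj, Ex.occ, hji]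
  | num q => simp [Ex.sbs, Ex.occ]
  | op o s t ihs iht =>
    simp only [Ex.sbs, Ex.occ, ihs, iht]
    split_ifs <;> rfl

theorem occ_smx_le (k r' : ℕ) (c : List ℕ) (E : Ex) (i : ℕ) :
    (smx k r' c E).occ i ≤ E.occ i := by
  induction E generalizing i with
  | var j => exact le_rfl
  | num q => exact le_rfl
  | op o s t ihs iht =>
    rcases smx_cases k r' c o s t with ⟨y, h1, h2, -, h3⟩ | ⟨-, h3⟩
    · rw [h3]
      simp only [Ex.occ] at h2 ⊢
      have := ihs i
      have := iht i
      split_ifs with h
      · subst h; omega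
      · exact Nat.zero_le _
    · rw [h3, occ_sbs_zero]
      split_ifs
      · exact Nat.zero_le _
      · simp only [Ex.occ]
        have := ihs i
        have := iht i
        omega

theorem Parts.sbs_zero {W : Set ℕ} {m : ℕ} {F : Ex} (h : Parts W m F) (p : ℕ → Prop)
    [DecidablePred p] : Parts W m (F.sbs fun i => if p i then Ex.num 0 else Ex.var i) := by
  induction h with
  | one h =>
    refine Parts.one fun i hi => ?_
    rw [occ_sbs_zero]
    split_ifs
    · exact Nat.zero_le _
    · exact h i hi
  | add _ _ ihs iht => exact ihs.add iht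
  | sub _ _ ihs iht => exact ihs.sub iht

theorem Parts.mono {W W' : Set ℕ} {m : ℕ} {F : Ex} (h : Parts W m F)
    (hW : ∀ i ∈ W, i ∈ W' ∨ F.occ i = 0) : Parts W' m F := by
  induction h with
  | @one F h =>
    refine Parts.one fun i hi => ?_
    by_cases hiW : i ∈ W
    · rcases hW i hiW with h1 | h1
      · exact absurd h1 hi
      · omega
    · exact h i hiW
  | @add m n s t _ _ ihs iht =>
    exact (ihs fun i hi => (hW i hi).imp id fun h => by simp only [Ex.occ] at h; omega).add
      (iht fun i hi => (hW i hi).imp id fun h => by simp only [Ex.occ] at h; omega)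
  | @sub m n s t _ _ ihs iht =>
    exact (ihs fun i hi => (hW i hi).imp id fun h => by simp only [Ex.occ] at h; omega).sub
      (iht fun i hi => (hW i hi).imp id fun h => by simp only [Ex.occ] at h; omega)

theorem Parts.smx {W : Set ℕ} {m : ℕ} {F : Ex} (h : Parts W m F) (k r' : ℕ) (c : List ℕ) :
    ∃ m' ≤ m, Parts W m' (smx k r' c F) := by
  induction h with
  | @one F h => exact ⟨1, le_rfl, Parts.one fun i hi => (occ_smx_le k r' c F i).trans (h i hi)⟩
  | @add m n s t hs ht ihs iht =>
    have hm := hs.pos
    obtain ⟨m', hm', h1⟩ := ihs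
    obtain ⟨n', hn', h2⟩ := iht
    rcases smx_cases k r' c Op.add s t with ⟨y, -, -, -, h3⟩ | ⟨-, h3⟩
    · rw [h3]
      refine ⟨1, by omega, Parts.one fun i _ => ?_⟩
      simp only [Ex.occ]
      split_ifs <;> omega
    · rw [h3]
      exact ⟨m' + n', by omega, (h1.add h2).sbs_zero _⟩
  | @sub m n s t hs ht ihs iht =>
    have hm := hs.pos
    obtain ⟨m', hm', h1⟩ := ihs
    obtain ⟨n', hn', h2⟩ := iht
    rcases smx_cases k r' c Op.sub s t with ⟨y, -, -, -, h3⟩ | ⟨-, h3⟩
    · rw [h3]
      refine ⟨1, by omega, Parts.one fun i _ => ?_⟩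
      simp only [Ex.occ]
      split_ifs <;> omega
    · rw [h3]
      exact ⟨m' + n', by omega, (h1.sub h2).sbs_zero _⟩

/-- After the simplification the variables without occurrences outside do not matter. -/
theorem Parts.smx_top {Z : Set ℕ} {m : ℕ} {F : Ex} {c : List ℕ}
    (h : Parts (Z ∪ {i | F.occ i = c.count i}) m F) (k r' : ℕ) :
    ∃ m' ≤ m, Parts Z m' (PIT.smx k r' c F) := by
  have hm := h.pos
  have hone : ∀ F : Ex, (∀ i, F.occ i ≤ 1) → ∃ m' ≤ m, Parts Z m' F := fun F hF =>
    ⟨1, hm, Parts.one fun i _ => hF i⟩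
  cases F with
  | var j =>
    refine hone _ fun i => ?_
    change (Ex.var j).occ i ≤ 1
    simp only [Ex.occ]
    split_ifs <;> omega
  | num q => exact hone _ fun i => Nat.zero_le _
  | op o s t =>
    obtain ⟨m', hm', h'⟩ := h.smx k r' c
    rcases smx_cases k r' c o s t with ⟨y, -, -, -, h3⟩ | ⟨-, h3⟩
    · rw [h3]
      refine hone _ fun i => ?_
      simp only [Ex.occ]
      split_ifs <;> omega
    · refine ⟨m', hm', h'.mono fun i hi => ?_⟩
      rcases hi with hi | hi
      · exact Or.inl hi
      · right
        rw [h3, occ_sbs_zero]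
        exact if_pos hi

/-- Variables on which the expression does not depend can be replaced by zero. -/
theorem eval_of_not_dep {G : Ex} {T : Finset ℕ} (h : ∀ y ∈ T, ¬ Dep y G) (x : ℕ → ℚ) :
    G.eval (fun i => if i ∈ T then 0 else x i) = G.eval x := by
  induction T using Finset.induction_on with
  | empty => simp
  | insert y T hy ih =>
    rw [← ih fun z hz => h z (Finset.mem_insert_of_mem hz)]
    have h1 := h y (Finset.mem_insert_self _ _)
    unfold Dep at h1
    push Not at h1
    rw [← h1 (fun i => if i ∈ T then 0 else x i) 0]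
    congr 1
    funext i
    by_cases hi : i = y
    · subst hi; simp
    · simp [hi]

/-- **The condition.** For every subexpression `F` of `E` there is a set `Z` of at most `k`
variables such that `F` is obtained by additions and subtractions from at most `M` subexpressions
in each of which every variable occurs at most once, except for the variables of `Z` and the
variables all of whose occurrences in `E` are in `F`. -/
def Narrow (M k : ℕ) (E : Ex) : Prop :=
  ∀ F ∈ E.subs, ∃ Z : Finset ℕ, Z.card ≤ k ∧ ∃ m ≤ M, Parts (↑Z ∪ {i | F.occ i = E.occ i}) m F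

/-- **The simplification is correct.** -/
theorem smx_rel {M k : ℕ} (hM : 1 ≤ M) {E₀ : Ex} (hE : Narrow M k E₀) (E : Ex)
    (h : E ∈ E₀.subs) : Rel {i | E.occ i < E₀.occ i} E (smx k (RR M k) E₀.vlist E) := by
  induction E with
  | var i => exact Rel.refl _ _
  | num q => exact Rel.refl _ _
  | op o s t ihs iht =>
    have hs : s ∈ E₀.subs := Ex.subs_trans h (by simp [Ex.subs, Ex.mem_subs_self])
    have ht : t ∈ E₀.subs := Ex.subs_trans h (by simp [Ex.subs, Ex.mem_subs_self])
    have hle : ∀ i, s.occ i + t.occ i ≤ E₀.occ i := occ_le_of_mem_subs h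
    set S := smx k (RR M k) E₀.vlist s with hS
    set T := smx k (RR M k) E₀.vlist t with hT
    have h1 : Rel {i | (Ex.op o s t).occ i < E₀.occ i} (Ex.op o s t) (Ex.op o S t) :=
      ((ihs hs).op_left o (fun i hi => by
        simp only [Set.mem_ofPred_eq, Ex.occ] at hi ⊢; omega) (fun i hi => by
        have := hle i
        simp only [Set.mem_ofPred_eq]; omega)).1
    have h2 : Rel {i | (Ex.op o s t).occ i < E₀.occ i} (Ex.op o S t) (Ex.op o S T) :=
      ((iht ht).op_left o (fun i hi => by
        simp only [Set.mem_ofPred_eq, Ex.occ] at hi ⊢; omega) (fun i hi => by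
        have := hle i
        have := occ_smx_le k (RR M k) E₀.vlist s i
        rw [← hS] at this
        simp only [Set.mem_ofPred_eq]; omega)).2
    refine h1.trans (h2.trans ?_)
    rcases smx_cases k (RR M k) E₀.vlist o s t with ⟨y, g1, g2, g3, g4⟩ | ⟨g1, g2⟩
    · rw [g4]
      rw [Ex.count_vlist] at g1
      refine Or.inr ⟨⟨y, by simp only [Set.mem_ofPred_eq]; omega, depb_sound g3⟩, y,
        by simp only [Set.mem_ofPred_eq]; omega, fun _ => 0, 1, ?_⟩
      simp [Ex.eval]
    · left
      intro x
      rw [g2, Ex.eval_sbs]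
      obtain ⟨Zs, hZs, m, hm, hPs⟩ := hE s hs
      obtain ⟨Zt, hZt, n, hn, hPt⟩ := hE t ht
      simp only [← Ex.count_vlist E₀] at hPs hPt
      obtain ⟨m', hm', hPs'⟩ := hPs.smx_top k (RR M k)
      obtain ⟨n', hn', hPt'⟩ := hPt.smx_top k (RR M k)
      have hW : (Zs ∪ Zt).card ≤ 2 * k := (Finset.card_union_le _ _).trans (by omega)
      have hnd : ∀ y ∈ (Ex.op o S T).vlist.toFinset.filter
          (fun i => (Ex.op o s t).occ i = E₀.vlist.count i), ¬ Dep y (Ex.op o S T) := by
        intro y hy hd
        rw [Finset.mem_filter, List.mem_toFinset, Ex.mem_vlist] at hy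
        have := depb_complete hM hW (hm'.trans hm) (hn'.trans hn)
          (hPs'.mono (W' := ↑(Zs ∪ Zt)) fun i hi => Or.inl (by
            rw [Finset.coe_union]; exact Or.inl hi))
          (hPt'.mono (W' := ↑(Zs ∪ Zt)) fun i hi => Or.inl (by
            rw [Finset.coe_union]; exact Or.inr hi)) hd
        rw [g1 y hy.2 hy.1] at this
        simp at this
      rw [← eval_of_not_dep hnd x]
      refine Ex.eval_congr fun i hi => ?_
      by_cases h3 : (Ex.op o s t).occ i = E₀.vlist.count i
      · have : i ∈ (Ex.op o S T).vlist.toFinset.filter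
            (fun i => (Ex.op o s t).occ i = E₀.vlist.count i) := by
          rw [Finset.mem_filter, List.mem_toFinset, Ex.mem_vlist]
          exact ⟨hi, h3⟩
        rw [if_pos this, if_pos h3]
        rfl
      · have : i ∉ (Ex.op o S T).vlist.toFinset.filter
            (fun i => (Ex.op o s t).occ i = E₀.vlist.count i) := by
          rw [Finset.mem_filter]
          exact fun h => h3 h.2
        rw [if_neg this, if_neg h3]
        rfl

/-- the final test -/
def fint (k r' : ℕ) (E : Ex) : Bool := nz (st [] (smx k r' E.vlist E))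

/-- **The algorithm is correct.** -/
theorem fint_iff {M k : ℕ} (hM : 1 ≤ M) {E : Ex} (hE : Narrow M k E) :
    fint k (RR M k) E = true ↔ E.poly ≠ 0 := by
  have hrel := smx_rel hM hE E E.mem_subs_self
  have hocc : ∀ i, (smx k (RR M k) E.vlist E).occ i ≤ 1 := by
    intro i
    cases E with
    | var j =>
      change (Ex.var j).occ i ≤ 1
      simp only [Ex.occ]
      split_ifs <;> omega
    | num q => exact Nat.zero_le _
    | op o s t =>
      rcases smx_cases k (RR M k) (Ex.op o s t).vlist o s t with ⟨y, -, -, -, h3⟩ | ⟨-, h3⟩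
      · rw [h3]
        simp only [Ex.occ]
        split_ifs <;> omega
      · rw [h3, occ_sbs_zero, if_pos (Ex.count_vlist _ _).symm]
        exact Nat.zero_le _
  unfold fint
  rw [nz_iff fun i _ => hocc i, zr_nil_iff, poly_ne_zero_iff, not_iff_not]
  rcases hrel with h | ⟨⟨i, _, h1⟩, j, _, h2⟩
  · exact ⟨fun h0 x => by rw [h x, h0 x], fun h0 x => by rw [← h x, h0 x]⟩
  · exact ⟨fun h0 => absurd h0 h2.not_isZ, fun h0 => absurd h0 h1.not_isZ⟩

/-- the test of the condition -/
def narb (M k : ℕ) (E : Ex) : Bool :=
  E.subs.all fun F => (pts k F.vlist 1).any fun z =>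
    decide ((partsl (z.map Prod.fst ++
      F.vlist.filter fun i => decide (cnt F.vlist i = cnt E.vlist i)) F).length ≤ M) &&
    (partsl (z.map Prod.fst ++
      F.vlist.filter fun i => decide (cnt F.vlist i = cnt E.vlist i)) F).all fun P =>
      rob (z.map Prod.fst ++
        F.vlist.filter fun i => decide (cnt F.vlist i = cnt E.vlist i)) P

theorem length_pts {r : ℕ} {W : List ℕ} {D : ℕ} {g : Asg} (hg : g ∈ pts r W D) :
    g.length ≤ r := by
  induction r generalizing g with
  | zero =>
    simp only [pts, List.mem_singleton] at hg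
    subst hg
    simp
  | succ r ih =>
    simp only [pts, List.mem_append, List.mem_flatMap, List.mem_map, List.mem_range] at hg
    rcases hg with hg | ⟨w, hw, v', hv', g', hg', rfl⟩
    · exact (ih hg).trans (Nat.le_succ _)
    · simpa using ih hg'

theorem parts_of_partsl {Z : List ℕ} {F : Ex} (h : ∀ P ∈ partsl Z F, rob Z P = true) :
    Parts {i | i ∈ Z} (partsl Z F).length F := by
  induction F with
  | var i => exact Parts.one (rob_iff.1 (h _ (by simp [partsl, partsp, Ex.fold])))
  | num q => exact Parts.one fun i _ => Nat.zero_le _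
  | op o s t ihs iht =>
    rw [partsl_op] at h ⊢
    by_cases hc : rob Z (Ex.op o s t) = true ∨ o = Op.mul
    · rw [if_pos hc] at h ⊢
      exact Parts.one (rob_iff.1 (h _ (List.mem_singleton_self _)))
    · rw [if_neg hc] at h ⊢
      rw [List.length_append]
      have h1 := ihs fun P hP => h P (List.mem_append.2 (Or.inl hP))
      have h2 := iht fun P hP => h P (List.mem_append.2 (Or.inr hP))
      cases o with
      | add => exact h1.add h2
      | sub => exact h1.sub h2
      | mul => exact absurd (Or.inr rfl) hc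

theorem narb_iff {M k : ℕ} {E : Ex} : narb M k E = true ↔ Narrow M k E := by
  unfold narb Narrow
  rw [List.all_eq_true]
  refine forall₂_congr fun F hF => ?_
  rw [List.any_eq_true]
  constructor
  · rintro ⟨z, hz, h⟩
    rw [Bool.and_eq_true, decide_eq_true_eq, List.all_eq_true] at h
    have hp := parts_of_partsl h.2
    refine ⟨(z.map Prod.fst).toFinset, ?_, _, h.1, hp.mono fun i hi => Or.inl ?_⟩
    · refine (List.toFinset_card_le _).trans ?_
      rw [List.length_map]
      exact length_pts hz
    · simp only [Set.mem_ofPred_eq, List.mem_append, List.mem_filter, decide_eq_true_eq,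
        cnt_eq, Ex.count_vlist] at hi
      rcases hi with hi | hi
      · exact Or.inl (by simpa using hi)
      · exact Or.inr hi.2
  · rintro ⟨Z, hZ, m, hm, hP⟩
    obtain ⟨z, hz, hz'⟩ := exists_pts (W := F.vlist) (D := 1) (f := fun _ => 0)
      (fun _ => Nat.zero_lt_one) (Z.filter fun i => F.occ i ≠ 0)
      (r := k) ((Finset.card_filter_le _ _).trans hZ) (fun i hi => by
        rw [Ex.mem_vlist]; exact (Finset.mem_filter.1 hi).2)
    have hmem : ∀ i, i ∈ z.map Prod.fst ↔ i ∈ Z ∧ F.occ i ≠ 0 := by
      intro i
      rw [← look_isSome_iff, hz' i]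
      by_cases h : i ∈ Z.filter fun i => F.occ i ≠ 0
      · rw [if_pos h]
        exact ⟨fun _ => Finset.mem_filter.1 h, fun _ => rfl⟩
      · rw [if_neg h]
        exact ⟨fun h' => by simp at h', fun h' => absurd (Finset.mem_filter.2 h') h⟩
    obtain ⟨h1, h2⟩ := partsl_spec hP (Z := z.map Prod.fst ++
      F.vlist.filter fun i => decide (cnt F.vlist i = cnt E.vlist i)) (by
        intro i hi h0
        rw [List.mem_append]
        rcases hi with hi | hi
        · exact Or.inl ((hmem i).2 ⟨hi, h0⟩)
        · right
          rw [List.mem_filter, Ex.mem_vlist, decide_eq_true_eq, cnt_eq, cnt_eq, Ex.count_vlist,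
            Ex.count_vlist]
          exact ⟨h0, hi⟩)
    refine ⟨z, hz, ?_⟩
    rw [Bool.and_eq_true, decide_eq_true_eq, List.all_eq_true]
    exact ⟨h1.trans hm, fun P hP => rob_iff.2 (h2 P hP)⟩

end Pool.Agent.J6H25.PIT
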