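import Pool.Agent.J6H25.PIT.Alg5

/-!
# The generator for the black box algorithm

The points `gen n r z`, `z` the seed: sums of `r` multiples of vectors which are multiples of unit
vectors for suitable seeds.
-/

set_option autoImplicit false

namespace Pool.Agent.J6H25.PIT

open Function (update)

/-- the `i`-th coordinate of the curve through multiples of the `n` unit vectors: the product of the
`b - l` for all `l < n` different from `i` -/
def bas (n : ℕ) (b : ℚ) (i : ℕ) : ℚ := ∏ l ∈ (Finset.range n).erase i, (b - l)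

/-- the points of the generator -/
def gen (n r : ℕ) (z : ℕ → ℚ) (i : ℕ) : ℚ :=
  ∑ j ∈ Finset.range r, z (2 * j) * bas n (z (2 * j + 1)) i

theorem bas_self {n i : ℕ} : bas n (i : ℚ) i ≠ 0 := by
  unfold bas
  refine Finset.prod_ne_zero_iff.2 fun l hl h => ?_
  have h1 : (i : ℚ) = l := sub_eq_zero.1 h
  exact (Finset.ne_of_mem_erase hl) (Nat.cast_injective h1.symm)

theorem bas_ne {n i j : ℕ} (hi : i < n) (hij : j ≠ i) : bas n (i : ℚ) j = 0 := by
  unfold bas
  exact Finset.prod_eq_zero (Finset.mem_erase.2 ⟨hij.symm, Finset.mem_range.2 hi⟩) (sub_self _)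

theorem gen_congr {n r : ℕ} {z z' : ℕ → ℚ} (h : ∀ m < 2 * r, z m = z' m) :
    gen n r z = gen n r z' := by
  funext i
  unfold gen
  refine Finset.sum_congr rfl fun j hj => ?_
  have := Finset.mem_range.1 hj
  rw [h _ (by omega), h _ (by omega)]

theorem gen_pad {n r r' : ℕ} (h : r ≤ r') (z : ℕ → ℚ) : ∃ z', gen n r' z' = gen n r z := by
  refine ⟨fun m => if m < 2 * r then z m else 0, ?_⟩
  funext i
  unfold gen
  symm
  refine Finset.sum_subset_zero_on_sdiff (Finset.range_mono h) (fun j hj => ?_) fun j hj => ?_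
  · have h1 : ¬ j < r := by simpa using (Finset.mem_sdiff.1 hj).2
    beta_reduce
    rw [if_neg (by omega), zero_mul]
  · have h1 := Finset.mem_range.1 hj
    beta_reduce
    rw [if_pos (by omega), if_pos (by omega)]

theorem gen_succ (n r : ℕ) (z : ℕ → ℚ) (i : ℕ) :
    gen n (r + 1) z i = gen n r z i + z (2 * r) * bas n (z (2 * r + 1)) i := by
  unfold gen
  rw [Finset.sum_range_succ]

/-- one more summand allows to change one coordinate -/
theorem gen_update {n r i : ℕ} (hi : i < n) (z : ℕ → ℚ) (u : ℚ) :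
    ∃ z', gen n (r + 1) z' = update (gen n r z) i u := by
  refine ⟨fun m => if m < 2 * r then z m else if m = 2 * r then (u - gen n r z i) / bas n (i : ℚ) i
    else i, ?_⟩
  funext j
  have h1 : gen n r (fun m => if m < 2 * r then z m else
      if m = 2 * r then (u - gen n r z i) / bas n (i : ℚ) i else i) = gen n r z :=
    gen_congr fun m hm => by rw [if_pos hm]
  rw [gen_succ, h1]
  rw [if_neg (by omega), if_pos rfl, if_neg (by omega), if_neg (by omega)]
  by_cases hj : j = i
  · subst hj
    rw [Function.update_self, div_mul_cancel₀ _ bas_self]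
    ring
  · rw [bas_ne hi hj, Function.update_of_ne hj]
    ring

/-- changes of several coordinates -/
theorem gen_off {n r : ℕ} (z : ℕ → ℚ) (S : Finset ℕ) (hS : ∀ i ∈ S, i < n) :
    ∀ y, Off S (gen n r z) y → ∃ z', gen n (r + S.card) z' = y := by
  induction S using Finset.induction_on with
  | empty => exact fun y hy => ⟨z, by funext i; rw [Finset.card_empty]; exact (hy i (by simp)).symm⟩
  | insert i S hi ih =>
    intro y hy
    obtain ⟨z1, h1⟩ := ih (fun j hj => hS j (Finset.mem_insert_of_mem hj))
      (update y i (gen n r z i)) (by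
        intro j hj
        by_cases hji : j = i
        · subst hji; simp
        · rw [Function.update_of_ne hji]
          exact hy j (by simp [hji, hj]))
    obtain ⟨z2, h2⟩ := gen_update (r := r + S.card) (hS i (Finset.mem_insert_self _ _)) z1 (y i)
    refine ⟨z2, ?_⟩
    rw [Finset.card_insert_of_notMem hi, ← add_assoc, h2, h1]
    simp

/-- the expression is not identically zero at the points of the generator -/
def Hit (n r : ℕ) (E : Ex) : Prop := ∃ z, E.eval (gen n r z) ≠ 0

theorem Hit.mono {n r r' : ℕ} (h : r ≤ r') {E : Ex} (hE : Hit n r E) : Hit n r' E := by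
  obtain ⟨z, hz⟩ := hE
  obtain ⟨z', hz'⟩ := gen_pad (n := n) h z
  exact ⟨z', by rwa [hz']⟩

theorem Hit.off {n r r' : ℕ} {z y : ℕ → ℚ} {S : Finset ℕ} (hS : ∀ i ∈ S, i < n)
    (hy : Off S (gen n r z) y) {E : Ex} (h : E.eval y ≠ 0) (hr : r + S.card ≤ r') :
    Hit n r' E := by
  obtain ⟨z', hz'⟩ := gen_off z S hS y hy
  exact Hit.mono hr ⟨z', by rwa [hz']⟩

theorem Hit.congr {n r : ℕ} {E F : Ex} (hE : Hit n r E) (h : ∀ x, E.eval x = F.eval x) :
    Hit n r F := by
  obtain ⟨z, hz⟩ := hE
  exact ⟨z, by rwa [← h]⟩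

/-- the factor `∏ (x (2 j + 1) - l)` as an expression in the seed -/
def basE (j i : ℕ) : ℕ → Ex
  | 0 => Ex.num 1
  | n + 1 => if n = i then basE j i n
      else Ex.op Op.mul (basE j i n) (Ex.op Op.sub (Ex.var (2 * j + 1)) (Ex.num n))

/-- the coordinates as expressions in the seed -/
def genE (n i : ℕ) : ℕ → Ex
  | 0 => Ex.num 0
  | r + 1 => Ex.op Op.add (genE n i r) (Ex.op Op.mul (Ex.var (2 * r)) (basE r i n))

theorem eval_basE (j i n : ℕ) (z : ℕ → ℚ) : (basE j i n).eval z = bas n (z (2 * j + 1)) i := by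
  induction n with
  | zero => simp [basE, bas, Ex.eval]
  | succ n ih =>
    unfold basE bas
    split_ifs with h
    · subst h
      rw [ih, bas, Finset.range_add_one, Finset.erase_insert_eq_erase]
    · rw [Finset.range_add_one, Finset.erase_insert_of_ne h, Finset.prod_insert (by simp)]
      simp only [Ex.eval, Op.ap, ih, bas]
      ring

theorem eval_genE (n i r : ℕ) (z : ℕ → ℚ) : (genE n i r).eval z = gen n r z i := by
  induction r with
  | zero => simp [genE, gen, Ex.eval]
  | succ r ih =>
    unfold gen at ih ⊢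
    rw [Finset.sum_range_succ, ← ih]
    simp [genE, Ex.eval, Op.ap, eval_basE]

theorem occ_basE (j i n m : ℕ) : (basE j i n).occ m ≤ if m = 2 * j + 1 then n else 0 := by
  induction n with
  | zero => simp [basE, Ex.occ]
  | succ n ih =>
    unfold basE
    split_ifs with h h' h'
    · rw [if_pos h'] at ih; omega
    · rw [if_neg h'] at ih; omega
    · rw [if_pos h'] at ih
      simp only [Ex.occ]
      split_ifs <;> omega
    · rw [if_neg h'] at ih
      simp only [Ex.occ]
      rw [if_neg (by omega)]
      omega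

theorem occ_genE (n i r m : ℕ) : (genE n i r).occ m ≤ if m < 2 * r then n + 1 else 0 := by
  induction r with
  | zero => simp [genE, Ex.occ]
  | succ r ih =>
    have h1 := occ_basE r i n m
    simp only [genE, Ex.occ]
    split_ifs at ih h1 ⊢ <;> omega

/-- A common point. -/
theorem Hit.all {n r : ℕ} (l : List Ex) (h : ∀ E ∈ l, Hit n r E) :
    ∃ z, ∀ E ∈ l, E.eval (gen n r z) ≠ 0 := by
  obtain ⟨z, hz⟩ := generic (l.map fun E => E.sbs fun i => genE n i r) (by
    intro F hF
    obtain ⟨E, hE, rfl⟩ := List.mem_map.1 hF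
    obtain ⟨z, hz⟩ := h E hE
    intro h0
    apply hz
    have := h0 z
    rw [Ex.eval_sbs] at this
    simpa only [eval_genE] using this)
  refine ⟨z, fun E hE => ?_⟩
  have := hz _ (List.mem_map.2 ⟨E, hE, rfl⟩)
  rw [Ex.eval_sbs] at this
  simpa only [eval_genE] using this

theorem Hit.mul {n r : ℕ} {E F : Ex} (hE : Hit n r E) (hF : Hit n r F) :
    Hit n r (Ex.op Op.mul E F) := by
  obtain ⟨z, hz⟩ := Hit.all [E, F] (by
    intro G hG
    simp only [List.mem_cons, List.not_mem_nil, or_false] at hG
    rcases hG with rfl | rfl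
    · exact hE
    · exact hF)
  exact ⟨z, mul_ne_zero (hz E (by simp)) (hz F (by simp))⟩

/-- the composition with the generator has small degrees in the seed -/
theorem occ_sbs_genE (n r m : ℕ) (E : Ex) :
    (E.sbs fun i => genE n i r).occ m ≤ E.vlist.length * (n + 1) := by
  induction E with
  | var i =>
    have := occ_genE n i r m
    simp only [Ex.sbs, Ex.vlist, List.length_singleton]
    split_ifs at this <;> omega
  | num q => simp [Ex.sbs, Ex.occ]
  | op o s t ihs iht =>
    simp only [Ex.sbs, Ex.occ, Ex.vlist, List.length_append]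
    rw [Nat.add_mul]
    omega

/-- **Grid of seeds.** -/
theorem Hit.grid {n r D : ℕ} {E : Ex} (hE : Hit n r E) (hD : E.vlist.length * (n + 1) < D) :
    ∃ f : ℕ → ℕ, (∀ i, f i < D) ∧ E.eval (gen n r fun i => (f i : ℚ)) ≠ 0 := by
  obtain ⟨z, hz⟩ := hE
  obtain ⟨f, hf, h⟩ := exists_grid (E := E.sbs fun i => genE n i r) (D := D)
    (fun i => (occ_sbs_genE n r i E).trans_lt hD) (Finset.range (2 * r)) (x := z) (by
      rw [Ex.eval_sbs]
      simpa only [eval_genE] using hz)
  refine ⟨f, hf, ?_⟩
  rw [Ex.eval_sbs] at h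
  simp only [eval_genE] at h
  rwa [show (fun i => gen n r (fun i => if i ∈ Finset.range (2 * r) then (f i : ℚ) else z i) i) =
    gen n r fun i => (f i : ℚ) from gen_congr fun m hm => by
      rw [if_pos (Finset.mem_range.2 hm)]] at h

end Pool.Agent.J6H25.PIT
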