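import Pool.Agent.J6H25.PIT.BB0

/-!
# Recursion over the expression
-/

set_option autoImplicit false

namespace Pool.Agent.J6H25.PIT

open Function (update)

/-- At all points where a suitable expression, which is not identically zero at the points of the
generator, is not zero, the expression `F` is not constant in the variable `i`. -/
def SD (n r i : ℕ) (F : Ex) : Prop :=
  ∃ c : Ex, Hit n r c ∧ ∀ x, c.eval x ≠ 0 → (F.uni x i).natDegree ≠ 0

theorem SD.mono {n r r' i : ℕ} (h : r ≤ r') {F : Ex} (hF : SD n r i F) : SD n r' i F := by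
  obtain ⟨c, hc, h1⟩ := hF
  exact ⟨c, hc.mono h, h1⟩

theorem SD.hit {n r i : ℕ} (hi : i < n) {F : Ex} (hF : SD n r i F) : Hit n (r + 1) F := by
  obtain ⟨c, ⟨z, hz⟩, h⟩ := hF
  have h1 := h _ hz
  have h2 : F.uni (gen n r z) i ≠ 0 := by
    intro h0
    rw [h0] at h1
    exact h1 Polynomial.natDegree_zero
  obtain ⟨u, hu⟩ : ∃ u, (F.uni (gen n r z) i).eval u ≠ 0 := by
    by_contra hc
    push Not at hc
    exact h2 (Polynomial.funext fun u => by rw [hc u, Polynomial.eval_zero])
  rw [Ex.eval_uni] at hu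
  obtain ⟨z', hz'⟩ := gen_update hi z u
  exact ⟨z', by rwa [hz']⟩

/-- different values -/
theorem natDegree_ne_zero_of_ne {F : Ex} {x : ℕ → ℚ} {i : ℕ} {u v : ℚ}
    (h : F.eval (update x i u) ≠ F.eval (update x i v)) : (F.uni x i).natDegree ≠ 0 := by
  intro h0
  obtain ⟨c, hc⟩ := Polynomial.natDegree_eq_zero.1 h0
  apply h
  rw [← Ex.eval_uni, ← Ex.eval_uni, ← hc]
  simp

theorem uni_of_occ {F : Ex} {x : ℕ → ℚ} {i : ℕ} (h : F.occ i = 0) :
    F.uni x i = Polynomial.C (F.eval x) := by
  refine Polynomial.funext fun u => ?_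
  rw [Ex.eval_uni, Polynomial.eval_C]
  refine Ex.eval_congr fun j hj => ?_
  have : j ≠ i := by rintro rfl; exact hj h
  simp [this]

/-- sums and differences -/
theorem SD.add {n r i : ℕ} {o : Op} (ho : o ≠ Op.mul) {s t : Ex} (hs : SD n r i s)
    (ht : t.occ i = 0) : SD n r i (Ex.op o s t) ∧ SD n r i (Ex.op o t s) := by
  obtain ⟨c, hc, h⟩ := hs
  refine ⟨⟨c, hc, fun x hx => ?_⟩, ⟨c, hc, fun x hx => ?_⟩⟩
  · have h1 := h x hx
    cases o
    · simp only [Ex.uni, Op.ap, uni_of_occ ht, Polynomial.natDegree_add_C]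
      exact h1
    · simp only [Ex.uni, Op.ap, uni_of_occ ht, Polynomial.natDegree_sub_C]
      exact h1
    · exact absurd rfl ho
  · have h1 := h x hx
    cases o
    · simp only [Ex.uni, Op.ap, uni_of_occ ht]
      rw [add_comm, Polynomial.natDegree_add_C]
      exact h1
    · simp only [Ex.uni, Op.ap, uni_of_occ ht]
      rw [← Polynomial.natDegree_neg, neg_sub, Polynomial.natDegree_sub_C]
      exact h1
    · exact absurd rfl ho

theorem uni_ne_zero {F : Ex} {x : ℕ → ℚ} {i : ℕ} (h : F.eval x ≠ 0) : F.uni x i ≠ 0 := by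
  intro h0
  apply h
  have := F.eval_uni x i (x i)
  rw [h0, Function.update_eq_self] at this
  simpa using this.symm

/-- products -/
theorem SD.mul {n r i : ℕ} {s t : Ex} (hs : SD n r i s) (ht : Hit n r t) :
    SD n r i (Ex.op Op.mul s t) ∧ SD n r i (Ex.op Op.mul t s) := by
  obtain ⟨c, hc, h⟩ := hs
  have key : ∀ x, (Ex.op Op.mul c t).eval x ≠ 0 →
      ((s.uni x i) * (t.uni x i)).natDegree ≠ 0 := by
    intro x hx
    simp only [Ex.eval, Op.ap] at hx
    have h1 := h x (left_ne_zero_of_mul hx)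
    have h2 : s.uni x i ≠ 0 := by
      intro h0
      rw [h0] at h1
      exact h1 Polynomial.natDegree_zero
    rw [Polynomial.natDegree_mul h2 (uni_ne_zero (right_ne_zero_of_mul hx))]
    omega
  refine ⟨⟨_, hc.mul ht, fun x hx => key x hx⟩, ⟨_, hc.mul ht, fun x hx => ?_⟩⟩
  simp only [Ex.uni, Op.ap]
  rw [mul_comm]
  exact key x hx

theorem vlist_op (o : Op) (s t : Ex) :
    (Ex.op o s t).vlist.length = s.vlist.length + t.vlist.length := by simp [Ex.vlist]

theorem one_le_length {F : Ex} {i : ℕ} (h : Dep i F) : 1 ≤ F.vlist.length := by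
  have := h.occ
  have := F.occ_le_length i
  omega

/-- **The recursion.** -/
theorem recursion {n C : ℕ} {E₀ : Ex} (hn : ∀ i, E₀.occ i ≠ 0 → i < n)
    (hB : ∀ F ∈ E₀.subs, ¬ IsZ F → (∀ i, F.occ i = E₀.occ i → ¬ Dep i F) → Hit n C F)
    (hA : ∀ o s t, Ex.op o s t ∈ E₀.subs → (∀ i, s.occ i = E₀.occ i → ¬ Dep i s) →
      (∀ i, t.occ i = E₀.occ i → ¬ Dep i t) → ∀ i, (Ex.op o s t).occ i = E₀.occ i →
      Dep i (Ex.op o s t) → SD n C i (Ex.op o s t)) :
    ∀ F ∈ E₀.subs, ((∃ i, F.occ i = E₀.occ i ∧ Dep i F) →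
      ∃ i, F.occ i = E₀.occ i ∧ i < n ∧ SD n ((rk F).1 + C) i F) ∧
      (¬ IsZ F → Hit n ((rk F).2 + C) F) := by
  intro F
  induction F with
  | var j =>
    intro hF
    have key : (∃ i, (Ex.var j).occ i = E₀.occ i ∧ Dep i (Ex.var j)) →
        ∃ i, (Ex.var j).occ i = E₀.occ i ∧ i < n ∧ SD n ((rk (Ex.var j)).1 + C) i (Ex.var j) := by
      rintro ⟨i, hi, hd⟩
      have h0 := hd.occ
      have hji : j = i := by by_contra h; simp [Ex.occ, h] at h0
      subst hji
      refine ⟨j, hi, hn j (by rw [← hi]; exact h0), ?_⟩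
      refine SD.mono (Nat.zero_le _) ⟨Ex.num 1, ⟨fun _ => 0, by simp [Ex.eval]⟩, fun x _ => ?_⟩
      simp [Ex.uni]
    refine ⟨key, fun hz => ?_⟩
    by_cases h : ∃ i, (Ex.var j).occ i = E₀.occ i ∧ Dep i (Ex.var j)
    · obtain ⟨i, -, hi, hS⟩ := key h
      refine (hS.hit hi).mono ?_
      simp only [rk]
      omega
    · exact (hB _ hF hz fun i h1 h2 => h ⟨i, h1, h2⟩).mono (by omega)
  | num q =>
    intro hF
    refine ⟨?_, fun hz => ?_⟩
    · rintro ⟨i, hi, hd⟩
      exact absurd rfl hd.occ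
    · refine (hB _ hF hz fun i _ h2 => absurd rfl h2.occ).mono (by omega)
  | op o s t ihs iht =>
    intro hF
    have hs : s ∈ E₀.subs := Ex.subs_trans hF (by simp [Ex.subs, Ex.mem_subs_self])
    have ht : t ∈ E₀.subs := Ex.subs_trans hF (by simp [Ex.subs, Ex.mem_subs_self])
    obtain ⟨As, Bs⟩ := ihs hs
    obtain ⟨At, Bt⟩ := iht ht
    have hle : ∀ i, s.occ i + t.occ i ≤ E₀.occ i := occ_le_of_mem_subs hF
    have hst : ∀ i, s.occ i = E₀.occ i → (Ex.op o s t).occ i = E₀.occ i ∧ t.occ i = 0 := by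
      intro i h
      have := hle i
      simp only [Ex.occ]
      omega
    have hts : ∀ i, t.occ i = E₀.occ i → (Ex.op o s t).occ i = E₀.occ i ∧ s.occ i = 0 := by
      intro i h
      have := hle i
      simp only [Ex.occ]
      omega
    have rs := rk_le s
    have rt := rk_le t
    have key : (∃ i, (Ex.op o s t).occ i = E₀.occ i ∧ Dep i (Ex.op o s t)) →
        ∃ i, (Ex.op o s t).occ i = E₀.occ i ∧ i < n ∧
          SD n ((rk (Ex.op o s t)).1 + C) i (Ex.op o s t) := by
      rintro ⟨i, hi, hd⟩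
      have hin : i < n := hn i (by rw [← hi]; exact hd.occ)
      by_cases h1 : ∃ i, s.occ i = E₀.occ i ∧ Dep i s
      · obtain ⟨i1, hi1, hn1, hS1⟩ := As h1
        by_cases ho : o = Op.mul
        · subst ho
          have htz : ¬ IsZ t := by
            intro h0
            obtain ⟨x, u, h⟩ := hd
            apply h
            simp [Ex.eval, Op.ap, h0 _]
          by_cases h2 : ∃ i, t.occ i = E₀.occ i ∧ Dep i t
          · obtain ⟨i2, hi2, hn2, hS2⟩ := At h2
            have hsz : ¬ IsZ s := by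
              intro h0
              obtain ⟨x, u, h⟩ := hd
              apply h
              simp [Ex.eval, Op.ap, h0 _]
            rcases le_total (max (rk s).1 (rk t).2) (max (rk t).1 (rk s).2) with hab | hab
            · refine ⟨i1, (hst i1 hi1).1, hn1, ?_⟩
              rw [rk_mul]
              exact ((hS1.mono (by simp only; omega)).mul ((Bt htz).mono (by simp only; omega))).1
            · refine ⟨i2, (hts i2 hi2).1, hn2, ?_⟩
              rw [rk_mul]
              exact ((hS2.mono (by simp only; omega)).mul ((Bs hsz).mono (by simp only; omega))).2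
          · have hHt := hB t ht htz fun i h h' => h2 ⟨i, h, h'⟩
            refine ⟨i1, (hst i1 hi1).1, hn1, ?_⟩
            rw [rk_mul]
            exact ((hS1.mono (by simp only; omega)).mul (hHt.mono (by simp only; omega))).1
        · refine ⟨i1, (hst i1 hi1).1, hn1, ?_⟩
          rw [rk_op ho]
          exact ((hS1.add ho (hst i1 hi1).2).1).mono (by simp only; omega)
      · by_cases h2 : ∃ i, t.occ i = E₀.occ i ∧ Dep i t
        · obtain ⟨i2, hi2, hn2, hS2⟩ := At h2
          by_cases ho : o = Op.mul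
          · subst ho
            have hsz : ¬ IsZ s := by
              intro h0
              obtain ⟨x, u, h⟩ := hd
              apply h
              simp [Ex.eval, Op.ap, h0 _]
            have hHs := hB s hs hsz fun i h h' => h1 ⟨i, h, h'⟩
            refine ⟨i2, (hts i2 hi2).1, hn2, ?_⟩
            rw [rk_mul]
            exact ((hS2.mono (by simp only; omega)).mul (hHs.mono (by simp only; omega))).2
          · refine ⟨i2, (hts i2 hi2).1, hn2, ?_⟩
            rw [rk_op ho]
            exact ((hS2.add ho (hts i2 hi2).2).2).mono (by simp only; omega)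
        · exact ⟨i, hi, hin, (hA o s t hF (fun i h h' => h1 ⟨i, h, h'⟩)
            (fun i h h' => h2 ⟨i, h, h'⟩) i hi hd).mono (by omega)⟩
    refine ⟨key, fun hz => ?_⟩
    by_cases ho : o = Op.mul
    · subst ho
      have hsz : ¬ IsZ s := fun h0 => hz fun x => by simp [Ex.eval, Op.ap, h0 x]
      have htz : ¬ IsZ t := fun h0 => hz fun x => by simp [Ex.eval, Op.ap, h0 x]
      rw [rk_mul]
      exact ((Bs hsz).mono (by simp only; omega)).mul ((Bt htz).mono (by simp only; omega))
    · by_cases h : ∃ i, (Ex.op o s t).occ i = E₀.occ i ∧ Dep i (Ex.op o s t)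
      · obtain ⟨i, hi', hi, hS⟩ := key h
        refine (hS.hit hi).mono ?_
        obtain ⟨j, hj1, hj2⟩ := h
        have h3 := rk_pos hj2.occ
        rw [rk_op ho] at h3 ⊢
        simp only at h3 ⊢
        split_ifs at h3 ⊢ <;> omega
      · exact (hB _ hF hz fun i h1 h2 => h ⟨i, h1, h2⟩).mono (by omega)

theorem recursion_hit {n C : ℕ} {E₀ : Ex} (hn : ∀ i, E₀.occ i ≠ 0 → i < n)
    (hB : ∀ F ∈ E₀.subs, ¬ IsZ F → (∀ i, F.occ i = E₀.occ i → ¬ Dep i F) → Hit n C F)
    (hA : ∀ o s t, Ex.op o s t ∈ E₀.subs → (∀ i, s.occ i = E₀.occ i → ¬ Dep i s) →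
      (∀ i, t.occ i = E₀.occ i → ¬ Dep i t) → ∀ i, (Ex.op o s t).occ i = E₀.occ i →
      Dep i (Ex.op o s t) → SD n C i (Ex.op o s t)) (hE : ¬ IsZ E₀) :
    Hit n ((rk E₀).2 + C) E₀ :=
  (recursion hn hB hA E₀ E₀.mem_subs_self).2 hE

theorem eval_eq_of_not_dep {F : Ex} (h : ∀ i, ¬ Dep i F) (x y : ℕ → ℚ) : F.eval x = F.eval y := by
  have key : ∀ x, F.eval x = F.eval fun _ => 0 := by
    intro x
    rw [← eval_of_not_dep (T := F.vlist.toFinset) (fun y _ => h y) x]
    refine Ex.eval_congr fun i hi => ?_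
    rw [if_pos]
    rw [List.mem_toFinset, Ex.mem_vlist]
    exact hi
  rw [key x, key y]

/-- **Read-once expressions.** -/
theorem hit_ro {n : ℕ} {E : Ex} (hn : ∀ i, E.occ i ≠ 0 → i < n) (h : ∀ i, E.occ i ≤ 1)
    (hE : ¬ IsZ E) : Hit n (rk E).2 E := by
  have hall : ∀ F ∈ E.subs, (∀ i, F.occ i = E.occ i → ¬ Dep i F) → ∀ i, ¬ Dep i F := by
    intro F hF hd i hi
    have h0 := hi.occ
    have h1 := h i
    have h2 := occ_le_of_mem_subs hF i
    exact hd i (by omega) hi
  have := recursion_hit (C := 0) hn (fun F hF hz hd => by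
      obtain ⟨x, hx⟩ : ∃ x, F.eval x ≠ 0 := by
        unfold IsZ at hz; push Not at hz; exact hz
      refine ⟨fun _ => 0, ?_⟩
      rwa [eval_eq_of_not_dep (hall F hF hd) _ x])
    (fun o s t hF hs ht i _ hd => by
      exfalso
      have h1 := hall s (Ex.subs_trans hF (by simp [Ex.subs, Ex.mem_subs_self])) hs
      have h2 := hall t (Ex.subs_trans hF (by simp [Ex.subs, Ex.mem_subs_self])) ht
      obtain ⟨x, u, hx⟩ := hd
      apply hx
      simp only [Ex.eval]
      rw [eval_eq_of_not_dep h1 _ x, eval_eq_of_not_dep h2 _ x]) hE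
  simpa using this

/-- read-once expressions with exceptions -/
theorem hit_ro_off {n : ℕ} {E : Ex} (hn : ∀ i, E.occ i ≠ 0 → i < n) (Z : Finset ℕ)
    (hZ : ∀ i ∈ Z, i < n) (h : ∀ i ∉ Z, E.occ i ≤ 1) (hE : ¬ IsZ E) {s : ℕ}
    (hs : (rk E).2 ≤ s) : Hit n (s + Z.card) E := by
  obtain ⟨q, hq⟩ : ∃ x, E.eval x ≠ 0 := by
    unfold IsZ at hE; push Not at hE; exact hE
  set σ : ℕ → Ex := fun i => if i ∈ Z then Ex.num (q i) else Ex.var i with hσ
  have hev : ∀ x, (E.sbs σ).eval x = E.eval fun i => if i ∈ Z then q i else x i := by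
    intro x
    rw [Ex.eval_sbs]
    congr 1
    funext i
    simp only [hσ]
    split_ifs <;> rfl
  have hocc : ∀ i, (E.sbs σ).occ i = if i ∈ Z then 0 else E.occ i := by
    intro i
    clear hev hq hs hE h hn
    induction E with
    | var j =>
      simp only [Ex.sbs, hσ]
      by_cases hj : j ∈ Z
      · by_cases hji : j = i
        · subst hji; simp [hj, Ex.occ]
        · simp [hj, Ex.occ, hji]
      · by_cases hji : j = i
        · subst hji; simp [hj, Ex.occ]
        · simp [hj, Ex.occ, hji]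
    | num q => simp [Ex.sbs, Ex.occ]
    | op o s t ihs iht =>
      simp only [Ex.sbs, Ex.occ, ihs, iht]
      split_ifs <;> rfl
  have h1 := hit_ro (n := n) (E := E.sbs σ) (fun i hi => hn i (by
      rw [hocc] at hi
      split_ifs at hi
      · exact absurd rfl hi
      · exact hi))
    (fun i => by
      rw [hocc]
      split_ifs with hi
      · exact Nat.zero_le _
      · exact h i hi)
    (fun h0 => hq (by
      have := h0 q
      rw [hev] at this
      rw [← this]
      congr 1
      funext i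
      split_ifs <;> rfl))
  obtain ⟨z, hz⟩ := h1
  rw [hev] at hz
  have h2 : (rk (E.sbs σ)).2 ≤ (rk E).2 := (rk_sbs (fun i => by
    simp only [hσ]; split_ifs <;> simp [rk]) E).2
  exact Hit.off (r := (rk (E.sbs σ)).2) (z := z) hZ
    (fun i hi => by simp only [if_neg hi]) hz (by omega)

end Pool.Agent.J6H25.PIT
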