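import Pool.Agent.J6H25.PIT.BB2

/-!
# Sums of few read-once expressions and expressions of bounded overlap at the points of the generator
-/

set_option autoImplicit false

namespace Pool.Agent.J6H25.PIT

open Function (update)

theorem length_vlist_of_mem_subs {E G : Ex} (h : G ∈ E.subs) :
    G.vlist.length ≤ E.vlist.length := by
  induction E with
  | var j => simp only [Ex.subs, List.mem_singleton] at h; rw [h]
  | num q => simp only [Ex.subs, List.mem_singleton] at h; rw [h]
  | op o s t ihs iht =>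
    simp only [Ex.subs, List.mem_cons, List.mem_append] at h
    rw [vlist_op]
    rcases h with h | h | h
    · rw [h, vlist_op]
    · have := ihs h; omega
    · have := iht h; omega

/-- the summands -/
theorem Parts.sum {W : Set ℕ} {m : ℕ} {F : Ex} (h : Parts W m F) :
    ∃ us : List (ℚ × Ex), us.length = m ∧ (∀ t ∈ us, t.2 ∈ F.subs ∧ ∀ i ∉ W, t.2.occ i ≤ 1) ∧
      ∀ x, F.eval x = sumU us x := by
  induction h with
  | @one F h =>
    refine ⟨[(1, F)], rfl, fun t ht => ?_, fun x => by simp⟩
    rw [List.mem_singleton] at ht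
    subst ht
    exact ⟨F.mem_subs_self, h⟩
  | @add m n s t _ _ ihs iht =>
    obtain ⟨us, h1, h2, h3⟩ := ihs
    obtain ⟨vs, k1, k2, k3⟩ := iht
    refine ⟨us ++ vs, by simp [h1, k1], fun p hp => ?_, fun x => ?_⟩
    · rcases List.mem_append.1 hp with hp | hp
      · exact ⟨by simp [Ex.subs, (h2 p hp).1], (h2 p hp).2⟩
      · exact ⟨by simp [Ex.subs, (k2 p hp).1], (k2 p hp).2⟩
    · rw [sumU_append, ← h3, ← k3]
      rfl
  | @sub m n s t _ _ ihs iht =>
    obtain ⟨us, h1, h2, h3⟩ := ihs
    obtain ⟨vs, k1, k2, k3⟩ := iht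
    refine ⟨us ++ vs.map fun p => (-p.1, p.2), by simp [h1, k1], fun p hp => ?_, fun x => ?_⟩
    · rcases List.mem_append.1 hp with hp | hp
      · exact ⟨by simp [Ex.subs, (h2 p hp).1], (h2 p hp).2⟩
      · obtain ⟨p', hp', rfl⟩ := List.mem_map.1 hp
        exact ⟨by simp [Ex.subs, (k2 p' hp').1], (k2 p' hp').2⟩
    · rw [sumU_append, sumU_neg, ← h3, ← k3, ← sub_eq_add_neg]
      rfl

/-- **Sums of few read-once expressions.** -/
theorem hit_sum {n m s : ℕ} (hm : 1 ≤ m) {Z : Finset ℕ} (hZ : ∀ i ∈ Z, i < n)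
    {us : List (ℚ × Ex)} (hus : us.length ≤ m) (hro : ∀ t ∈ us, ∀ i ∉ Z, t.2.occ i ≤ 1)
    (hn : ∀ t ∈ us, ∀ i, t.2.occ i ≠ 0 → i < n) (hl : ∀ t ∈ us, (rk t.2).2 ≤ s)
    {T : Ex} (hT : ∀ x, T.eval x = sumU us x) (hTn : ∀ i, T.occ i ≠ 0 → i < n) (hz : ¬ IsZ T) :
    Hit n (s + Z.card + NN m) T := by
  classical
  obtain ⟨q, hq⟩ : ∃ x, T.eval x ≠ 0 := by
    unfold IsZ at hz; push Not at hz; exact hz
  set TZ : Ex := T.sbs fun i => if i ∈ Z then Ex.var i else Ex.num (q i) with hTZ
  have hev : ∀ x, TZ.eval x = T.eval fun i => if i ∈ Z then x i else q i := by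
    intro x
    rw [hTZ, Ex.eval_sbs]
    congr 1
    funext i
    split_ifs <;> rfl
  have h1 : Hit n (s + Z.card) TZ := by
    refine Hit.off (r := 0) (z := fun _ => 0) (S := Z) (y := fun i => if i ∈ Z then q i else
      gen n 0 (fun _ => 0) i) hZ (fun i hi => by simp only [if_neg hi]) ?_ (by omega)
    rw [hev]
    convert hq using 2
    funext i
    split_ifs <;> rfl
  obtain ⟨z, hz'⟩ := Hit.all (n := n) (r := s + Z.card)
    (TZ :: (us.flatMap fun t => t.2.subs).filter fun G => decide (¬ IsZ G)) (by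
      intro G hG
      rcases List.mem_cons.1 hG with rfl | hG
      · exact h1
      · rw [List.mem_filter, List.mem_flatMap, decide_eq_true_eq] at hG
        obtain ⟨⟨t, ht, hG⟩, hGz⟩ := hG
        exact hit_ro_off (fun i hi => hn t ht i fun h0 => hi (by
            have := occ_le_of_mem_subs hG i; omega)) Z hZ
          (fun i hi => (occ_le_of_mem_subs hG i).trans (hro t ht i hi)) hGz
          ((rk_subs hG).trans (hl t ht)))
  set x := gen n (s + Z.card) z with hx
  have hxT := hz' TZ (by simp)
  obtain ⟨S, hS, hSc, y, hy, hne⟩ := exists_set_of_sum x hm hus ((Finset.range n) \ Z) (by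
      intro t ht
      refine ⟨fun G hG => ?_, fun i hi => hro t ht i (Finset.mem_sdiff.1 hi).2⟩
      by_cases hGz : IsZ G
      · exact Or.inr fun y _ => hGz y
      · refine Or.inl (hz' G ?_)
        rw [List.mem_cons, List.mem_filter, List.mem_flatMap, decide_eq_true_eq]
        exact Or.inr ⟨⟨t, ht, hG⟩, hGz⟩)
    (w := fun i => if i ∈ (Finset.range n) \ Z then q i else x i)
    (fun i hi => by simp only [if_neg hi]) (by
      rw [← hT]
      rw [hev] at hxT
      convert hxT using 1
      refine Ex.eval_congr fun i hi => ?_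
      have := hTn i hi
      by_cases hiZ : i ∈ Z
      · simp [hiZ]
      · simp [hiZ, this])
  refine Hit.off (z := z) (S := S) (r := s + Z.card) (fun i hi => ?_) hy
    (by rwa [hT]) (by omega)
  exact Finset.mem_range.1 (Finset.mem_sdiff.1 (hS hi)).1

/-- Variables without occurrences outside on which the expression does not depend are removed. -/
theorem exists_clean {n M k : ℕ} {E₀ F : Ex} (hE : Narrow M k E₀) (hF : F ∈ E₀.subs)
    (hn : ∀ i, E₀.occ i ≠ 0 → i < n) (hd : ∀ i, F.occ i = E₀.occ i → ¬ Dep i F) :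
    ∃ (F' : Ex) (Z : Finset ℕ) (m : ℕ), (∀ x, F.eval x = F'.eval x) ∧ (∀ i, F'.occ i ≤ F.occ i) ∧
      ((rk F').1 ≤ (rk F).1 ∧ (rk F').2 ≤ (rk F).2) ∧ (∀ i ∈ Z, i < n) ∧ Z.card ≤ k ∧ m ≤ M ∧
      Parts (↑Z) m F' := by
  classical
  obtain ⟨Z, hZ, m, hm, hP⟩ := hE F hF
  refine ⟨F.sbs fun i => if F.occ i = E₀.occ i then Ex.num 0 else Ex.var i,
    Z.filter fun i => i < n, m, fun x => ?_, fun i => ?_, rk_sbs (fun i => ?_) F, ?_, ?_,
    hm, ?_⟩
  · rw [Ex.eval_sbs, ← eval_of_not_dep (T := F.vlist.toFinset.filter fun i => F.occ i = E₀.occ i)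
      (fun y hy => hd y (Finset.mem_filter.1 hy).2) x]
    refine Ex.eval_congr fun i hi => ?_
    rw [← Ex.mem_vlist, ← List.mem_toFinset] at hi
    by_cases h : F.occ i = E₀.occ i
    · simp [Finset.mem_filter, hi, h, Ex.eval]
    · simp [Finset.mem_filter, h, Ex.eval]
  · rw [occ_sbs_zero (fun i => F.occ i = E₀.occ i)]
    split_ifs
    · exact Nat.zero_le _
    · exact le_rfl
  · split_ifs <;> simp [rk]
  · intro i hi
    exact (Finset.mem_filter.1 hi).2
  · exact (Finset.card_filter_le _ _).trans hZ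
  · refine (hP.sbs_zero fun i => F.occ i = E₀.occ i).mono fun i hi => ?_
    rw [occ_sbs_zero (fun i => F.occ i = E₀.occ i)]
    rcases hi with hi | hi
    · by_cases h0 : F.occ i = E₀.occ i
      · exact Or.inr (if_pos h0)
      · rw [if_neg h0]
        by_cases h1 : F.occ i = 0
        · exact Or.inr h1
        · left
          have := occ_le_of_mem_subs hF i
          exact Finset.mem_coe.2 (Finset.mem_filter.2 ⟨Finset.mem_coe.1 hi, hn i (by omega)⟩)
    · exact Or.inr (if_pos hi)

theorem mem_subs_left {o : Op} {s t E : Ex} (h : Ex.op o s t ∈ E.subs) : s ∈ E.subs :=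
  Ex.subs_trans h (by simp [Ex.subs, Ex.mem_subs_self])

theorem mem_subs_right {o : Op} {s t E : Ex} (h : Ex.op o s t ∈ E.subs) : t ∈ E.subs :=
  Ex.subs_trans h (by simp [Ex.subs, Ex.mem_subs_self])

/-- a sum of few read-once expressions -/
theorem hit_parts {n M k s : ℕ} {F : Ex} {Z : Finset ℕ} {m : ℕ} (hP : Parts (↑Z) m F)
    (hn : ∀ i, F.occ i ≠ 0 → i < n) (hs : (rk F).2 ≤ s) (hZ : ∀ i ∈ Z, i < n)
    (hZk : Z.card ≤ k) (hm : m ≤ M) (hz : ¬ IsZ F) : Hit n (s + k + NN M) F := by
  obtain ⟨us, h1, h2, h3⟩ := hP.sum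
  refine Hit.mono ?_ (hit_sum (s := s) hP.pos hZ h1.le (fun t ht i hi => (h2 t ht).2 i (by simpa using hi))
    (fun t ht i hi => hn i fun h0 => hi (by have := occ_le_of_mem_subs (h2 t ht).1 i; omega))
    (fun t ht => (rk_subs (h2 t ht).1).trans hs) h3 hn hz)
  have := NN_mono hm
  omega

/-- dependence of a sum of few read-once expressions -/
theorem hit_parts_dep {n M k s : ℕ} {F : Ex} {Z : Finset ℕ} {m : ℕ} (hP : Parts (↑Z) m F)
    (hn : ∀ i, F.occ i ≠ 0 → i < n) (hs : (rk F).2 ≤ s) (hZ : ∀ i ∈ Z, i < n)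
    (hZk : Z.card ≤ k) (hm : 2 * m ≤ M) {i : ℕ} (hd : Dep i F) :
    SD n (s + k + NN M) i F := by
  obtain ⟨x, u, hx⟩ := hd
  obtain ⟨us, h1, h2, h3⟩ := hP.sum
  have hmp := hP.pos
  have hval : ∀ y, (Ex.op Op.sub (fixv i u F) (fixv i (x i) F)).eval y =
      F.eval (update y i u) - F.eval (update y i (x i)) := by
    intro y
    simp only [Ex.eval, Op.ap, eval_fixv]
  refine ⟨Ex.op Op.sub (fixv i u F) (fixv i (x i) F), ?_, fun y hy => ?_⟩
  · refine Hit.mono ?_ (hit_sum (s := s) (m := 2 * m) (Z := Z)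
      (us := (us.map fun p => (p.1, fixv i u p.2)) ++
        ((us.map fun p => (p.1, fixv i (x i) p.2)).map fun p => (-p.1, p.2)))
      (by omega) hZ ?_ ?_ ?_ ?_ ?_ ?_ ?_)
    · have := NN_mono hm
      omega
    · simp only [List.length_append, List.length_map, h1]
      omega
    · intro t ht j hj
      rcases List.mem_append.1 ht with ht | ht
      · obtain ⟨p, hp, rfl⟩ := List.mem_map.1 ht
        exact (occ_fixv_le _ _ _ _).trans ((h2 p hp).2 j (by simpa using hj))
      · rw [List.map_map] at ht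
        obtain ⟨p, hp, rfl⟩ := List.mem_map.1 ht
        exact (occ_fixv_le _ _ _ _).trans ((h2 p hp).2 j (by simpa using hj))
    · intro t ht j hj
      rcases List.mem_append.1 ht with ht | ht
      · obtain ⟨p, hp, rfl⟩ := List.mem_map.1 ht
        refine hn j fun h0 => hj ?_
        have h4 := occ_fixv_le i u p.2 j
        have h5 := occ_le_of_mem_subs (h2 p hp).1 j
        simp only
        omega
      · rw [List.map_map] at ht
        obtain ⟨p, hp, rfl⟩ := List.mem_map.1 ht
        refine hn j fun h0 => hj ?_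
        have h4 := occ_fixv_le i (x i) p.2 j
        have h5 := occ_le_of_mem_subs (h2 p hp).1 j
        simp only [Function.comp]
        omega
    · intro t ht
      have hfix : ∀ (c : ℚ) (G : Ex), (rk (fixv i c G)).2 ≤ (rk G).2 := fun c G =>
        (rk_sbs (fun j => by split_ifs <;> simp [rk]) G).2
      rcases List.mem_append.1 ht with ht | ht
      · obtain ⟨p, hp, rfl⟩ := List.mem_map.1 ht
        exact ((hfix _ _).trans (rk_subs (h2 p hp).1)).trans hs
      · rw [List.map_map] at ht
        obtain ⟨p, hp, rfl⟩ := List.mem_map.1 ht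
        exact ((hfix _ _).trans (rk_subs (h2 p hp).1)).trans hs
    · intro y
      rw [hval, sumU_append, sumU_neg, sumU_fixv, sumU_fixv, ← h3, ← h3, ← sub_eq_add_neg]
    · intro j hj
      refine hn j fun h0 => hj ?_
      have h4 := occ_fixv_le i u F j
      have h5 := occ_fixv_le i (x i) F j
      simp only [Ex.occ]
      omega
    · intro h0
      have := h0 x
      rw [hval, Function.update_eq_self] at this
      exact hx (sub_eq_zero.1 this)
  · rw [hval, sub_ne_zero] at hy
    exact natDegree_ne_zero_of_ne hy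

theorem SD.congr {n r i : ℕ} {E F : Ex} (hE : SD n r i E) (h : ∀ x, E.eval x = F.eval x) :
    SD n r i F := by
  obtain ⟨c, hc, h1⟩ := hE
  refine ⟨c, hc, fun x hx => ?_⟩
  have : F.uni x i = E.uni x i := Polynomial.funext fun u => by
    rw [Ex.eval_uni, Ex.eval_uni, h]
  rw [this]
  exact h1 x hx

theorem isZ_congr {E F : Ex} (h : ∀ x, E.eval x = F.eval x) : IsZ E ↔ IsZ F :=
  forall_congr' fun x => by rw [h]

/-- **The generator hits the expressions of bounded overlap.** -/
theorem hit_narrow {n M k : ℕ} {E : Ex} (hE : Narrow M k E) (hn : ∀ i, E.occ i ≠ 0 → i < n)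
    (hz : ¬ IsZ E) :
    Hit n (2 * (rk E).2 + 2 * k + NN (4 * M)) E := by
  set C := (rk E).2 + 2 * k + NN (4 * M) with hC
  have hB : ∀ F ∈ E.subs, ¬ IsZ F → (∀ i, F.occ i = E.occ i → ¬ Dep i F) → Hit n C F := by
    intro F hF hFz hd
    obtain ⟨F', Z, m, h1, h2, h3, h4, h5, h6, h7⟩ := exists_clean hE hF hn hd
    refine Hit.congr (Hit.mono ?_ (hit_parts (s := (rk E).2) h7 (fun i hi => hn i fun h0 => hi ?_)
      (h3.2.trans (rk_subs hF)) h4 h5 h6 ((isZ_congr h1).not.1 hFz)))
      fun x => (h1 x).symm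
    · have := NN_mono (show M ≤ 4 * M by omega)
      omega
    · have := h2 i
      have := occ_le_of_mem_subs hF i
      omega
  have := recursion_hit (C := C) hn hB (by
    intro o s t hF hds hdt i hi hd
    obtain ⟨s', Zs, ms, s1, s2, s3, s4, s5, s6, s7⟩ := exists_clean hE (mem_subs_left hF) hn hds
    obtain ⟨t', Zt, mt, t1, t2, t3, t4, t5, t6, t7⟩ := exists_clean hE (mem_subs_right hF) hn hdt
    have hks : (rk s).2 ≤ (rk E).2 := rk_subs (mem_subs_left hF)
    have hkt : (rk t).2 ≤ (rk E).2 := rk_subs (mem_subs_right hF)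
    have hle : ∀ i, s.occ i + t.occ i ≤ E.occ i := occ_le_of_mem_subs hF
    have hop : ∀ x, (Ex.op o s t).eval x = (Ex.op o s' t').eval x := by
      intro x; simp only [Ex.eval, s1, t1]
    by_cases ho : o = Op.mul
    · subst ho
      have hsz : ¬ IsZ s := by
        intro h0
        obtain ⟨x, u, h⟩ := hd
        apply h
        simp [Ex.eval, Op.ap, h0 _]
      have htz : ¬ IsZ t := by
        intro h0
        obtain ⟨x, u, h⟩ := hd
        apply h
        simp [Ex.eval, Op.ap, h0 _]
      have hHs := hB s (mem_subs_left hF) hsz hds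
      have hHt := hB t (mem_subs_right hF) htz hdt
      have hor : Dep i s ∨ Dep i t := by
        by_contra hc
        push Not at hc
        obtain ⟨x, u, h⟩ := hd
        unfold Dep at hc
        push Not at hc
        apply h
        simp only [Ex.eval]
        rw [hc.1, hc.2]
      rcases hor with h | h
      · have h' : Dep i s' := h.congr s1
        have := hit_parts_dep (M := 4 * M) (k := 2 * k) (s := (rk E).2) s7
          (fun j hj => hn j fun h0 => hj (by have := s2 j; have := hle j; omega)) (by omega) s4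
          (by omega) (by omega) h'
        exact (SD.mul ((this.congr fun x => (s1 x).symm).mono (by omega)) hHt).1
      · have h' : Dep i t' := h.congr t1
        have := hit_parts_dep (M := 4 * M) (k := 2 * k) (s := (rk E).2) t7
          (fun j hj => hn j fun h0 => hj (by have := t2 j; have := hle j; omega)) (by omega) t4
          (by omega) (by omega) h'
        exact (SD.mul ((this.congr fun x => (t1 x).symm).mono (by omega)) hHs).2
    · classical
      have hP : Parts (↑(Zs ∪ Zt)) (ms + mt) (Ex.op o s' t') := by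
        have e1 : Parts (↑(Zs ∪ Zt)) ms s' := s7.mono fun i hi => Or.inl (by simpa using Or.inl hi)
        have e2 : Parts (↑(Zs ∪ Zt)) mt t' := t7.mono fun i hi => Or.inl (by simpa using Or.inr hi)
        cases o
        · exact e1.add e2
        · exact e1.sub e2
        · exact absurd rfl ho
      refine SD.congr (SD.mono ?_ (hit_parts_dep (M := 4 * M) (k := 2 * k) (s := (rk E).2) hP
        (fun j hj => hn j fun h0 => hj ?_) ?_ ?_ ?_ (by omega) (hd.congr hop)))
        fun x => (hop x).symm
      · omega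
      · have := s2 j
        have := t2 j
        have := hle j
        simp only [Ex.occ]
        omega
      · refine le_trans ?_ (rk_subs hF)
        rw [rk_op ho, rk_op ho]
        simp only
        split_ifs <;> omega
      · intro j hj
        rcases Finset.mem_union.1 hj with h | h
        · exact s4 j h
        · exact t4 j h
      · exact (Finset.card_union_le _ _).trans (by omega)) hz
  exact this.mono (by omega)

theorem NN_eq (m : ℕ) : 2 * NN m = m * (m + 3) := by
  induction m with
  | zero => rfl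
  | succ m ih => simp only [NN]; nlinarith

end Pool.Agent.J6H25.PIT
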