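import Pool.Agent.J6H25.PIT.BB3

/-!
# Explicit hitting sets for arithmetic expressions of bounded overlap

`Ex` is the type of arithmetic expressions (variables `x₀, x₁, …`, rational constants, `+`, `-`,
`×`), `E.poly` the polynomial defined by `E`, `E.occ i` the number of occurrences of the variable
`x i` in `E`, `E.subs` the list of the subexpressions of `E` (`E` included), `E.vlist` the list of
all occurrences of variables.

`Parts W m F`: the expression `F` is obtained by additions and subtractions from `m` subexpressions
in each of which every variable which is not in `W` occurs at most once.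

`Narrow M k E`: for every subexpression `F` of `E` there is a set `Z` of at most `k` variables such
that `F` is obtained by additions and subtractions from at most `M` subexpressions, in each of which
every variable occurs at most once, except for the variables of `Z` and the variables all of whose
occurrences in `E` are in `F`. (For `M = 1` and `k = 0` these are the expressions in which every
variable occurs at most twice. No multilinearity is assumed, and in general the number of occurrences
of the variables is not bounded.)

`layers false E`: the maximal number of blocks of consecutive multiplications on a path of `E` (for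
an expression of bounded depth, with sums and products of arbitrarily many arguments, this is at
most the depth).

`hittingSet n r D`: the set of the points with the coordinates
`∑_{j < r} a_j ∏_{l < n, l ≠ i} (b_j - l)` with integers `0 ≤ a_j, b_j ≤ D`. It has at most
`(D + 1)^(2 r)` elements.

Theorem: let `r = 2 d + 2 k + 8 M² + 6 M + 2`. If `E` is an expression with `Narrow M k`, with at
most `s` occurrences of the variables `x₀, …, x_{n-1}`, with rational constants of any size, and
`log₂ s ≤ d` or `layers false E ≤ d`, and if `E` does not define the polynomial zero, then its value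
is different from zero at some point of `hittingSet n r (s (n + 1))`. So there are explicit hitting
sets of size `(s n)^(O(log s))`, and of polynomial size for bounded depth; no knowledge of the
expression is used (black box).

Proof. The generator is the one of Shpilka and Volkovich. Call a variable private for a
subexpression `F` if it does not occur outside of `F`. By recursion over the subexpressions one
finds a private variable of `F`, and an expression `c` which is not zero at all points of the
generator, such that `F` is not constant in this variable at every point at which `c ≠ 0`; the number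
of summands of the generator increases only for products of two factors of equal rank. The recursion
starts at the subexpressions both arguments of which do not depend on their private variables; there
one has a sum of few read-once expressions in the other variables, and hardness of representation
applies.
-/

set_option autoImplicit false

namespace Pool.Agent.J6H25.PIT.BlackBoxBoundedOverlap

open Pool.Agent.J6H25.PIT

/-- The points with the coordinates `∑_{j < r} a_j ∏_{l < n, l ≠ i} (b_j - l)` with integers
`0 ≤ a_j, b_j ≤ D`. -/
noncomputable def hittingSet (n r D : ℕ) : Finset (ℕ → ℤ) :=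
  letI := Classical.decEq (ℕ → ℤ)
  (Finset.univ : Finset ((Fin r → Fin (D + 1)) × (Fin r → Fin (D + 1)))).image fun p i =>
    ∑ j, ((p.1 j : ℕ) : ℤ) * ∏ l ∈ (Finset.range n).erase i, (((p.2 j : ℕ) : ℤ) - l)

theorem card_hittingSet (n r D : ℕ) : (hittingSet n r D).card ≤ (D + 1) ^ (2 * r) := by
  classical
  refine (Finset.card_image_le).trans ?_
  rw [Finset.card_univ, Fintype.card_prod, Fintype.card_fun, Fintype.card_fin, Fintype.card_fin,
    ← pow_add, two_mul]

theorem mem_hittingSet {n r D : ℕ} {f : ℕ → ℕ} (hf : ∀ i, f i < D + 1) :
    ∃ p ∈ hittingSet n r D, ∀ i, ((p i : ℤ) : ℚ) = gen n r (fun i => (f i : ℚ)) i := by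
  classical
  refine ⟨_, Finset.mem_image.2 ⟨(fun j => ⟨f (2 * j), hf _⟩, fun j => ⟨f (2 * j + 1), hf _⟩),
    Finset.mem_univ _, rfl⟩, fun i => ?_⟩
  unfold gen bas
  rw [← Fin.sum_univ_eq_sum_range fun j => (f (2 * j) : ℚ) *
    ∏ l ∈ (Finset.range n).erase i, ((f (2 * j + 1) : ℚ) - l)]
  push_cast
  rfl

/-- **Explicit hitting sets for arithmetic expressions of bounded overlap.** (1) The points of
`hittingSet n r (s (n + 1))`, `r = 2 d + 2 k + 8 M² + 6 M + 2`, are a hitting set for the expressions
`E` with `Narrow M k E`, with at most `s` occurrences of the variables `x₀, …, x_{n-1}` and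
`log₂ s ≤ d` or `layers false E ≤ d`. (2) Size of this set. (3) `Narrow 1 0 E` if every variable
occurs at most twice in `E`. -/
theorem result :
    (∀ (M k n s d : ℕ) (E : Ex), Narrow M k E → (∀ i, E.occ i ≠ 0 → i < n) →
      E.vlist.length ≤ s → (Nat.log 2 s ≤ d ∨ layers false E ≤ d) → E.poly ≠ 0 →
      ∃ p ∈ hittingSet n (2 * d + 2 * k + 8 * M ^ 2 + 6 * M + 2) (s * (n + 1)),
        MvPolynomial.eval (fun i => ((p i : ℤ) : ℚ)) E.poly ≠ 0) ∧
    (∀ n r D : ℕ, (hittingSet n r D).card ≤ (D + 1) ^ (2 * r)) ∧
    (∀ E : Ex, (∀ i, E.occ i ≤ 2) → Narrow 1 0 E) := by
  refine ⟨fun M k n s d E hE hn hs hd hz => ?_, card_hittingSet, fun E h F hF => ?_⟩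
  · have h1 := hit_narrow hE hn ((poly_ne_zero_iff E).1 hz)
    have h2 : (rk E).2 ≤ d + 1 := by
      rcases hd with hd | hd
      · exact (rk_log E).trans (by have := Nat.log_mono_right (b := 2) hs; omega)
      · exact (rk_layers E).2.trans (by have := layers_true_le E; omega)
    have h3 : 2 * NN (4 * M) = 4 * M * (4 * M + 3) := NN_eq _
    have h4 : NN (4 * M) = 8 * M ^ 2 + 6 * M := by nlinarith
    have h5 : Hit n (2 * d + 2 * k + 8 * M ^ 2 + 6 * M + 2) E := h1.mono (by omega)
    obtain ⟨f, hf, hf'⟩ := h5.grid (D := s * (n + 1) + 1)
      (Nat.lt_succ_of_le (Nat.mul_le_mul_right _ hs))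
    obtain ⟨p, hp, hp'⟩ := mem_hittingSet (n := n) (r := 2 * d + 2 * k + 8 * M ^ 2 + 6 * M + 2)
      (D := s * (n + 1)) hf
    refine ⟨p, hp, ?_⟩
    rw [Ex.eval_poly]
    rwa [show (fun i => ((p i : ℤ) : ℚ)) = gen n (2 * d + 2 * k + 8 * M ^ 2 + 6 * M + 2)
      (fun i => (f i : ℚ)) from funext hp']
  · refine ⟨∅, le_rfl, 1, le_rfl, Parts.one fun i hi => ?_⟩
    have h1 := occ_le_of_mem_subs hF i
    have h2 := h i
    by_contra hc
    apply hi
    right
    change F.occ i = E.occ i
    omega

end Pool.Agent.J6H25.PIT.BlackBoxBoundedOverlap
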