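import Pool.Agent.J6H25.PIT.Dec

/-!
# Deterministic identity testing for arithmetic expressions of bounded overlap

`Ex` is the type of arithmetic expressions (variables `x₀, x₁, …`, rational constants in binary,
`+`, `-`, `×`), `E.poly` the polynomial defined by `E`, `E.occ i` the number of occurrences of `x i`
in `E`, `E.subs` the list of the subexpressions of `E` (`E` included).

`Parts W m F`: the expression `F` is obtained by additions and subtractions from `m` subexpressions
in each of which every variable which is not in `W` occurs at most once.

`Narrow M k E`: for every subexpression `F` of `E` there is a set `Z` of at most `k` variables such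
that `F` is obtained by additions and subtractions from at most `M` subexpressions, in each of which
every variable occurs at most once, except for the variables of `Z` and the variables all of whose
occurrences in `E` are in `F`.

`InPP P` : the language of the codes of the objects with the property `P` is decided by a
deterministic Turing machine in polynomial time; expressions are coded as strings in reverse Polish
notation.

For all `M` and `k`, the expressions with `Narrow M k` can be recognised in polynomial time, and
it can be decided in polynomial time whether they define a polynomial different from zero.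
No multilinearity is assumed, and the number of occurrences of the variables is not bounded.
For `M = 1` the condition says that every subexpression `F` has at most `k` variables which occur at
least twice in `F` and also outside of `F`.
-/

set_option autoImplicit false

namespace Pool.Agent.J6H25.PIT.BoundedOverlap

open Pool.Agent.NPC Pool.Agent.J6H25.PIT

theorem narrow_zero {k : ℕ} {E : Ex} : ¬ Narrow 0 k E := by
  intro h
  obtain ⟨Z, -, m, hm, hP⟩ := h E E.mem_subs_self
  have := hP.pos
  omega

theorem parts_one_iff {W : Set ℕ} {m : ℕ} (hm : m ≤ 1) {F : Ex} (h : Parts W m F) :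
    ∀ i ∉ W, F.occ i ≤ 1 := by
  cases h with
  | one h => exact h
  | add h h' => have := h.pos; have := h'.pos; omega
  | sub h h' => have := h.pos; have := h'.pos; omega

theorem finite_overlap (E F : Ex) : {i : ℕ | 2 ≤ F.occ i ∧ F.occ i < E.occ i}.Finite := by
  refine (F.vlist.toFinset.finite_toSet).subset fun i hi => ?_
  rw [Finset.mem_coe, List.mem_toFinset, Ex.mem_vlist]
  have := hi.1
  omega

theorem narrow_one_iff {k : ℕ} {E : Ex} : Narrow 1 k E ↔
    ∀ F ∈ E.subs, {i : ℕ | 2 ≤ F.occ i ∧ F.occ i < E.occ i}.ncard ≤ k := by
  unfold Narrow
  refine forall₂_congr fun F hF => ?_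
  constructor
  · rintro ⟨Z, hZ, m, hm, hP⟩
    have h := parts_one_iff hm hP
    have hsub : {i : ℕ | 2 ≤ F.occ i ∧ F.occ i < E.occ i} ⊆ (Z : Set ℕ) := by
      intro i hi
      by_contra hc
      have := h i (by
        rintro (h1 | h1)
        · exact hc h1
        · have := hi.2
          simp only [Set.mem_ofPred_eq] at h1
          omega)
      have := hi.1
      omega
    refine (Set.ncard_le_ncard hsub (Finset.finite_toSet Z)).trans ?_
    rwa [Set.ncard_coe_finset]
  · intro h
    refine ⟨(finite_overlap E F).toFinset, ?_, 1, le_rfl, Parts.one fun i hi => ?_⟩
    · rwa [← Set.ncard_eq_toFinset_card _ (finite_overlap E F)]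
    · by_contra hc
      apply hi
      have h1 := occ_le_of_mem_subs hF i
      by_cases h2 : F.occ i = E.occ i
      · exact Or.inr h2
      · left
        rw [Finset.mem_coe, Set.Finite.mem_toFinset]
        exact ⟨by omega, by omega⟩

theorem narrow_of_sum {M m : ℕ} (hm : m ≤ M) {E : Ex} (h : Parts ∅ m E) :
    ∀ F ∈ E.subs, ∃ n ≤ M, Parts ∅ n F := by
  induction h with
  | @one E h =>
    intro F hF
    exact ⟨1, hm, Parts.one fun i hi => (occ_le_of_mem_subs hF i).trans (h i hi)⟩
  | @add m n s t hs ht ihs iht =>
    intro F hF
    have := hs.pos
    have := ht.pos
    simp only [Ex.subs, List.mem_cons, List.mem_append] at hF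
    rcases hF with rfl | hF | hF
    · exact ⟨_, hm, hs.add ht⟩
    · exact ihs (by omega) F hF
    · exact iht (by omega) F hF
  | @sub m n s t hs ht ihs iht =>
    intro F hF
    have := hs.pos
    have := ht.pos
    simp only [Ex.subs, List.mem_cons, List.mem_append] at hF
    rcases hF with rfl | hF | hF
    · exact ⟨_, hm, hs.sub ht⟩
    · exact ihs (by omega) F hF
    · exact iht (by omega) F hF

/-- **Identity testing for arithmetic expressions of bounded overlap.** For all `M` and `k`, the
arithmetic expressions `E` with `Narrow M k E` can be recognised in deterministic polynomial time,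
and among them those which define a polynomial different from zero (and those which define the
polynomial zero) as well. For `M = 1` the condition says that every subexpression `F` of `E` has at
most `k` variables which occur at least twice in `F` and at least once outside of `F`; and the
condition is satisfied for `k = 0` by all sums and differences of at most `M` expressions in each
of which every variable occurs at most once. -/
theorem result :
    (∀ M k : ℕ, InPP (fun E : Ex => Narrow M k E) ∧
      InPP (fun E : Ex => Narrow M k E ∧ E.poly ≠ 0) ∧
      InPP (fun E : Ex => Narrow M k E ∧ E.poly = 0)) ∧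
    (∀ (k : ℕ) (E : Ex), Narrow 1 k E ↔
      ∀ F ∈ E.subs, {i : ℕ | 2 ≤ F.occ i ∧ F.occ i < E.occ i}.ncard ≤ k) ∧
    (∀ (M : ℕ) (E : Ex), (∃ m ≤ M, Parts ∅ m E) → Narrow M 0 E) := by
  refine ⟨fun M k => ⟨?_, ?_, ?_⟩, fun k E => narrow_one_iff, fun M E h F hF => ?_⟩
  · exact inPP_of (d := fun E => narb M k E) (by fun_prop) fun E => narb_iff.symm
  · rcases Nat.eq_zero_or_pos M with rfl | hM
    · exact inPP_of (d := fun _ : Ex => false) (by fun_prop) fun E => by simp [narrow_zero]
    · refine inPP_of (d := fun E => narb M k E && fint k (RR M k) E) (by fun_prop) fun E => ?_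
      rw [Bool.and_eq_true, narb_iff]
      exact and_congr_right fun h => (fint_iff hM h).symm
  · rcases Nat.eq_zero_or_pos M with rfl | hM
    · exact inPP_of (d := fun _ : Ex => false) (by fun_prop) fun E => by simp [narrow_zero]
    · refine inPP_of (d := fun E => narb M k E && !fint k (RR M k) E) (by fun_prop) fun E => ?_
      rw [Bool.and_eq_true, narb_iff, Bool.not_eq_true', ← Bool.not_eq_true]
      exact and_congr_right fun h => by rw [fint_iff hM h, not_not]
  · obtain ⟨m, hm, h⟩ := h
    obtain ⟨n, hn, h'⟩ := narrow_of_sum hm h F hF
    exact ⟨∅, le_rfl, n, hn, h'.mono fun i hi => absurd hi (Set.notMem_empty i)⟩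

end Pool.Agent.J6H25.PIT.BoundedOverlap
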