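import Pool.Agent.H671R2.CK.K4
import Pool.Agent.H670R2.RatDec

/-!
# Arithmetic expressions

* `Ex` : arithmetic expressions with rational constants and the variables `x₀, x₁, …`;
* `Ex.poly` : the polynomial defined by an expression;
* `Ex.occ i E` : the number of occurrences of the variable `x i` in `E`;
* `Ex.subs E` : the subexpressions of `E`;
* `Overlap k E` : every subexpression `F` of `E` has at most `k` variables which occur at least
  twice in `F` and at least once in `E` outside of `F`.

Expressions are encoded as strings in reverse Polish notation.
-/

set_option autoImplicit false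

namespace Pool.Agent.J6H25.PIT

open Pool.Agent.NPC

/-- The operations of arithmetic expressions. -/
inductive Op : Type
  | add : Op
  | sub : Op
  | mul : Op
  deriving DecidableEq, Inhabited

/-- The value of an operation. -/
def Op.ap {R : Type} [CommRing R] : Op → R → R → R
  | add, a, b => a + b
  | sub, a, b => a - b
  | mul, a, b => a * b

/-- Arithmetic expressions with rational constants. -/
inductive Ex : Type
  | var (i : ℕ) : Ex
  | num (q : ℚ) : Ex
  | op (o : Op) (s t : Ex) : Ex
  deriving DecidableEq, Inhabited

namespace Ex

/-- The polynomial defined by an expression. -/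
noncomputable def poly : Ex → MvPolynomial ℕ ℚ
  | var i => MvPolynomial.X i
  | num q => MvPolynomial.C q
  | op o s t => o.ap s.poly t.poly

/-- The number of occurrences of the variable `x i`. -/
def occ (i : ℕ) : Ex → ℕ
  | var j => if j = i then 1 else 0
  | num _ => 0
  | op _ s t => s.occ i + t.occ i

/-- The subexpressions of an expression (itself included). -/
def subs : Ex → List Ex
  | var i => [var i]
  | num q => [num q]
  | op o s t => op o s t :: (s.subs ++ t.subs)

end Ex

/-- Every subexpression `F` of `E` has at most `k` variables which occur at least twice in `F` and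
at least once in `E` outside of `F`. -/
def Overlap (k : ℕ) (E : Ex) : Prop :=
  ∀ F ∈ E.subs, {i : ℕ | 2 ≤ F.occ i ∧ F.occ i < E.occ i}.ncard ≤ k

/-- The symbols of reverse Polish notation. -/
inductive Tok : Type
  | var (i : ℕ) : Tok
  | num (q : ℚ) : Tok
  | op (o : Op) : Tok
  deriving DecidableEq, Inhabited

/-- The reverse Polish notation of an expression. -/
def Ex.toks : Ex → List Tok
  | var i => [Tok.var i]
  | num q => [Tok.num q]
  | op o s t => s.toks ++ t.toks ++ [Tok.op o]

/-- The code of an operation. -/
def Op.code : Op → ℕ
  | add => 0
  | sub => 1
  | mul => 2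

/-- The code of a symbol. -/
def Tok.code : Tok → ℕ ⊕ (ℚ ⊕ ℕ)
  | var i => Sum.inl i
  | num q => Sum.inr (Sum.inl q)
  | op o => Sum.inr (Sum.inr o.code)

theorem Op.code_injective : Function.Injective Op.code := by
  intro a b h
  cases a <;> cases b <;> simp [Op.code] at h ⊢

theorem Tok.code_injective : Function.Injective Tok.code := by
  intro a b h
  cases a <;> cases b <;> simp [Tok.code] at h ⊢
  · exact h
  · exact h
  · exact Op.code_injective h

instance : TEnc Op := ⟨fun o => toT o.code, fun _ _ h => Op.code_injective (TEnc.inj h)⟩

instance : TEnc Tok := ⟨fun t => toT t.code, fun _ _ h => Tok.code_injective (TEnc.inj h)⟩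

/-- The parser for reverse Polish notation, as a stack machine (with junk values on words that are
not well formed). -/
def pstep (st : List Ex) (t : Tok) : List Ex :=
  match t, st with
  | Tok.var i, st => Ex.var i :: st
  | Tok.num q, st => Ex.num q :: st
  | Tok.op o, b :: a :: st => Ex.op o a b :: st
  | _, _ => []

theorem Ex.parse (t : Ex) : ∀ st, t.toks.foldl pstep st = t :: st := by
  induction t with
  | var i => intro st; rfl
  | num q => intro st; rfl
  | op o s t ihs iht => intro st; simp [Ex.toks, ihs, iht, pstep]

theorem Ex.toks_injective : Function.Injective Ex.toks := by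
  intro φ ψ h
  have h1 := φ.parse []
  rw [h, ψ.parse] at h1
  simpa using h1.symm

/-- Expressions are encoded by their reverse Polish notation. -/
instance : TEnc Ex := ⟨fun φ => toT φ.toks, fun _ _ h => Ex.toks_injective (TEnc.inj h)⟩

end Pool.Agent.J6H25.PIT
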