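import Pool.Agent.J6H25.PIT.Defs

/-!
# Sums of few read-once expressions vanish if they vanish on points of small support
-/

set_option autoImplicit false

namespace Pool.Agent.J6H25.PIT

open Function (update)

namespace Ex

/-- the value of an expression -/
def eval (x : ℕ → ℚ) : Ex → ℚ
  | var i => x i
  | num q => q
  | op o s t => o.ap (s.eval x) (t.eval x)

theorem eval_poly (x : ℕ → ℚ) (E : Ex) : MvPolynomial.eval x E.poly = E.eval x := by
  induction E with
  | var i => simp [poly, eval]
  | num q => simp [poly, eval]
  | op o s t ihs iht => cases o <;> simp [poly, eval, Op.ap, ihs, iht]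

theorem mem_subs_self (E : Ex) : E ∈ E.subs := by
  cases E <;> simp [subs]

theorem subs_trans {E F G : Ex} (h : F ∈ E.subs) (h' : G ∈ F.subs) : G ∈ E.subs := by
  induction E with
  | var i => simp only [subs, List.mem_singleton] at h; subst h; exact h'
  | num i => simp only [subs, List.mem_singleton] at h; subst h; exact h'
  | op o s t ihs iht =>
    simp only [subs, List.mem_cons, List.mem_append] at h ⊢
    rcases h with rfl | h | h
    · simpa only [subs, List.mem_cons, List.mem_append] using h'
    · exact Or.inr (Or.inl (ihs h))
    · exact Or.inr (Or.inr (iht h))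

/-- the value depends only on the variables which occur -/
theorem eval_congr {x y : ℕ → ℚ} {E : Ex} (h : ∀ i, E.occ i ≠ 0 → x i = y i) :
    E.eval x = E.eval y := by
  induction E with
  | var i => exact h i (by simp [occ])
  | num q => rfl
  | op o s t ihs iht =>
    simp only [eval]
    rw [ihs fun i hi => h i (by simp only [occ]; omega),
      iht fun i hi => h i (by simp only [occ]; omega)]

/-- in a variable which occurs at most once the value is affine -/
theorem eval_affine {E : Ex} {i : ℕ} (h : E.occ i ≤ 1) (x : ℕ → ℚ) (u : ℚ) :
    E.eval (update x i u) = E.eval (update x i 0) +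
      u * (E.eval (update x i 1) - E.eval (update x i 0)) := by
  induction E with
  | var j =>
    by_cases hj : j = i
    · subst hj; simp [eval]
    · simp [eval, hj]
  | num q => simp [eval]
  | op o s t ihs iht =>
    simp only [occ] at h
    have hs := ihs (by omega)
    have ht := iht (by omega)
    by_cases h0 : s.occ i = 0
    · have e : ∀ v, s.eval (update x i v) = s.eval (update x i 0) := fun v =>
        eval_congr fun j hj => by
          have : j ≠ i := by rintro rfl; exact hj h0
          simp [this]
      simp only [eval]
      rw [e u, e 1, ht]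
      cases o <;> simp only [Op.ap] <;> ring
    · have h0' : t.occ i = 0 := by omega
      have e : ∀ v, t.eval (update x i v) = t.eval (update x i 0) := fun v =>
        eval_congr fun j hj => by
          have : j ≠ i := by rintro rfl; exact hj h0'
          simp [this]
      simp only [eval]
      rw [e u, e 1, hs]
      cases o <;> simp only [Op.ap] <;> ring

/-- the partial derivative -/
def der (i : ℕ) : Ex → Ex
  | var j => num (if j = i then 1 else 0)
  | num _ => num 0
  | op Op.add s t => if s.occ i ≠ 0 then s.der i else t.der i
  | op Op.sub s t => if s.occ i ≠ 0 then s.der i else op Op.mul (num (-1)) (t.der i)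
  | op Op.mul s t => if s.occ i ≠ 0 then op Op.mul (s.der i) t else op Op.mul s (t.der i)

theorem eval_der {E : Ex} {i : ℕ} (h : E.occ i ≤ 1) (x : ℕ → ℚ) :
    (E.der i).eval x = E.eval (update x i (x i + 1)) - E.eval x := by
  induction E with
  | var j =>
    by_cases hj : j = i
    · subst hj; simp [eval, der]
    · simp [eval, der, hj]
  | num q => simp [eval, der]
  | op o s t ihs iht =>
    simp only [occ] at h
    have hs := ihs (by omega)
    have ht := iht (by omega)
    by_cases h0 : s.occ i = 0
    · have e : s.eval (update x i (x i + 1)) = s.eval x :=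
        eval_congr fun j hj => by
          have : j ≠ i := by rintro rfl; exact hj h0
          simp [this]
      cases o
      · simp only [der, h0, ne_eq, not_true_eq_false, if_false, ht, eval, Op.ap, e]; ring
      · simp only [der, h0, ne_eq, not_true_eq_false, if_false, ht, eval, Op.ap, e]; ring
      · simp only [der, h0, ne_eq, not_true_eq_false, if_false, ht, eval, Op.ap, e]; ring
    · have h0' : t.occ i = 0 := by omega
      have e : t.eval (update x i (x i + 1)) = t.eval x :=
        eval_congr fun j hj => by
          have : j ≠ i := by rintro rfl; exact hj h0'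
          simp [this]
      cases o
      · simp only [der, h0, ne_eq, not_false_eq_true, if_true, hs, eval, Op.ap, e]; ring
      · simp only [der, h0, ne_eq, not_false_eq_true, if_true, hs, eval, Op.ap, e]; ring
      · simp only [der, h0, ne_eq, not_false_eq_true, if_true, hs, eval, Op.ap, e]; ring

theorem occ_der_le (E : Ex) (i j : ℕ) : (E.der i).occ j ≤ E.occ j := by
  induction E with
  | var k => simp [der, occ]
  | num q => simp [der, occ]
  | op o s t ihs iht =>
    cases o <;> simp only [der] <;> split_ifs <;> simp only [occ] <;> omega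

end Ex

/-- the two points agree outside of `L` -/
def Off (L : Finset ℕ) (x y : ℕ → ℚ) : Prop := ∀ i, i ∉ L → y i = x i

/-- either the value at `x` is not zero, or the expression is zero on all points which agree with
`x` outside of `L` -/
def Pn (L : Finset ℕ) (x : ℕ → ℚ) (E : Ex) : Prop :=
  E.eval x ≠ 0 ∨ ∀ y, Off L x y → E.eval y = 0

/-- all subexpressions have the property `Pn` -/
def Gd (L : Finset ℕ) (x : ℕ → ℚ) (E : Ex) : Prop := ∀ F ∈ E.subs, Pn L x F

/-- the variables of `L` occur at most once -/
def RO (L : Finset ℕ) (E : Ex) : Prop := ∀ i ∈ L, E.occ i ≤ 1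

theorem Off.mono {L L' : Finset ℕ} (h : L' ⊆ L) {x y : ℕ → ℚ} (hy : Off L' x y) : Off L x y :=
  fun i hi => hy i fun h' => hi (h h')

theorem Pn.mono {L L' : Finset ℕ} (h : L' ⊆ L) {x : ℕ → ℚ} {E : Ex} (hE : Pn L x E) :
    Pn L' x E := hE.imp id fun h' y hy => h' y (hy.mono h)

theorem Gd.mono {L L' : Finset ℕ} (h : L' ⊆ L) {x : ℕ → ℚ} {E : Ex} (hE : Gd L x E) :
    Gd L' x E := fun F hF => (hE F hF).mono h

theorem RO.mono {L L' : Finset ℕ} (h : L' ⊆ L) {E : Ex} (hE : RO L E) : RO L' E :=
  fun i hi => hE i (h hi)

theorem Gd.self {L : Finset ℕ} {x : ℕ → ℚ} {E : Ex} (hE : Gd L x E) : Pn L x E :=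
  hE E E.mem_subs_self

theorem Gd.left {L : Finset ℕ} {x : ℕ → ℚ} {o : Op} {s t : Ex} (hE : Gd L x (Ex.op o s t)) :
    Gd L x s := fun F hF => hE F (by simp [Ex.subs, hF])

theorem Gd.right {L : Finset ℕ} {x : ℕ → ℚ} {o : Op} {s t : Ex} (hE : Gd L x (Ex.op o s t)) :
    Gd L x t := fun F hF => hE F (by simp [Ex.subs, hF])

theorem Gd.num {L : Finset ℕ} {x : ℕ → ℚ} (q : ℚ) : Gd L x (Ex.num q) := by
  intro F hF
  simp only [Ex.subs, List.mem_singleton] at hF
  subst hF
  by_cases hq : q = 0
  · exact Or.inr fun y _ => hq
  · exact Or.inl hq

theorem Gd.mul {L : Finset ℕ} {x : ℕ → ℚ} {s t : Ex} (hs : Gd L x s) (ht : Gd L x t) :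
    Gd L x (Ex.op Op.mul s t) := by
  intro F hF
  simp only [Ex.subs, List.mem_cons, List.mem_append] at hF
  rcases hF with rfl | hF | hF
  · rcases hs.self with h1 | h1
    · rcases ht.self with h2 | h2
      · exact Or.inl (mul_ne_zero h1 h2)
      · exact Or.inr fun y hy => by simp [Ex.eval, Op.ap, h2 y hy]
    · exact Or.inr fun y hy => by simp [Ex.eval, Op.ap, h1 y hy]
  · exact hs F hF
  · exact ht F hF

theorem Gd.der {L : Finset ℕ} {x : ℕ → ℚ} {E : Ex} (hE : Gd L x E) (i : ℕ) :
    Gd L x (E.der i) := by
  induction E with
  | var j => exact Gd.num _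
  | num q => exact Gd.num _
  | op o s t ihs iht =>
    have h1 := ihs hE.left
    have h2 := iht hE.right
    cases o <;> simp only [Ex.der] <;> split_ifs
    · exact h1
    · exact h2
    · exact h1
    · exact (Gd.num _).mul h2
    · exact h1.mul hE.right
    · exact hE.left.mul h2

theorem RO.der {L : Finset ℕ} {E : Ex} (hE : RO L E) (i : ℕ) : RO L (E.der i) :=
  fun j hj => (E.occ_der_le i j).trans (hE j hj)

/-- The derivative with respect to a variable which does not occur is zero. -/
theorem eval_der_of_occ {E : Ex} {i : ℕ} (h : E.occ i = 0) (x : ℕ → ℚ) :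
    (E.der i).eval x = 0 := by
  rw [Ex.eval_der (by omega), Ex.eval_congr (y := x), sub_self]
  intro j hj
  have : j ≠ i := by rintro rfl; exact hj h
  simp [this]

/-- **Factors.** If another variable of `L` occurs then with respect to one of these the derivative
has a factor which contains the variable `i`. -/
theorem exists_factor {L : Finset ℕ} {x : ℕ → ℚ} {i : ℕ} (hi : i ∈ L) {E : Ex} (hE : Gd L x E)
    (hR : RO L E) (hex : ∃ z ∈ L, z ≠ i ∧ E.occ z ≠ 0) :
    ∃ z ∈ L, z ≠ i ∧ E.occ z ≠ 0 ∧ ∃ (α δ : ℚ) (R : Ex), Gd L x R ∧ (∀ j, R.occ j ≤ E.occ j) ∧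
      R.occ i = 0 ∧ (α = 0 ∨ α * x i + δ ≠ 0) ∧
      ∀ y, Off L x y → (E.der z).eval y = (α * y i + δ) * R.eval y := by
  induction E with
  | var j =>
    obtain ⟨z, hz, hzi, h1⟩ := hex
    have hj : j = z := by
      by_contra h; simp [Ex.occ, h] at h1
    subst hj
    refine ⟨j, hz, hzi, h1, 0, 1, Ex.num 1, Gd.num _, fun k => by simp [Ex.occ], rfl, Or.inl rfl,
      fun y _ => by simp [Ex.der, Ex.eval]⟩
  | num q =>
    obtain ⟨z, hz, hzi, h1⟩ := hex
    simp [Ex.occ] at h1
  | op o s t ihs iht =>
    have hRs : RO L s := fun j hj => by have := hR j hj; simp only [Ex.occ] at this; omega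
    have hRt : RO L t := fun j hj => by have := hR j hj; simp only [Ex.occ] at this; omega
    have hRi := hR i hi
    simp only [Ex.occ] at hRi
    -- the case where `s` contains another variable and `t` does not contain `i`
    by_cases hs0 : s.occ i = 0
    · -- `i` is not in `s`
      by_cases ht1 : ∃ z ∈ L, z ≠ i ∧ t.occ z ≠ 0
      · obtain ⟨z, hz, hzi, hzt, α, δ, R, g1, g2, g3, g4, g5⟩ := iht hE.right hRt ht1
        have hzs : s.occ z = 0 := by have := hR z hz; simp only [Ex.occ] at this; omega
        refine ⟨z, hz, hzi, by simp only [Ex.occ]; omega, ?_⟩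
        cases o
        · refine ⟨α, δ, R, g1, fun j => by simp only [Ex.occ]; have := g2 j; omega, g3, g4,
            fun y hy => ?_⟩
          simp only [Ex.der, hzs, ne_eq, not_true_eq_false, if_false]
          exact g5 y hy
        · refine ⟨α, δ, Ex.op Op.mul (Ex.num (-1)) R, (Gd.num _).mul g1,
            fun j => by simp only [Ex.occ]; have := g2 j; omega, by simp [Ex.occ, g3], g4,
            fun y hy => ?_⟩
          simp only [Ex.der, hzs, ne_eq, not_true_eq_false, if_false, Ex.eval, Op.ap, g5 y hy]
          ring
        · refine ⟨α, δ, Ex.op Op.mul s R, hE.left.mul g1,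
            fun j => by simp only [Ex.occ]; have := g2 j; omega, by simp [Ex.occ, g3, hs0], g4,
            fun y hy => ?_⟩
          simp only [Ex.der, hzs, ne_eq, not_true_eq_false, if_false, Ex.eval, Op.ap, g5 y hy]
          ring
      · -- `t` depends at most on `i`
        obtain ⟨z, hz, hzi, h1⟩ := hex
        have hzt : t.occ z = 0 := by
          by_contra h; exact ht1 ⟨z, hz, hzi, h⟩
        have hzs : s.occ z ≠ 0 := by simp only [Ex.occ] at h1; omega
        refine ⟨z, hz, hzi, h1, ?_⟩
        cases o
        · refine ⟨0, 1, s.der z, hE.left.der z, fun j => by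
            simp only [Ex.occ]; have := s.occ_der_le z j; omega,
            by have := s.occ_der_le z i; omega, Or.inl rfl, fun y hy => ?_⟩
          simp [Ex.der, hzs]
        · refine ⟨0, 1, s.der z, hE.left.der z, fun j => by
            simp only [Ex.occ]; have := s.occ_der_le z j; omega,
            by have := s.occ_der_le z i; omega, Or.inl rfl, fun y hy => ?_⟩
          simp [Ex.der, hzs]
        · -- the value of `t` is an affine function of `y i`
          have hta : ∀ y, Off L x y → t.eval y =
              (t.eval (update x i 1) - t.eval (update x i 0)) * y i + t.eval (update x i 0) := by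
            intro y hy
            have h2 : t.eval y = t.eval (update x i (y i)) := by
              refine Ex.eval_congr fun j hj => ?_
              by_cases hji : j = i
              · subst hji; simp
              · by_cases hjL : j ∈ L
                · exact absurd ⟨j, hjL, hji, hj⟩ ht1
                · simp [hji, hy j hjL]
            rw [h2, Ex.eval_affine (hRt i hi)]
            ring
          refine ⟨t.eval (update x i 1) - t.eval (update x i 0), t.eval (update x i 0),
            s.der z, hE.left.der z, fun j => by
            simp only [Ex.occ]; have := s.occ_der_le z j; omega,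
            by have := s.occ_der_le z i; omega, ?_, fun y hy => ?_⟩
          · rcases hE.right.self with h3 | h3
            · right
              rw [← hta x fun _ _ => rfl]
              exact h3
            · left
              have hoff : ∀ v, Off L x (update x i v) := fun v j hj => by
                have : j ≠ i := by rintro rfl; exact hj hi
                simp [this]
              rw [h3 _ (hoff 1), h3 _ (hoff 0), sub_self]
          · simp only [Ex.der, hzs, ne_eq, not_false_eq_true, if_true, Ex.eval, Op.ap]
            rw [hta y hy]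
            ring
    · -- `i` is in `s`, not in `t`
      have ht0 : t.occ i = 0 := by omega
      by_cases hs1 : ∃ z ∈ L, z ≠ i ∧ s.occ z ≠ 0
      · obtain ⟨z, hz, hzi, hzs, α, δ, R, g1, g2, g3, g4, g5⟩ := ihs hE.left hRs hs1
        refine ⟨z, hz, hzi, by simp only [Ex.occ]; omega, ?_⟩
        cases o
        · refine ⟨α, δ, R, g1, fun j => by simp only [Ex.occ]; have := g2 j; omega, g3, g4,
            fun y hy => ?_⟩
          simp only [Ex.der, hzs, ne_eq, not_false_eq_true, if_true]
          exact g5 y hy
        · refine ⟨α, δ, R, g1, fun j => by simp only [Ex.occ]; have := g2 j; omega, g3, g4,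
            fun y hy => ?_⟩
          simp only [Ex.der, hzs, ne_eq, not_false_eq_true, if_true]
          exact g5 y hy
        · refine ⟨α, δ, Ex.op Op.mul R t, g1.mul hE.right,
            fun j => by simp only [Ex.occ]; have := g2 j; omega, by simp [Ex.occ, g3, ht0], g4,
            fun y hy => ?_⟩
          simp only [Ex.der, hzs, ne_eq, not_false_eq_true, if_true, Ex.eval, Op.ap, g5 y hy]
          ring
      · -- `s` depends at most on `i`
        obtain ⟨z, hz, hzi, h1⟩ := hex
        have hzs : s.occ z = 0 := by
          by_contra h; exact hs1 ⟨z, hz, hzi, h⟩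
        have hzt : t.occ z ≠ 0 := by simp only [Ex.occ] at h1; omega
        refine ⟨z, hz, hzi, h1, ?_⟩
        cases o
        · refine ⟨0, 1, t.der z, hE.right.der z, fun j => by
            simp only [Ex.occ]; have := t.occ_der_le z j; omega,
            by have := t.occ_der_le z i; omega, Or.inl rfl, fun y hy => ?_⟩
          simp [Ex.der, hzs]
        · refine ⟨0, 1, Ex.op Op.mul (Ex.num (-1)) (t.der z), (Gd.num _).mul (hE.right.der z),
            fun j => by
              simp only [Ex.occ]; have := t.occ_der_le z j; omega,
            by have := t.occ_der_le z i; simp only [Ex.occ]; omega, Or.inl rfl, fun y hy => ?_⟩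
          simp [Ex.der, hzs]
        · have hsa : ∀ y, Off L x y → s.eval y =
              (s.eval (update x i 1) - s.eval (update x i 0)) * y i + s.eval (update x i 0) := by
            intro y hy
            have h2 : s.eval y = s.eval (update x i (y i)) := by
              refine Ex.eval_congr fun j hj => ?_
              by_cases hji : j = i
              · subst hji; simp
              · by_cases hjL : j ∈ L
                · exact absurd ⟨j, hjL, hji, hj⟩ hs1
                · simp [hji, hy j hjL]
            rw [h2, Ex.eval_affine (hRs i hi)]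
            ring
          refine ⟨s.eval (update x i 1) - s.eval (update x i 0), s.eval (update x i 0),
            t.der z, hE.right.der z, fun j => by
            simp only [Ex.occ]; have := t.occ_der_le z j; omega,
            by have := t.occ_der_le z i; omega, ?_, fun y hy => ?_⟩
          · rcases hE.left.self with h3 | h3
            · right
              rw [← hsa x fun _ _ => rfl]
              exact h3
            · left
              have hoff : ∀ v, Off L x (update x i v) := fun v j hj => by
                have : j ≠ i := by rintro rfl; exact hj hi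
                simp [this]
              rw [h3 _ (hoff 1), h3 _ (hoff 0), sub_self]
          · simp only [Ex.der, hzs, ne_eq, not_true_eq_false, if_false, Ex.eval, Op.ap]
            rw [hsa y hy]

/-- The same without the assumption that another variable occurs. -/
theorem exists_factor' {L : Finset ℕ} {x : ℕ → ℚ} {i : ℕ} (hi : i ∈ L) (hL : 2 ≤ L.card)
    {E : Ex} (hE : Gd L x E) (hR : RO L E) :
    ∃ z ∈ L, z ≠ i ∧ ∃ (α δ : ℚ) (R : Ex), Gd L x R ∧ RO L R ∧
      R.occ i = 0 ∧ (α = 0 ∨ α * x i + δ ≠ 0) ∧
      ∀ y, Off L x y → (E.der z).eval y = (α * y i + δ) * R.eval y := by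
  by_cases hex : ∃ z ∈ L, z ≠ i ∧ E.occ z ≠ 0
  · obtain ⟨z, hz, hzi, -, α, δ, R, g1, g2, g3, g4, g5⟩ := exists_factor hi hE hR hex
    exact ⟨z, hz, hzi, α, δ, R, g1, fun j hj => (g2 j).trans (hR j hj), g3, g4, g5⟩
  · obtain ⟨z, hz, hzi⟩ : ∃ z ∈ L, z ≠ i := Finset.exists_mem_ne (by omega) i
    refine ⟨z, hz, hzi, 0, 0, Ex.num 0, Gd.num _, fun j _ => by simp [Ex.occ], rfl, Or.inl rfl,
      fun y _ => ?_⟩
    rw [eval_der_of_occ (by by_contra h; exact hex ⟨z, hz, hzi, h⟩)]
    simp

end Pool.Agent.J6H25.PIT
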