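import Pool.Agent.J6H25.PIT.Hard

/-!
# Hardness of representation and points of small support
-/

set_option autoImplicit false

namespace Pool.Agent.J6H25.PIT

open Function (update)

/-- linear combination of expressions -/
def sumU (us : List (ℚ × Ex)) (y : ℕ → ℚ) : ℚ := (us.map fun t => t.1 * t.2.eval y).sum

/-- sum of expressions with factors which are affine in one variable -/
def sumF (i : ℕ) (fs : List (ℚ × ℚ × Ex)) (y : ℕ → ℚ) : ℚ :=
  (fs.map fun t => (t.1 * y i + t.2.1) * t.2.2.eval y).sum

@[simp] theorem sumU_nil (y : ℕ → ℚ) : sumU [] y = 0 := rfl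

@[simp] theorem sumU_cons (t : ℚ × Ex) (us : List (ℚ × Ex)) (y : ℕ → ℚ) :
    sumU (t :: us) y = t.1 * t.2.eval y + sumU us y := by simp [sumU]

@[simp] theorem sumF_nil (i : ℕ) (y : ℕ → ℚ) : sumF i [] y = 0 := rfl

@[simp] theorem sumF_cons (i : ℕ) (t : ℚ × ℚ × Ex) (us : List (ℚ × ℚ × Ex)) (y : ℕ → ℚ) :
    sumF i (t :: us) y = (t.1 * y i + t.2.1) * t.2.2.eval y + sumF i us y := by simp [sumF]

theorem sumU_der {z : ℕ} (us : List (ℚ × Ex)) (h : ∀ t ∈ us, t.2.occ z ≤ 1) (y : ℕ → ℚ) :
    sumU (us.map fun t => (t.1, t.2.der z)) y = sumU us (update y z (y z + 1)) - sumU us y := by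
  induction us with
  | nil => simp
  | cons t us ih =>
    simp only [List.map_cons, sumU_cons]
    rw [ih fun t ht => h t (List.mem_cons_of_mem _ ht), Ex.eval_der (h t List.mem_cons_self)]
    ring

theorem sumF_der {i z : ℕ} (hz : z ≠ i) (fs : List (ℚ × ℚ × Ex))
    (h : ∀ t ∈ fs, t.2.2.occ z ≤ 1) (y : ℕ → ℚ) :
    sumF i (fs.map fun t => (t.1, t.2.1, t.2.2.der z)) y =
      sumF i fs (update y z (y z + 1)) - sumF i fs y := by
  induction fs with
  | nil => simp
  | cons t us ih =>
    simp only [List.map_cons, sumF_cons]
    rw [ih fun t ht => h t (List.mem_cons_of_mem _ ht), Ex.eval_der (h t List.mem_cons_self),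
      Function.update_of_ne hz.symm]
    ring

theorem prod_update_erase {L : Finset ℕ} {z : ℕ} (hz : z ∈ L) (x y : ℕ → ℚ) (u : ℚ) :
    ∏ j ∈ L, (update y z u j - x j) = (u - x z) * ∏ j ∈ L.erase z, (y j - x j) := by
  rw [← Finset.mul_prod_erase L _ hz, Function.update_self]
  congr 1
  refine Finset.prod_congr rfl fun j hj => ?_
  rw [Function.update_of_ne (Finset.ne_of_mem_erase hj)]

theorem Off.update {L : Finset ℕ} {z : ℕ} (hz : z ∈ L) {x y : ℕ → ℚ} (hy : Off (L.erase z) x y)
    (u : ℚ) : Off L x (update y z u) := by
  intro j hj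
  have hjz : j ≠ z := by rintro rfl; exact hj hz
  rw [Function.update_of_ne hjz]
  exact hy j fun h => hj (Finset.mem_of_mem_erase h)

/-- condition on the terms with factors -/
def FF (L : Finset ℕ) (x : ℕ → ℚ) (i : ℕ) (t : ℚ × ℚ × Ex) : Prop :=
  Gd L x t.2.2 ∧ RO L t.2.2 ∧ t.2.2.occ i = 0 ∧ (t.1 = 0 ∨ t.1 * x i + t.2.1 ≠ 0)

/-- The derivatives which create the factors. -/
theorem process (x : ℕ → ℚ) (i : ℕ) (C : ℚ) : ∀ (n : ℕ) (us : List (ℚ × Ex)), us.length = n →
    ∀ (fs : List (ℚ × ℚ × Ex)) (L : Finset ℕ), i ∈ L → n + 1 ≤ L.card →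
    (∀ t ∈ us, Gd L x t.2 ∧ RO L t.2) → (∀ t ∈ fs, FF L x i t) →
    (∀ y, Off L x y → sumU us y + sumF i fs y = C * ∏ j ∈ L, (y j - x j)) →
    ∃ L' ⊆ L, i ∈ L' ∧ L.card ≤ L'.card + n ∧ ∃ fs' : List (ℚ × ℚ × Ex),
      fs'.length = n + fs.length ∧ (∀ t ∈ fs', FF L' x i t) ∧
      ∀ y, Off L' x y → sumF i fs' y = C * ∏ j ∈ L', (y j - x j) := by
  intro n
  induction n with
  | zero =>
    intro us hus fs L hi _ _ hfs heq
    obtain rfl : us = [] := List.length_eq_zero_iff.1 hus
    exact ⟨L, subset_rfl, hi, by omega, fs, by omega, hfs, fun y hy => by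
      simpa using heq y hy⟩
  | succ n ih =>
    intro us hus fs L hi hL hU hF heq
    obtain ⟨⟨c, E⟩, us, rfl⟩ : ∃ t us', us = t :: us' := by
      cases us with
      | nil => simp at hus
      | cons t us => exact ⟨t, us, rfl⟩
    have hE := hU (c, E) List.mem_cons_self
    obtain ⟨z, hz, hzi, α, δ, R, g1, g2, g3, g4, g5⟩ :=
      exists_factor' hi (by omega) hE.1 hE.2
    have hsub : L.erase z ⊆ L := Finset.erase_subset _ _
    have hcard : (L.erase z).card = L.card - 1 := Finset.card_erase_of_mem hz
    obtain ⟨L', hL', hiL', hc, fs', hlen, hff, heq'⟩ := ih (us.map fun t => (t.1, t.2.der z))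
      (by simpa using hus)
      ((c * α, c * δ, R) :: fs.map fun t => (t.1, t.2.1, t.2.2.der z)) (L.erase z)
      (Finset.mem_erase.2 ⟨hzi.symm, hi⟩) (by omega)
      (by
        intro t ht
        obtain ⟨s, hs, rfl⟩ := List.mem_map.1 ht
        have := hU s (List.mem_cons_of_mem _ hs)
        exact ⟨(this.1.der z).mono hsub, (this.2.der z).mono hsub⟩)
      (by
        intro t ht
        rcases List.mem_cons.1 ht with rfl | ht
        · refine ⟨g1.mono hsub, g2.mono hsub, g3, ?_⟩
          by_cases hc0 : c = 0
          · left; simp [hc0]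
          · rcases g4 with h | h
            · left; simp [h]
            · right
              have : c * α * x i + c * δ = c * (α * x i + δ) := by ring
              simp only [this]
              exact mul_ne_zero hc0 h
        · obtain ⟨s, hs, rfl⟩ := List.mem_map.1 ht
          obtain ⟨k1, k2, k3, k4⟩ := hF s hs
          exact ⟨(k1.der z).mono hsub, (k2.der z).mono hsub, by
            have := s.2.2.occ_der_le z i; simp only; omega, k4⟩)
      (by
        intro y hy
        have hyz : y z = x z := hy z (by simp)
        have h1 := heq _ (hy.update hz (y z + 1))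
        have h2 := heq y (hy.mono hsub)
        rw [prod_update_erase hz] at h1
        have h3 : ∏ j ∈ L, (y j - x j) = 0 := Finset.prod_eq_zero hz (by rw [hyz]; ring)
        rw [h3] at h2
        rw [sumU_der us (fun t ht => (hU t (List.mem_cons_of_mem _ ht)).2 z hz), sumF_cons,
          sumF_der hzi fs (fun t ht => (hF t ht).2.1 z hz)]
        simp only [sumU_cons] at h1 h2
        have h4 : c * (α * y i + δ) * R.eval y = c * (E.eval (update y z (y z + 1)) - E.eval y) := by
          rw [← Ex.eval_der (hE.2 z hz), g5 y (hy.mono hsub)]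
          ring
        have h5 : (c * α * y i + c * δ) * R.eval y = c * (α * y i + δ) * R.eval y := by ring
        rw [h5, h4]
        rw [hyz] at h1 ⊢
        linear_combination h1 - h2)
    refine ⟨L', hL'.trans hsub, hiL', by omega, fs', by rw [hlen]; simp; omega, hff, heq'⟩

/-- the bound for the hardness of representation -/
def NN : ℕ → ℕ
  | 0 => 0
  | m + 1 => NN m + m + 2

/-- **Hardness of representation.** A linear combination of `m` read-once expressions, all
subexpressions of which have the property `Pn`, is not a nonzero multiple of the product of all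
variables (shifted) of `L` if `L` has at least `NN m` elements. -/
theorem hard (x : ℕ → ℚ) : ∀ (m : ℕ) (us : List (ℚ × Ex)), us.length = m →
    ∀ (L : Finset ℕ), NN m ≤ L.card → (∀ t ∈ us, Gd L x t.2 ∧ RO L t.2) → ∀ C : ℚ,
    (∀ y, Off L x y → sumU us y = C * ∏ j ∈ L, (y j - x j)) → C = 0 := by
  intro m
  induction m with
  | zero =>
    intro us hus L _ _ C heq
    obtain rfl : us = [] := List.length_eq_zero_iff.1 hus
    have h := heq (fun j => if j ∈ L then x j + 1 else x j) (fun j hj => by simp [hj])
    have h1 : ∏ j ∈ L, ((fun j => if j ∈ L then x j + 1 else x j) j - x j) = 1 :=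
      Finset.prod_eq_one fun j hj => by simp [hj]
    rw [h1] at h
    simpa using h.symm
  | succ m ih =>
    intro us hus L hL hU C heq
    simp only [NN] at hL
    obtain ⟨i, hi⟩ : L.Nonempty := Finset.card_pos.1 (by omega)
    obtain ⟨L', hL', hiL', hc, fs, hlen, hff, heq'⟩ := process x i C (m + 1) us hus [] L hi
      (by omega) hU (by simp) (fun y hy => by simpa using heq y hy)
    obtain ⟨⟨α, δ, R⟩, fs, rfl⟩ : ∃ t fs', fs = t :: fs' := by
      cases fs with
      | nil => simp at hlen
      | cons t fs => exact ⟨t, fs, rfl⟩
    have hsub : L'.erase i ⊆ L' := Finset.erase_subset _ _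
    have hcard : (L'.erase i).card = L'.card - 1 := Finset.card_erase_of_mem hiL'
    have hfs : fs.length = m := by simpa using hlen
    obtain ⟨f1, f2, f3, f4⟩ := hff (α, δ, R) List.mem_cons_self
    simp only at f1 f2 f3 f4
    -- values of the expressions which do not contain `i`
    have hconst : ∀ t ∈ (α, δ, R) :: fs, ∀ (y : ℕ → ℚ) (u : ℚ),
        t.2.2.eval (update y i u) = t.2.2.eval y := by
      intro t ht y u
      refine Ex.eval_congr fun j hj => ?_
      have : j ≠ i := by rintro rfl; exact hj (hff t ht).2.2.1
      simp [this]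
    by_cases hα : α = 0
    · refine ih (fs.map fun t => (t.1, t.2.2)) (by simpa using hfs) (L'.erase i) (by omega) ?_ C ?_
      · intro t ht
        obtain ⟨s, hs, rfl⟩ := List.mem_map.1 ht
        obtain ⟨k1, k2, k3, k4⟩ := hff s (List.mem_cons_of_mem _ hs)
        exact ⟨k1.mono hsub, k2.mono hsub⟩
      · intro y hy
        have hyi : y i = x i := hy i (by simp)
        have h1 := heq' _ (hy.update hiL' (y i + 1))
        have h2 := heq' y (hy.mono hsub)
        rw [prod_update_erase hiL'] at h1
        have h3 : ∏ j ∈ L', (y j - x j) = 0 := Finset.prod_eq_zero hiL' (by rw [hyi]; ring)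
        rw [h3] at h2
        have h4 : ∀ gs : List (ℚ × ℚ × Ex), (∀ t ∈ gs, ∀ u : ℚ,
            t.2.2.eval (update y i u) = t.2.2.eval y) →
            sumF i gs (update y i (y i + 1)) = sumF i gs y +
              sumU (gs.map fun t => (t.1, t.2.2)) y := by
          intro gs
          induction gs with
          | nil => simp
          | cons t gs ihg =>
            intro hgs
            simp only [sumF_cons, List.map_cons, sumU_cons, Function.update_self]
            rw [ihg fun t ht => hgs t (List.mem_cons_of_mem _ ht),
              hgs t List.mem_cons_self]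
            ring
        have h5 := h4 ((α, δ, R) :: fs) (fun t ht u => hconst t ht y u)
        simp only [List.map_cons, sumU_cons, hα, zero_mul, zero_add] at h5 h1 h2
        rw [hyi] at h1 h5
        linear_combination h1 - h2 - h5
    · have hne : α * x i + δ ≠ 0 := f4.resolve_left hα
      have key : C * (-δ / α - x i) = 0 := by
        refine ih (fs.map fun t => (t.1 * (-δ / α) + t.2.1, t.2.2)) (by simpa using hfs)
          (L'.erase i) (by omega) ?_ _ ?_
        · intro t ht
          obtain ⟨s, hs, rfl⟩ := List.mem_map.1 ht
          obtain ⟨k1, k2, k3, k4⟩ := hff s (List.mem_cons_of_mem _ hs)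
          exact ⟨k1.mono hsub, k2.mono hsub⟩
        · intro y hy
          have h1 := heq' _ (hy.update hiL' (-δ / α))
          rw [prod_update_erase hiL'] at h1
          have h4 : ∀ gs : List (ℚ × ℚ × Ex), (∀ t ∈ gs, ∀ u : ℚ,
              t.2.2.eval (update y i u) = t.2.2.eval y) →
              sumF i gs (update y i (-δ / α)) =
                sumU (gs.map fun t => (t.1 * (-δ / α) + t.2.1, t.2.2)) y := by
            intro gs
            induction gs with
            | nil => simp
            | cons t gs ihg =>
              intro hgs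
              simp only [sumF_cons, List.map_cons, sumU_cons, Function.update_self]
              rw [ihg fun t ht => hgs t (List.mem_cons_of_mem _ ht),
                hgs t List.mem_cons_self]
          have h5 := h4 ((α, δ, R) :: fs) (fun t ht u => hconst t ht y u)
          simp only [List.map_cons, sumU_cons] at h5
          have h6 : α * (-δ / α) + δ = 0 := by field_simp; ring
          rw [h6, zero_mul, zero_add] at h5
          rw [← h5, h1]
          ring
      rcases mul_eq_zero.1 key with h | h
      · exact h
      · exfalso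
        apply hne
        have : α * (-δ / α - x i) = 0 := by rw [h, mul_zero]
        field_simp at this
        linear_combination -this

/-- A function which is affine in every variable of `M` and zero where one of these variables has
its base value. -/
theorem prod_formula {L : Finset ℕ} {x : ℕ → ℚ} {f : (ℕ → ℚ) → ℚ}
    (haff : ∀ i ∈ L, ∀ y u, f (update y i u) = f (update y i 0) +
      u * (f (update y i 1) - f (update y i 0)))
    (hzero : ∀ i ∈ L, ∀ y, Off L x y → y i = x i → f y = 0) :
    ∀ M ⊆ L, ∀ y, Off L x y → f y = (∏ j ∈ M, (y j - x j)) *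
      f (fun j => if j ∈ M then x j + 1 else y j) := by
  intro M
  induction M using Finset.induction_on with
  | empty => intro _ y _; simp
  | insert i M hiM ih =>
    intro hM y hy
    have hi : i ∈ L := hM (Finset.mem_insert_self _ _)
    have hy' : Off L x (fun j => if j ∈ M then x j + 1 else y j) := by
      intro j hj
      have : j ∉ M := fun h => hj (hM (Finset.mem_insert_of_mem h))
      simp [this, hy j hj]
    rw [ih (fun j hj => hM (Finset.mem_insert_of_mem hj)) y hy, Finset.prod_insert hiM]
    set w : ℕ → ℚ := fun j => if j ∈ M then x j + 1 else y j with hw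
    have hwi : w i = y i := by simp [hw, hiM]
    have h1 : f (update w i (x i)) = 0 := by
      refine hzero i hi _ ?_ (by simp)
      intro j hj
      have hji : j ≠ i := by rintro rfl; exact hj hi
      rw [Function.update_of_ne hji]
      exact hy' j hj
    have h2 : f w = (y i - x i) * f (update w i (x i + 1)) := by
      have e1 := haff i hi w (x i)
      have e2 := haff i hi w (x i + 1)
      have e3 := haff i hi w (w i)
      rw [Function.update_eq_self, hwi] at e3
      rw [h1] at e1
      rw [e3, e2]
      linear_combination (y i - x i - 1) * e1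
    have h3 : update w i (x i + 1) = fun j => if j ∈ insert i M then x j + 1 else y j := by
      funext j
      by_cases hji : j = i
      · subst hji; simp
      · simp [hji, hw]
    rw [h2, h3]
    ring

/-- **Points of small support.** A linear combination of `m` read-once expressions with the property
`Pn` which is zero at all points which differ from `x` in less than `NN m` variables of `L` is zero
at all points which differ from `x` only in variables of `L`. -/
theorem small_support (x : ℕ → ℚ) {m : ℕ} (hm : 1 ≤ m) {us : List (ℚ × Ex)} (hus : us.length = m) :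
    ∀ (n : ℕ) (L : Finset ℕ), L.card = n → (∀ t ∈ us, Gd L x t.2 ∧ RO L t.2) →
    (∀ S ⊆ L, S.card < NN m → ∀ y, Off S x y → sumU us y = 0) →
    ∀ y, Off L x y → sumU us y = 0 := by
  intro n
  induction n with
  | zero =>
    intro L hL hU hS y hy
    refine hS L subset_rfl ?_ y hy
    rw [hL]
    obtain ⟨k, rfl⟩ : ∃ k, m = k + 1 := ⟨m - 1, by omega⟩
    simp only [NN]
    omega
  | succ n ih =>
    intro L hL hU hS
    by_cases hc : L.card < NN m
    · exact hS L subset_rfl hc
    have hz : ∀ i ∈ L, ∀ y, Off L x y → y i = x i → sumU us y = 0 := by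
      intro i hi y hy hyi
      have hsub : L.erase i ⊆ L := Finset.erase_subset _ _
      refine ih (L.erase i) (by rw [Finset.card_erase_of_mem hi]; omega)
        (fun t ht => ⟨(hU t ht).1.mono hsub, (hU t ht).2.mono hsub⟩)
        (fun S hSL hSc => hS S (hSL.trans hsub) hSc) y ?_
      intro j hj
      by_cases hji : j = i
      · subst hji; exact hyi
      · exact hy j fun h => hj (Finset.mem_erase.2 ⟨hji, h⟩)
    have haff : ∀ i ∈ L, ∀ y u, sumU us (update y i u) = sumU us (update y i 0) +
        u * (sumU us (update y i 1) - sumU us (update y i 0)) := by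
      intro i hi y u
      have : ∀ vs : List (ℚ × Ex), (∀ t ∈ vs, t.2.occ i ≤ 1) →
          sumU vs (update y i u) = sumU vs (update y i 0) +
            u * (sumU vs (update y i 1) - sumU vs (update y i 0)) := by
        intro vs
        induction vs with
        | nil => simp
        | cons t vs ihv =>
          intro hvs
          simp only [sumU_cons]
          rw [ihv fun t ht => hvs t (List.mem_cons_of_mem _ ht),
            Ex.eval_affine (hvs t List.mem_cons_self)]
          ring
      exact this us fun t ht => (hU t ht).2 i hi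
    have hp := prod_formula haff hz
    have hC : sumU us (fun j => if j ∈ L then x j + 1 else x j) = 0 := by
      refine hard x m us hus L (by omega) hU _ fun y hy => ?_
      rw [hp L subset_rfl y hy, mul_comm]
      congr 2
      funext j
      by_cases hj : j ∈ L
      · simp [hj]
      · simp [hj, hy j hj]
    intro y hy
    rw [hp L subset_rfl y hy]
    have : (fun j => if j ∈ L then x j + 1 else y j) =
        fun j => if j ∈ L then x j + 1 else x j := by
      funext j
      by_cases hj : j ∈ L
      · simp [hj]
      · simp [hj, hy j hj]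
    rw [this, hC, mul_zero]

end Pool.Agent.J6H25.PIT
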