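import Pool.Agent.J6H25.PIT.Alg5

/-!
# Recursion on expressions in polynomial time
-/

set_option autoImplicit false

namespace Pool.Agent.J6H25.PIT

open Pool.Agent.NPC

section Fold

variable {β : Type}

/-- one step of the recursion with a stack -/
def fstep (v : ℕ → β) (n : ℚ → β) (o : Op → β → β → β) (st : List β) (t : Tok) : List β :=
  match t, st with
  | Tok.var i, st => v i :: st
  | Tok.num q, st => n q :: st
  | Tok.op f, b :: a :: st => o f a b :: st
  | _, _ => []

theorem foldl_fstep (v : ℕ → β) (n : ℚ → β) (o : Op → β → β → β) (E : Ex) :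
    ∀ st, E.toks.foldl (fstep v n o) st = E.fold v n o :: st := by
  induction E with
  | var i => intro st; rfl
  | num q => intro st; rfl
  | op f s t ihs iht => intro st; simp [Ex.toks, ihs, iht, fstep, Ex.fold]

theorem toks_pos (E : Ex) : 1 ≤ E.toks.length := by
  cases E <;> simp [Ex.toks] <;> omega

/-- the stack of the recursion consists of values of subexpressions -/
theorem foldl_fstep_take (v : ℕ → β) (n : ℚ → β) (o : Op → β → β → β) (E : Ex) :
    ∀ (k : ℕ) (st : List β), ∃ l : List Ex, l.length ≤ k ∧ (∀ F ∈ l, F ∈ E.subs) ∧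
      (E.toks.take k).foldl (fstep v n o) st = l.map (fun F => F.fold v n o) ++ st := by
  induction E with
  | var i =>
    intro k st
    cases k with
    | zero => exact ⟨[], by simp, by simp, by simp⟩
    | succ k => exact ⟨[Ex.var i], by simp, by simp [Ex.subs], by simp [Ex.toks, fstep, Ex.fold]⟩
  | num q =>
    intro k st
    cases k with
    | zero => exact ⟨[], by simp, by simp, by simp⟩
    | succ k => exact ⟨[Ex.num q], by simp, by simp [Ex.subs], by simp [Ex.toks, fstep, Ex.fold]⟩
  | op f s t ihs iht =>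
    intro k st
    have e : (Ex.op f s t).toks = s.toks ++ (t.toks ++ [Tok.op f]) := by simp [Ex.toks]
    by_cases h1 : k ≤ s.toks.length
    · obtain ⟨l, h2, h3, h4⟩ := ihs k st
      refine ⟨l, h2, fun F hF => by simp [Ex.subs, h3 F hF], ?_⟩
      rw [e, List.take_append_of_le_length h1, h4]
    · have hs := toks_pos s
      by_cases h2 : k - s.toks.length ≤ t.toks.length
      · obtain ⟨l, h5, h3, h4⟩ := iht (k - s.toks.length) (s.fold v n o :: st)
        refine ⟨l ++ [s], by rw [List.length_append, List.length_singleton]; omega, ?_, ?_⟩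
        · intro F hF
          rcases List.mem_append.1 hF with hF | hF
          · simp [Ex.subs, h3 F hF]
          · rw [List.mem_singleton] at hF
            subst hF
            simp [Ex.subs, Ex.mem_subs_self]
        · rw [e, List.take_append, List.take_of_length_le (by omega), List.foldl_append,
            foldl_fstep, List.take_append_of_le_length h2, h4]
          simp
      · refine ⟨[Ex.op f s t], by rw [List.length_singleton]; omega, by
          simp [Ex.subs], ?_⟩
        rw [List.take_of_length_le (by rw [e]; simp; omega), foldl_fstep]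
        rfl

end Fold

variable {α β γ : Type} [TEnc α] [TEnc β] [TEnc γ]

theorem poly_code {t : α → Tok} (ht : Poly t) : Poly (fun a => (t a).code) := ht

theorem poly_toks {e : α → Ex} (he : Poly e) : Poly (fun a => (e a).toks) := he

theorem poly_ocode {o : α → Op} (ho : Poly o) : Poly (fun a => (o a).code) := ho

/-- the operation with a given code -/
def Op.ofCode (n : ℕ) : Op := if n = 0 then Op.add else if n = 1 then Op.sub else Op.mul

theorem Op.ofCode_code (o : Op) : Op.ofCode o.code = o := by cases o <;> rfl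

theorem poly_ofCode {n : α → ℕ} (hn : Poly n) : Poly (fun a => Op.ofCode (n a)) := by
  unfold Op.ofCode
  exact Poly.ite (by fun_prop) (NPC.Poly.const _) (Poly.ite (by fun_prop) (NPC.Poly.const _)
    (NPC.Poly.const _))

theorem poly_tokvar {n : α → ℕ} (hn : Poly n) : Poly (fun a => Tok.var (n a)) :=
  Poly.of_toT ((Poly.toT' (Poly.inl (γ := ℚ ⊕ ℕ) hn)))

theorem poly_toknum {q : α → ℚ} (hq : Poly q) : Poly (fun a => Tok.num (q a)) :=
  Poly.of_toT ((Poly.toT' (Poly.inr (β := ℕ) (Poly.inl (γ := ℕ) hq))))

theorem poly_tokop {o : α → Op} (ho : Poly o) : Poly (fun a => Tok.op (o a)) :=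
  Poly.of_toT ((Poly.toT' (Poly.inr (β := ℕ) (Poly.inr (β := ℚ) (poly_ocode ho)))))

theorem poly_of_toks {e : α → Ex} (he : Poly (fun a => (e a).toks)) : Poly e := he

@[fun_prop]
theorem poly_var {n : α → ℕ} (hn : Poly n) : Poly (fun a => Ex.var (n a)) :=
  poly_of_toks (Poly.cons (poly_tokvar hn) (NPC.Poly.const []))

@[fun_prop]
theorem poly_num {q : α → ℚ} (hq : Poly q) : Poly (fun a => Ex.num (q a)) :=
  poly_of_toks (Poly.cons (poly_toknum hq) (NPC.Poly.const []))

@[fun_prop]
theorem poly_op {o : α → Op} {s t : α → Ex} (ho : Poly o) (hs : Poly s) (ht : Poly t) :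
    Poly (fun a => Ex.op (o a) (s a) (t a)) :=
  poly_of_toks (Poly.append (Poly.append (poly_toks hs) (poly_toks ht))
    (Poly.cons (poly_tokop ho) (NPC.Poly.const [])))

/-- case distinction on symbols -/
theorem poly_tokCases {t : α → Tok} {f : α → ℕ → γ} {g : α → ℚ → γ} {h : α → Op → γ}
    (ht : Poly t) (hf : Poly (fun p : α × ℕ => f p.1 p.2)) (hg : Poly (fun p : α × ℚ => g p.1 p.2))
    (hh : Poly (fun p : α × Op => h p.1 p.2)) :
    Poly (fun a => match t a with
      | Tok.var i => f a i
      | Tok.num q => g a q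
      | Tok.op o => h a o) := by
  have h1 : Poly (fun p : α × (ℚ ⊕ ℕ) => Sum.elim (g p.1) (fun n => h p.1 (Op.ofCode n)) p.2) := by
    refine Poly.sumElim (o := fun p : α × (ℚ ⊕ ℕ) => p.2) (g := fun p q => g p.1 q)
      (h := fun p n => h p.1 (Op.ofCode n)) (Poly.snd Poly.id) ?_ ?_
    · exact hg.comp (Poly.pair (Poly.fst (Poly.fst Poly.id)) (Poly.snd Poly.id))
    · exact hh.comp (Poly.pair (Poly.fst (Poly.fst Poly.id)) (poly_ofCode (Poly.snd Poly.id)))
  refine (Poly.sumElim (o := fun a => (t a).code) (g := f)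
    (h := fun a c => Sum.elim (g a) (fun n => h a (Op.ofCode n)) c) (poly_code ht) hf
    h1).congr fun a => ?_
  cases t a with
  | var i => rfl
  | num q => rfl
  | op o => simp only [Tok.code, Sum.elim_inr, Op.ofCode_code]

theorem poly_fstep {v : α → ℕ → β} {n : α → ℚ → β} {o : α → Op → β → β → β}
    (hv : Poly (fun p : α × ℕ => v p.1 p.2)) (hn : Poly (fun p : α × ℚ => n p.1 p.2))
    (ho : Poly (fun p : α × Op × β × β => o p.1 p.2.1 p.2.2.1 p.2.2.2)) :
    Poly (fun p : α × List β × Tok => fstep (v p.1) (n p.1) (o p.1) p.2.1 p.2.2) := by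
  refine (poly_tokCases (t := fun p : α × List β × Tok => p.2.2)
    (f := fun p i => v p.1 i :: p.2.1) (g := fun p q => n p.1 q :: p.2.1)
    (h := fun p f => match p.2.1 with
      | [] => []
      | b :: l => match l with
        | [] => []
        | a :: l' => o p.1 f a b :: l') (Poly.snd (Poly.snd Poly.id)) ?_ ?_ ?_).congr
    fun p => ?_
  · exact Poly.cons (hv.comp (Poly.pair (Poly.fst (Poly.fst Poly.id)) (Poly.snd Poly.id)))
      (Poly.fst (Poly.snd (Poly.fst Poly.id)))
  · exact Poly.cons (hn.comp (Poly.pair (Poly.fst (Poly.fst Poly.id)) (Poly.snd Poly.id)))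
      (Poly.fst (Poly.snd (Poly.fst Poly.id)))
  · refine Poly.listCases (l := fun p : (α × List β × Tok) × Op => p.1.2.1)
      (g := fun _ => ([] : List β)) (h := fun p b l => match l with
        | [] => []
        | a :: l' => o p.1.1 p.2 a b :: l') (Poly.fst (Poly.snd (Poly.fst Poly.id)))
      (NPC.Poly.const _) ?_
    refine Poly.listCases (l := fun p : ((α × List β × Tok) × Op) × β × List β => p.2.2)
      (g := fun _ => ([] : List β)) (h := fun p a l' => o p.1.1.1 p.1.2 a p.2.1 :: l')
      (Poly.snd (Poly.snd Poly.id)) (NPC.Poly.const _) ?_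
    exact Poly.cons (ho.comp (Poly.pair (Poly.fst (Poly.fst (Poly.fst (Poly.fst Poly.id))))
      (Poly.pair (Poly.snd (Poly.fst (Poly.fst Poly.id))) (Poly.pair (Poly.fst (Poly.snd Poly.id))
        (Poly.fst (Poly.snd (Poly.fst Poly.id))))))) (Poly.snd (Poly.snd Poly.id))
  · obtain ⟨a, l, t⟩ := p
    cases t with
    | var i => rfl
    | num q => rfl
    | op f =>
      rcases l with _ | ⟨b, _ | ⟨c, l⟩⟩ <;> rfl

/-- **Recursion in polynomial time.** -/
theorem poly_fold {e : α → Ex} {v : α → ℕ → β} {n : α → ℚ → β} {o : α → Op → β → β → β}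
    (he : Poly e) (hv : Poly (fun p : α × ℕ => v p.1 p.2))
    (hn : Poly (fun p : α × ℚ => n p.1 p.2))
    (ho : Poly (fun p : α × Op × β × β => o p.1 p.2.1 p.2.2.1 p.2.2.2)) (q : Polynomial ℕ)
    (hq : ∀ a, ∀ F ∈ (e a).subs, sz (F.fold (v a) (n a) (o a)) ≤ q.eval (sz a)) :
    Poly (fun a => (e a).fold (v a) (n a) (o a)) := by
  obtain ⟨r, hr⟩ := (poly_toks he).sz_le
  have h1 : Poly (fun a => (e a).toks.foldl (fstep (v a) (n a) (o a)) []) := by
    refine Poly.foldl (F := fun a st t => fstep (v a) (n a) (o a) st t) (poly_toks he)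
      (NPC.Poly.const []) (poly_fstep hv hn ho) (r * (q + Polynomial.C 1) + Polynomial.C 1) ?_
    intro a k hk
    obtain ⟨l, h2, h3, h4⟩ := foldl_fstep_take (v a) (n a) (o a) (e a) k []
    change sz (((e a).toks.take k).foldl (fstep (v a) (n a) (o a)) []) ≤ _
    rw [h4, List.append_nil]
    refine (sz_le_length_mul _ (q.eval (sz a)) ?_).trans ?_
    · intro b hb
      obtain ⟨F, hF, rfl⟩ := List.mem_map.1 hb
      exact hq a F (h3 F hF)
    · rw [List.length_map]
      simp only [Polynomial.eval_add, Polynomial.eval_mul, Polynomial.eval_C]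
      have h5 := length_lt_sz (e a).toks
      have h6 := hr a
      have h7 : l.length ≤ r.eval (sz a) := by omega
      have := Nat.mul_le_mul_right (q.eval (sz a) + 1) h7
      omega
  refine (Poly.optGetD (g := fun a => v a 0) (Poly.head? h1)
    (hv.comp (Poly.pair Poly.id (NPC.Poly.const 0)))).congr fun a => ?_
  rw [foldl_fstep]
  rfl

/-! ### Simple functions -/

theorem sz_ex (E : Ex) : sz E = sz E.toks := rfl

theorem toks_subs {E F : Ex} (h : F ∈ E.subs) : F.toks.Sublist E.toks := by
  induction E with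
  | var i => simp only [Ex.subs, List.mem_singleton] at h; rw [h]
  | num q => simp only [Ex.subs, List.mem_singleton] at h; rw [h]
  | op o s t ihs iht =>
    simp only [Ex.subs, List.mem_cons, List.mem_append] at h
    rcases h with h | h | h
    · rw [h]
    · simp only [Ex.toks]
      exact ((ihs h).trans (List.sublist_append_left _ _)).trans (List.sublist_append_left _ _)
    · simp only [Ex.toks]
      exact ((iht h).trans (List.sublist_append_right _ _)).trans (List.sublist_append_left _ _)

theorem sz_sublist {l l' : List β} (h : l.Sublist l') : sz l ≤ sz l' := by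
  induction h with
  | slnil => exact le_rfl
  | cons a _ ih => rw [sz_list_cons]; omega
  | cons_cons a _ ih => rw [sz_list_cons, sz_list_cons]; omega

theorem sz_subs {E F : Ex} (h : F ∈ E.subs) : sz F ≤ sz E := sz_sublist (toks_subs h)

theorem sz_op (o : Op) (s t : Ex) : sz s + sz t < sz (Ex.op o s t) := by
  rw [sz_ex, sz_ex, sz_ex]
  simp only [Ex.toks]
  have h1 := sz_append (s.toks ++ t.toks) [Tok.op o]
  have h2 := sz_append s.toks t.toks
  have h3 : sz [Tok.op o] = sz (Tok.op o) + 2 := by rw [sz_list_cons, sz_list_nil]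
  have := sz_pos (Tok.op o)
  omega

theorem vlist_eq_fold (E : Ex) : E.vlist = E.fold (fun i => [i]) (fun _ => []) (fun _ a b => a ++ b) := by
  induction E with
  | var i => rfl
  | num q => rfl
  | op o s t ihs iht => simp only [Ex.vlist, Ex.fold, ← ihs, ← iht]

theorem sz_vlist (E : Ex) : sz E.vlist ≤ sz E := by
  induction E with
  | var i =>
    rw [sz_ex]
    simp only [Ex.vlist, Ex.toks, sz_list_cons, sz_list_nil]
    have : sz (Tok.var i) = sz i + 2 := sz_inl (β := ℚ ⊕ ℕ) i
    omega
  | num q => exact sz_pos _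
  | op o s t ihs iht =>
    have h1 := sz_append s.vlist t.vlist
    have h2 := sz_op o s t
    simp only [Ex.vlist]
    omega

@[fun_prop]
theorem poly_vlist {e : α → Ex} (he : Poly e) : Poly (fun a => (e a).vlist) := by
  obtain ⟨r, hr⟩ := he.sz_le
  refine (poly_fold (v := fun _ i => [i]) (n := fun _ _ => ([] : List ℕ))
    (o := fun _ _ a b => a ++ b) he (by fun_prop) (by fun_prop) (by fun_prop) r ?_).congr
    fun a => (vlist_eq_fold _).symm
  intro a F hF
  rw [← vlist_eq_fold]
  exact (sz_vlist F).trans ((sz_subs hF).trans (hr a))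

theorem subs_eq_fold (E : Ex) : (E, E.subs) = E.fold (fun i => (Ex.var i, [Ex.var i]))
    (fun q => (Ex.num q, [Ex.num q]))
    (fun o a b => (Ex.op o a.1 b.1, Ex.op o a.1 b.1 :: (a.2 ++ b.2))) := by
  induction E with
  | var i => rfl
  | num q => rfl
  | op o s t ihs iht => simp only [Ex.subs, Ex.fold, ← ihs, ← iht]

theorem length_subs (E : Ex) : E.subs.length = E.toks.length := by
  induction E with
  | var i => rfl
  | num q => rfl
  | op o s t ihs iht => simp [Ex.subs, Ex.toks, ihs, iht]; omega

theorem sz_subs_list (E : Ex) : sz E.subs ≤ sz E * (sz E + 1) + 1 := by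
  refine (sz_le_length_mul _ (sz E) fun F hF => sz_subs hF).trans ?_
  have h1 := length_lt_sz E.toks
  have h2 : E.subs.length ≤ sz E := by rw [length_subs, sz_ex]; omega
  have := Nat.mul_le_mul_right (sz E + 1) h2
  omega

@[fun_prop]
theorem poly_subs {e : α → Ex} (he : Poly e) : Poly (fun a => (e a).subs) := by
  obtain ⟨r, hr⟩ := he.sz_le
  have h1 : Poly (fun a => ((e a), (e a).subs)) := by
    refine (poly_fold (v := fun _ i => (Ex.var i, [Ex.var i]))
      (n := fun _ q => (Ex.num q, [Ex.num q]))
      (o := fun _ o a b => (Ex.op o a.1 b.1, Ex.op o a.1 b.1 :: (a.2 ++ b.2))) he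
      (by fun_prop) (by fun_prop) (by fun_prop)
      (r + (r * (r + Polynomial.C 1) + Polynomial.C 1) + Polynomial.C 1) ?_).congr
      fun a => (subs_eq_fold _).symm
    intro a F hF
    rw [← subs_eq_fold, sz_pair]
    simp only [Polynomial.eval_add, Polynomial.eval_mul, Polynomial.eval_C]
    have h2 := (sz_subs hF).trans (hr a)
    have h3 := sz_subs_list F
    have h4 := Nat.mul_le_mul h2 (Nat.add_le_add_right h2 1)
    omega
  exact Poly.snd h1

end Pool.Agent.J6H25.PIT
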