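import Pool.Agent.J6H25.PIT.Time1

/-!
# The functions of the algorithm are computable in polynomial time
-/

set_option autoImplicit false

namespace Pool.Agent.J6H25.PIT

open Pool.Agent.NPC

variable {α β γ : Type} [TEnc α] [TEnc β] [TEnc γ]

attribute [fun_prop] Pool.Agent.CK.poly_zadd Pool.Agent.CK.poly_zsub Pool.Agent.CK.poly_zmul
  Pool.Agent.NPC.H670R2.poly_num Pool.Agent.NPC.H670R2.poly_den NPC.Poly.isSome

@[fun_prop]
theorem poly_look {ρ : α → Asg} {i : α → ℕ} (hρ : Poly ρ) (hi : Poly i) :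
    Poly (fun a => look (ρ a) (i a)) := by
  unfold look
  fun_prop

@[fun_prop]
theorem poly_qap {o : α → Op} {x y : α → Q} (ho : Poly o) (hx : Poly x) (hy : Poly y) :
    Poly (fun a => qap (o a) (x a) (y a)) := by
  unfold qap
  fun_prop

@[fun_prop]
theorem poly_isz {x : α → Option Q} (hx : Poly x) : Poly (fun a => isz (x a)) := by
  unfold isz
  fun_prop

@[fun_prop]
theorem poly_nz {x : α → Option Q} (hx : Poly x) : Poly (fun a => nz (x a)) := by
  unfold nz
  fun_prop

@[fun_prop]
theorem poly_so {o : α → Op} {x y : α → Option Q} (ho : Poly o) (hx : Poly x) (hy : Poly y) :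
    Poly (fun a => so (o a) (x a) (y a)) := by
  unfold so
  fun_prop

/-! ### Evaluation -/

/-- a bound for the numerator and the denominator -/
def Bd (N : ℕ) (x : Option Q) : Prop := ∀ a, x = some a → a.1.natAbs ≤ 2 ^ N ∧ a.2 ≤ 2 ^ N

theorem bd_so {c S T : ℕ} (hc : 1 ≤ c) {o : Op} {x y : Option Q} (hx : Bd (c * S) x)
    (hy : Bd (c * T) y) : Bd (c * (S + T + 1)) (so o x y) := by
  intro r hr
  unfold so at hr
  split_ifs at hr with h
  · simp only [Option.some.injEq] at hr
    subst hr
    exact ⟨Nat.zero_le _, Nat.one_le_two_pow⟩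
  · cases x with
    | none => simp at hr
    | some a =>
      cases y with
      | none => simp at hr
      | some b =>
        simp only [Option.elim_some, Option.some.injEq] at hr
        subst hr
        obtain ⟨a1, a2⟩ := hx a rfl
        obtain ⟨b1, b2⟩ := hy b rfl
        have e : 2 ^ (c * S) * 2 ^ (c * T) * 2 ≤ 2 ^ (c * (S + T + 1)) := by
          rw [← pow_add, ← pow_succ]
          refine Nat.pow_le_pow_right (by norm_num) ?_
          nlinarith
        have e1 := Nat.mul_le_mul a1 b1
        have e2 := Nat.mul_le_mul a2 b2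
        have e3 := Nat.mul_le_mul a1 b2
        have e4 := Nat.mul_le_mul b1 a2
        have e5 : 2 ^ (c * T) * 2 ^ (c * S) = 2 ^ (c * S) * 2 ^ (c * T) := mul_comm _ _
        have f1 : (a.1 * b.1).natAbs = a.1.natAbs * b.1.natAbs := Int.natAbs_mul _ _
        have f2 : (a.1 * b.2 + b.1 * a.2).natAbs ≤ a.1.natAbs * b.2 + b.1.natAbs * a.2 := by
          refine (Int.natAbs_add_le _ _).trans ?_
          rw [Int.natAbs_mul, Int.natAbs_mul, Int.natAbs_natCast, Int.natAbs_natCast]
        have f3 : (a.1 * b.2 - b.1 * a.2).natAbs ≤ a.1.natAbs * b.2 + b.1.natAbs * a.2 := by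
          refine (Int.natAbs_sub_le _ _).trans ?_
          rw [Int.natAbs_mul, Int.natAbs_mul, Int.natAbs_natCast, Int.natAbs_natCast]
        unfold qap
        split_ifs
        · exact ⟨by simp only; omega, by simp only; omega⟩
        · exact ⟨by simp only; omega, by simp only; omega⟩
        · exact ⟨by simp only; omega, by simp only; omega⟩

theorem nat_le_two_pow_sz (n : ℕ) {c : ℕ} (h : sz n ≤ c) : n ≤ 2 ^ c := by
  have h1 := size_le_sz n
  have h2 : n < 2 ^ n.size := Nat.lt_size_self n
  exact h2.le.trans (Nat.pow_le_pow_right (by norm_num) (by omega))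

theorem sz_of_look {ρ : Asg} {i v : ℕ} (h : look ρ i = some v) : sz v ≤ sz ρ := by
  unfold look at h
  obtain ⟨p, hp, hpv⟩ := Option.map_eq_some_iff.1 h
  have h1 := List.mem_of_mem_head? hp
  rw [List.mem_filter] at h1
  have h2 := sz_le_of_mem h1.1
  obtain ⟨a, b⟩ := p
  simp only at hpv
  subst hpv
  rw [sz_pair] at h2
  omega

theorem sz_int (x : ℤ) : sz x ≤ 4 + sz x.natAbs := by
  change sz (decide (x < 0), x.natAbs) ≤ _
  rw [sz_pair]
  have := sz_bool_le (decide (x < 0))
  omega

theorem sz_int' (x : ℤ) : sz x.natAbs ≤ sz x := by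
  change _ ≤ sz (decide (x < 0), x.natAbs)
  rw [sz_pair]
  omega

theorem sz_rat (q : ℚ) : sz q = sz q.num + sz q.den + 1 := by
  change sz (q.num, q.den) = _
  rw [sz_pair]

theorem bd_st (ρ : Asg) {c : ℕ} (hρ : sz ρ ≤ c) (E : Ex) (hE : sz E ≤ c) :
    Bd (c * E.toks.length) (st ρ E) := by
  have hc : 1 ≤ c := (sz_pos E).trans_le hE
  induction E with
  | var i =>
    intro a ha
    unfold st Ex.fold at ha
    obtain ⟨v, hv, rfl⟩ := Option.map_eq_some_iff.1 ha
    have h1 := nat_le_two_pow_sz v ((sz_of_look hv).trans hρ)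
    simp only [Ex.toks, List.length_singleton, mul_one, Int.natAbs_natCast]
    exact ⟨h1, Nat.one_le_two_pow⟩
  | num q =>
    intro a ha
    unfold st Ex.fold at ha
    simp only [Option.some.injEq] at ha
    subst ha
    simp only [Ex.toks, List.length_singleton, mul_one]
    have h1 : sz q ≤ sz (Ex.num q) := by
      rw [sz_ex]
      simp only [Ex.toks, sz_list_cons, sz_list_nil]
      have : sz (Tok.num q) = sz (Sum.inr (Sum.inl q) : ℕ ⊕ (ℚ ⊕ ℕ)) := rfl
      rw [this, sz_inr, sz_inl]
      omega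
    rw [sz_rat] at h1
    have h2 := sz_int' q.num
    exact ⟨nat_le_two_pow_sz _ (by omega), nat_le_two_pow_sz _ (by omega)⟩
  | op o s t ihs iht =>
    have h1 := sz_op o s t
    have h2 : (Ex.op o s t).toks.length = s.toks.length + t.toks.length + 1 := by
      simp [Ex.toks]; omega
    rw [h2]
    exact bd_so hc (ihs (by omega)) (iht (by omega))

theorem sz_of_bd {N : ℕ} {x : Option Q} (h : Bd N x) : sz x ≤ 8 * N + 26 := by
  cases x with
  | none => rw [sz_none]; omega
  | some a =>
    obtain ⟨h1, h2⟩ := h a rfl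
    obtain ⟨n, d⟩ := a
    rw [sz_some, sz_pair]
    simp only at h1 h2
    have e1 := sz_int n
    have e2 := sz_nat_le n.natAbs
    have e3 := sz_nat_le d
    have e4 : n.natAbs.size ≤ N + 1 := Nat.size_le.2 (h1.trans_lt (Nat.pow_lt_pow_right (by norm_num)
      (Nat.lt_succ_self N)))
    have e5 : d.size ≤ N + 1 := Nat.size_le.2 (h2.trans_lt (Nat.pow_lt_pow_right (by norm_num)
      (Nat.lt_succ_self N)))
    omega

theorem length_toks_le (E : Ex) : E.toks.length ≤ sz E := (length_lt_sz E.toks).le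

@[fun_prop]
theorem poly_st {ρ : α → Asg} {e : α → Ex} (hρ : Poly ρ) (he : Poly e) :
    Poly (fun a => st (ρ a) (e a)) := by
  obtain ⟨p, hp⟩ := hρ.sz_le
  obtain ⟨r, hr⟩ := he.sz_le
  unfold st
  refine poly_fold he (v := fun a i => (look (ρ a) i).map fun v : ℕ => (((v : ℤ), 1) : Q))
    (n := fun _ q => some (q.num, q.den)) (o := fun _ => so) (by fun_prop) (by fun_prop)
    (by fun_prop) (Polynomial.C 8 * ((p + r) * r) + Polynomial.C 26) ?_
  intro a F hF
  have h1 := (sz_subs hF).trans (hr a)
  have h2 : sz F ≤ p.eval (sz a) + r.eval (sz a) := by omega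
  have h3 := hp a
  have h4 := bd_st (ρ a) (c := p.eval (sz a) + r.eval (sz a)) (by omega) F h2
  refine (sz_of_bd h4).trans ?_
  simp only [Polynomial.eval_add, Polynomial.eval_mul, Polynomial.eval_C]
  have h5 := Nat.mul_le_mul_left (p.eval (sz a) + r.eval (sz a)) ((length_toks_le F).trans h1)
  omega

end Pool.Agent.J6H25.PIT
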