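import Pool.Agent.J6H25.PIT.Time2

/-!
# The functions of the algorithm are computable in polynomial time, part 2
-/

set_option autoImplicit false

namespace Pool.Agent.J6H25.PIT

open Pool.Agent.NPC

variable {α β γ : Type} [TEnc α] [TEnc β] [TEnc γ]

/-- `pts` with the list of the values -/
def pts' : ℕ → List ℕ → List ℕ → List Asg
  | 0, _, _ => [[]]
  | r + 1, W, R => pts' r W R ++ W.flatMap fun w => R.flatMap fun v =>
      (pts' r W R).map fun g => (w, v) :: g

theorem pts_eq (r : ℕ) (W : List ℕ) (D : ℕ) : pts r W D = pts' r W (List.range D) := by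
  induction r with
  | zero => rfl
  | succ r ih => rw [pts, pts', ih]

@[fun_prop]
theorem poly_pts' (r : ℕ) {W R : α → List ℕ} (hW : Poly W) (hR : Poly R) :
    Poly (fun a => pts' r (W a) (R a)) := by
  induction r with
  | zero => exact NPC.Poly.const _
  | succ r ih =>
    have h1 : Poly (fun a => (W a, (R a, pts' r (W a) (R a)))) := by fun_prop
    have h2 : Poly (fun p : List ℕ × List ℕ × List Asg => p.2.2 ++ p.1.flatMap fun w =>
        p.2.1.flatMap fun v => p.2.2.map fun g => (w, v) :: g) := by fun_prop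
    exact h2.comp h1

@[fun_prop]
theorem poly_pts (r : ℕ) {W : α → List ℕ} {D : α → ℕ} (hW : Poly W)
    (hR : Poly (fun a => List.range (D a))) : Poly (fun a => pts r (W a) (D a)) :=
  (poly_pts' r hW hR).congr fun _ => (pts_eq _ _ _).symm

/-- `NZ` with the list of the values -/
def NZ' (r : ℕ) (R H : List ℕ) (ρ : Asg) (C : Ex) : Bool :=
  (pts' r H R).any fun g => nz (st (g ++ (ρ ++ H.map fun h => (h, 0))) C)

theorem NZ_eq (r D : ℕ) (H : List ℕ) (ρ : Asg) (C : Ex) :
    NZ r D H ρ C = NZ' r (List.range D) H ρ C := by rw [NZ, NZ', pts_eq]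

@[fun_prop]
theorem poly_NZ' (r : ℕ) {R H : α → List ℕ} {ρ : α → Asg} {C : α → Ex} (hR : Poly R)
    (hH : Poly H) (hρ : Poly ρ) (hC : Poly C) : Poly (fun a => NZ' r (R a) (H a) (ρ a) (C a)) := by
  unfold NZ'
  fun_prop

/-- `pick` with the lists of the values -/
def pick' (r : ℕ) (R H : List ℕ) (Cs : List Ex) (S : List ℕ) (ρ : Asg) (x : ℕ) : ℕ :=
  ((S.filter fun v => Cs.all fun C =>
    !(NZ' r R H ρ C) || NZ' r R H ((x, v) :: ρ) C).head?).getD 0

theorem pick_eq (r D : ℕ) (H : List ℕ) (Cs : List Ex) (N : ℕ) (ρ : Asg) (x : ℕ) :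
    pick r D H Cs N ρ x = pick' r (List.range D) H Cs (List.range N) ρ x := by
  unfold pick pick'
  simp only [NZ_eq]

@[fun_prop]
theorem poly_pick' (r : ℕ) {R H S : α → List ℕ} {Cs : α → List Ex} {ρ : α → Asg} {x : α → ℕ}
    (hR : Poly R) (hH : Poly H) (hCs : Poly Cs) (hS : Poly S) (hρ : Poly ρ) (hx : Poly x) :
    Poly (fun a => pick' r (R a) (H a) (Cs a) (S a) (ρ a) (x a)) := by
  unfold pick'
  fun_prop

theorem pick'_mem (r : ℕ) (R H : List ℕ) (Cs : List Ex) (S : List ℕ) (ρ : Asg) (x : ℕ) :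
    pick' r R H Cs S ρ x ∈ S ∨ pick' r R H Cs S ρ x = 0 := by
  unfold pick'
  cases h : (S.filter fun v => Cs.all fun C =>
    !(NZ' r R H ρ C) || NZ' r R H ((x, v) :: ρ) C).head? with
  | none => exact Or.inr rfl
  | some v =>
    left
    have := List.mem_of_mem_head? h
    rw [List.mem_filter] at this
    exact this.1

/-- `asgn` with the lists of the values -/
def asgn' (r : ℕ) (R H : List ℕ) (Cs : List Ex) (S L : List ℕ) (ρ : Asg) : Asg :=
  L.foldl (fun ρ x => if (look ρ x).isSome then ρ else (x, pick' r R H Cs S ρ x) :: ρ) ρ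

theorem asgn_eq (r D : ℕ) (H : List ℕ) (Cs : List Ex) (N : ℕ) (L : List ℕ) (ρ : Asg) :
    asgn r D H Cs N L ρ = asgn' r (List.range D) H Cs (List.range N) L ρ := by
  unfold asgn asgn'
  simp only [pick_eq]

theorem sz_asgn' (r : ℕ) (R H : List ℕ) (Cs : List Ex) (S L : List ℕ) (ρ : Asg) :
    sz (asgn' r R H Cs S L ρ) ≤ sz ρ + L.length * (sz L + sz S + 3) := by
  have key : ∀ (B : ℕ) (L : List ℕ) (ρ : Asg), (∀ x ∈ L, sz x ≤ B) →
      sz (asgn' r R H Cs S L ρ) ≤ sz ρ + L.length * (B + sz S + 3) := by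
    intro B L
    induction L with
    | nil => intro ρ _; simp [asgn']
    | cons x L ih =>
      intro ρ hB
      have hstep : asgn' r R H Cs S (x :: L) ρ = asgn' r R H Cs S L
        (if (look ρ x).isSome then ρ else (x, pick' r R H Cs S ρ x) :: ρ) := rfl
      rw [hstep]
      have h1 := ih (if (look ρ x).isSome then ρ else (x, pick' r R H Cs S ρ x) :: ρ)
        fun y hy => hB y (List.mem_cons_of_mem _ hy)
      have h2 : sz (if (look ρ x).isSome then ρ else (x, pick' r R H Cs S ρ x) :: ρ) ≤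
          sz ρ + (B + sz S + 3) := by
        split_ifs
        · omega
        · rw [sz_list_cons, sz_pair]
          have h3 := hB x List.mem_cons_self
          have h4 : sz (pick' r R H Cs S ρ x) ≤ sz S + 1 := by
            rcases pick'_mem r R H Cs S ρ x with h | h
            · have := sz_le_of_mem h
              omega
            · rw [h]
              have : sz (0 : ℕ) = 1 := rfl
              omega
          omega
      rw [List.length_cons, Nat.add_mul, Nat.one_mul]
      omega
  exact key (sz L) L ρ fun x hx => (sz_le_of_mem hx).le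

@[fun_prop]
theorem poly_asgn' (r : ℕ) {R H S L : α → List ℕ} {Cs : α → List Ex} {ρ : α → Asg}
    (hR : Poly R) (hH : Poly H) (hCs : Poly Cs) (hS : Poly S) (hL : Poly L) (hρ : Poly ρ) :
    Poly (fun a => asgn' r (R a) (H a) (Cs a) (S a) (L a) (ρ a)) := by
  obtain ⟨p, hp⟩ := hS.sz_le
  obtain ⟨q, hq⟩ := hL.sz_le
  obtain ⟨s, hs⟩ := hρ.sz_le
  unfold asgn'
  refine Poly.foldl (F := fun a ρ x => if (look ρ x).isSome then ρ else
    (x, pick' r (R a) (H a) (Cs a) (S a) ρ x) :: ρ) hL hρ (by fun_prop)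
    (s + q * (q + p + Polynomial.C 3)) ?_
  intro a k hk
  refine (sz_asgn' r (R a) (H a) (Cs a) (S a) ((L a).take k) (ρ a)).trans ?_
  simp only [Polynomial.eval_add, Polynomial.eval_mul, Polynomial.eval_C]
  have h1 : ((L a).take k).length ≤ q.eval (sz a) := by
    rw [List.length_take]
    have := length_lt_sz (L a)
    have := hq a
    omega
  have h2 := (NPC.Poly.sz_take_le (L a) k).trans (hq a)
  exact Nat.add_le_add (hs a) (Nat.mul_le_mul h1 (by have := hp a; omega))

end Pool.Agent.J6H25.PIT
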