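import Pool.Agent.J6H25.PIT.Time3

/-!
# The functions of the algorithm are computable in polynomial time, part 3
-/

set_option autoImplicit false

namespace Pool.Agent.J6H25.PIT

open Pool.Agent.NPC

variable {α β γ : Type} [TEnc α] [TEnc β] [TEnc γ]

@[fun_prop]
theorem poly_rob {Z : α → List ℕ} {e : α → Ex} (hZ : Poly Z) (he : Poly e) :
    Poly (fun a => rob (Z a) (e a)) := by
  unfold rob
  fun_prop

@[fun_prop]
theorem poly_partso {Z : α → List ℕ} {o : α → Op} {p q : α → Ex × List Ex} (hZ : Poly Z)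
    (ho : Poly o) (hp : Poly p) (hq : Poly q) :
    Poly (fun a => partso (Z a) (o a) (p a) (q a)) := by
  unfold partso
  fun_prop

theorem sz_partsl (Z : List ℕ) (E : Ex) : sz (partsl Z E) ≤ sz E + 2 := by
  have hone : ∀ F : Ex, sz [F] = sz F + 2 := fun F => by rw [sz_list_cons, sz_list_nil]
  induction E with
  | var i => exact (hone _).le
  | num q => exact (hone _).le
  | op o s t ihs iht =>
    rw [partsl_op]
    split_ifs
    · exact (hone _).le
    · have h1 := sz_append (partsl Z s) (partsl Z t)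
      have h2 := sz_op o s t
      omega

@[fun_prop]
theorem poly_partsl {Z : α → List ℕ} {e : α → Ex} (hZ : Poly Z) (he : Poly e) :
    Poly (fun a => partsl (Z a) (e a)) := by
  obtain ⟨r, hr⟩ := he.sz_le
  have h1 : Poly (fun a => partsp (Z a) (e a)) := by
    unfold partsp
    refine poly_fold (v := fun _ i => (Ex.var i, [Ex.var i]))
      (n := fun _ q => (Ex.num q, [Ex.num q])) (o := fun a => partso (Z a)) he
      (by fun_prop) (by fun_prop) (by fun_prop) (Polynomial.C 2 * r + Polynomial.C 3) ?_
    intro a F hF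
    change sz (partsp (Z a) F) ≤ _
    have e1 : partsp (Z a) F = (F, partsl (Z a) F) := Prod.ext (partsp_fst _ _) rfl
    rw [e1, sz_pair]
    have h2 := (sz_subs hF).trans (hr a)
    have h3 := sz_partsl (Z a) F
    simp only [Polynomial.eval_add, Polynomial.eval_mul, Polynomial.eval_C]
    omega
  exact Poly.snd h1

@[fun_prop]
theorem poly_csl {Z : α → List ℕ} {s t : α → Ex} (hZ : Poly Z) (hs : Poly s) (ht : Poly t) :
    Poly (fun a => csl (Z a) (s a) (t a)) := by
  unfold csl
  fun_prop

theorem poly_range_length_add {l : α → List β} (hl : Poly l) (n : ℕ) :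
    Poly (fun a => List.range ((l a).length + n)) :=
  ((UPoly.length hl).add (UPoly.const n)).range

@[fun_prop]
theorem poly_range_Dg {e : α → Ex} (he : Poly e) : Poly (fun a => List.range (Dg (e a))) :=
  poly_range_length_add (l := fun a => (e a).vlist ++ (e a).vlist) (by fun_prop) 2

@[fun_prop]
theorem poly_neq {x y : α → Option Q} (hx : Poly x) (hy : Poly y) :
    Poly (fun a => neq (x a) (y a)) := by
  unfold neq
  fun_prop

@[fun_prop]
theorem poly_bpt (r : ℕ) {Z : α → List ℕ} {s t G : α → Ex} {y : α → ℕ} (hZ : Poly Z)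
    (hs : Poly s) (ht : Poly t) (hG : Poly G) (hy : Poly y) :
    Poly (fun a => bpt r (Z a) (s a) (t a) (G a) (y a)) := by
  have h1 : Poly (fun a => List.range ((csl (Z a) (s a) (t a)).length + 1)) :=
    poly_range_length_add (by fun_prop) 1
  unfold bpt
  simp only [asgn_eq]
  fun_prop

@[fun_prop]
theorem poly_dz (r r' : ℕ) {Z : α → List ℕ} {s t G : α → Ex} {y : α → ℕ} (hZ : Poly Z)
    (hs : Poly s) (ht : Poly t) (hG : Poly G) (hy : Poly y) :
    Poly (fun a => dz r r' (Z a) (s a) (t a) (G a) (y a)) := by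
  have h1 : Poly (fun a => (pts' r' (G a).vlist (List.range (Dg (G a))), List.range (Dg (G a)),
    bpt r (Z a) (s a) (t a) (G a) (y a) ++ (y a :: Z a).map fun h => (h, 0), y a, G a)) := by
    fun_prop
  have h2 : Poly (fun p : List Asg × List ℕ × Asg × ℕ × Ex => p.1.any fun g => p.2.1.any fun v =>
      p.2.1.any fun v' => neq (st ((p.2.2.2.1, v) :: (g ++ p.2.2.1)) p.2.2.2.2)
        (st ((p.2.2.2.1, v') :: (g ++ p.2.2.1)) p.2.2.2.2)) := by fun_prop
  refine (h2.comp h1).congr fun a => ?_
  simp only [dz, pts_eq]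

@[fun_prop]
theorem poly_depb (k r' : ℕ) {s t G : α → Ex} {y : α → ℕ}
    (hs : Poly s) (ht : Poly t) (hG : Poly G) (hy : Poly y) :
    Poly (fun a => depb k r' (s a) (t a) (G a) (y a)) := by
  have h1 : Poly (fun a => pts (2 * k) (G a).vlist 1) := poly_pts _ (by fun_prop) (NPC.Poly.const _)
  have h2 : Poly (fun a => (pts (2 * k) (G a).vlist 1, s a, t a, G a, y a)) := by fun_prop
  have h3 : Poly (fun p : List Asg × Ex × Ex × Ex × ℕ => p.1.any fun z =>
      dz (2 * k + 1) r' (z.map Prod.fst) p.2.1 p.2.2.1 p.2.2.2.1 p.2.2.2.2) := by fun_prop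
  exact h3.comp h2

@[fun_prop]
theorem poly_cnt {l : α → List ℕ} {i : α → ℕ} (hl : Poly l) (hi : Poly i) :
    Poly (fun a => cnt (l a) (i a)) := by
  unfold cnt
  fun_prop

/-! ### Replacement of variables by zero -/

theorem sbs_eq_fold (σ : ℕ → Ex) (E : Ex) : E.sbs σ = E.fold σ Ex.num Ex.op := by
  induction E with
  | var i => rfl
  | num q => rfl
  | op o s t ihs iht => simp only [Ex.sbs, Ex.fold, ihs, iht]

/-- the tokens -/
def TB (E F : Ex) : Prop :=
  F.toks.length ≤ E.toks.length ∧ ∀ τ ∈ F.toks, τ ∈ E.toks ∨ τ = Tok.num 0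

theorem TB.refl (E : Ex) : TB E E := ⟨le_rfl, fun _ h => Or.inl h⟩

theorem TB.trans {E F G : Ex} (h : TB E F) (h' : TB F G) : TB E G :=
  ⟨h'.1.trans h.1, fun τ hτ => (h'.2 τ hτ).elim (fun h1 => h.2 τ h1) Or.inr⟩

theorem TB.op {o : Op} {s t s' t' : Ex} (h : TB s s') (h' : TB t t') :
    TB (Ex.op o s t) (Ex.op o s' t') := by
  constructor
  · simp only [Ex.toks, List.length_append]
    have := h.1
    have := h'.1
    omega
  · intro τ hτ
    simp only [Ex.toks, List.mem_append] at hτ ⊢
    rcases hτ with (hτ | hτ) | hτ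
    · rcases h.2 τ hτ with h1 | h1
      · exact Or.inl (Or.inl (Or.inl h1))
      · exact Or.inr h1
    · rcases h'.2 τ hτ with h1 | h1
      · exact Or.inl (Or.inl (Or.inr h1))
      · exact Or.inr h1
    · exact Or.inl (Or.inr hτ)

theorem tb_zpr (l c : List ℕ) (E : Ex) : TB E (zpr l c E) := by
  unfold zpr
  induction E with
  | var i =>
    simp only [Ex.sbs]
    split_ifs
    · exact ⟨le_rfl, fun τ hτ => Or.inr (by simpa [Ex.toks] using hτ)⟩
    · exact TB.refl _
  | num q => exact TB.refl _
  | op o s t ihs iht => exact ihs.op iht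

theorem tok_mem_of_vlist {E : Ex} {y : ℕ} (h : y ∈ E.vlist) : Tok.var y ∈ E.toks := by
  induction E with
  | var i =>
    simp only [Ex.vlist, List.mem_singleton] at h
    subst h
    simp [Ex.toks]
  | num q => simp [Ex.vlist] at h
  | op o s t ihs iht =>
    simp only [Ex.vlist, List.mem_append] at h
    simp only [Ex.toks, List.mem_append]
    rcases h with h | h
    · exact Or.inl (Or.inl (ihs h))
    · exact Or.inl (Or.inr (iht h))

theorem tb_smx (k r' : ℕ) (c : List ℕ) (E : Ex) : TB E (smx k r' c E) := by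
  induction E with
  | var i => exact TB.refl _
  | num q => exact TB.refl _
  | op o s t ihs iht =>
    rw [smx_op]
    unfold sg
    cases h : (((Ex.op o (smx k r' c s) (smx k r' c t)).vlist.filter fun i =>
        decide (cnt (Ex.op o s t).vlist i = cnt c i)).filter fun y =>
        depb k r' (smx k r' c s) (smx k r' c t)
          (Ex.op o (smx k r' c s) (smx k r' c t)) y).head? with
    | some y =>
      have h1 := List.mem_of_mem_head? h
      rw [List.mem_filter, List.mem_filter] at h1
      have h2 := tok_mem_of_vlist h1.1.1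
      refine (ihs.op iht).trans (F := Ex.op o (smx k r' c s) (smx k r' c t)) ⟨?_, ?_⟩
      · exact toks_pos _
      · intro τ hτ
        simp only [Option.elim_some, Ex.toks, List.mem_singleton] at hτ
        subst hτ
        exact Or.inl h2
    | none => exact (ihs.op iht).trans (tb_zpr _ _ _)

theorem sz_of_tb {E F : Ex} (h : TB E F) : sz F ≤ sz E * (sz E + sz (Tok.num 0) + 1) + 1 := by
  refine (sz_le_length_mul F.toks (sz E + sz (Tok.num 0)) fun τ hτ => ?_).trans ?_
  · rcases h.2 τ hτ with h1 | h1
    · have := sz_le_of_mem h1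
      rw [sz_ex]
      omega
    · rw [h1]
      omega
  · have := Nat.mul_le_mul_right (sz E + sz (Tok.num 0) + 1) (h.1.trans (length_toks_le E))
    omega

@[fun_prop]
theorem poly_zpr {l c : α → List ℕ} {e : α → Ex} (hl : Poly l) (hc : Poly c) (he : Poly e) :
    Poly (fun a => zpr (l a) (c a) (e a)) := by
  obtain ⟨r, hr⟩ := he.sz_le
  unfold zpr
  simp only [sbs_eq_fold]
  refine poly_fold (v := fun a i => if cnt (l a) i = cnt (c a) i then Ex.num 0 else Ex.var i)
    (n := fun _ q => Ex.num q) (o := fun _ o s t => Ex.op o s t) he (by fun_prop) (by fun_prop)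
    (by fun_prop) (r * (r + Polynomial.C (sz (Tok.num 0)) + Polynomial.C 1) + Polynomial.C 1) ?_
  intro a F hF
  have h1 := (sz_subs hF).trans (hr a)
  have h2 := sz_of_tb (tb_zpr (l a) (c a) F)
  unfold zpr at h2
  rw [sbs_eq_fold] at h2
  refine h2.trans ?_
  simp only [Polynomial.eval_add, Polynomial.eval_mul, Polynomial.eval_C]
  exact Nat.add_le_add_right (Nat.mul_le_mul h1 (by omega)) 1

@[fun_prop]
theorem poly_sg (k r' : ℕ) {l c : α → List ℕ} {o : α → Op} {s t : α → Ex} (hl : Poly l)
    (hc : Poly c) (ho : Poly o) (hs : Poly s) (ht : Poly t) :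
    Poly (fun a => sg k r' (l a) (c a) (o a) (s a) (t a)) := by
  unfold sg
  fun_prop

@[fun_prop]
theorem poly_simpo (k r' : ℕ) {c : α → List ℕ} {o : α → Op} {p q : α → List ℕ × Ex}
    (hc : Poly c) (ho : Poly o) (hp : Poly p) (hq : Poly q) :
    Poly (fun a => simpo k r' (c a) (o a) (p a) (q a)) := by
  unfold simpo
  fun_prop

@[fun_prop]
theorem poly_smx (k r' : ℕ) {c : α → List ℕ} {e : α → Ex} (hc : Poly c) (he : Poly e) :
    Poly (fun a => smx k r' (c a) (e a)) := by
  obtain ⟨r, hr⟩ := he.sz_le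
  have h1 : Poly (fun a => smp k r' (c a) (e a)) := by
    unfold smp
    refine poly_fold (v := fun _ i => ([i], Ex.var i))
      (n := fun _ q => ([], Ex.num q)) (o := fun a => simpo k r' (c a)) he
      (by fun_prop) (by fun_prop) (by fun_prop)
      (r + (r * (r + Polynomial.C (sz (Tok.num 0)) + Polynomial.C 1) + Polynomial.C 1) +
        Polynomial.C 1) ?_
    intro a F hF
    change sz (smp k r' (c a) F) ≤ _
    have e1 : smp k r' (c a) F = (F.vlist, smx k r' (c a) F) := by
      rw [← smp_fst k r' (c a) F]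
      rfl
    rw [e1, sz_pair]
    have h2 := (sz_subs hF).trans (hr a)
    have h3 := sz_of_tb (tb_smx k r' (c a) F)
    have h4 := sz_vlist F
    simp only [Polynomial.eval_add, Polynomial.eval_mul, Polynomial.eval_C]
    have h5 : sz F * (sz F + sz (Tok.num 0) + 1) ≤
      r.eval (sz a) * (r.eval (sz a) + sz (Tok.num 0) + 1) := Nat.mul_le_mul h2 (by omega)
    omega
  exact Poly.snd h1

/-- **The algorithm is a polynomial time algorithm.** -/
@[fun_prop]
theorem poly_fint (k r' : ℕ) {e : α → Ex} (he : Poly e) : Poly (fun a => fint k r' (e a)) := by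
  unfold fint
  fun_prop

@[fun_prop]
theorem poly_pts_one (r : ℕ) {W : α → List ℕ} (hW : Poly W) :
    Poly (fun a => pts r (W a) 1) := poly_pts _ hW (NPC.Poly.const _)

/-- the variables all of whose occurrences in `E` are in `F` -/
def narc (F E : Ex) : List ℕ := F.vlist.filter fun i => decide (cnt F.vlist i = cnt E.vlist i)

/-- the test for given variables -/
def narz (M : ℕ) (F : Ex) (Z : List ℕ) : Bool :=
  decide ((partsl Z F).length ≤ M) && (partsl Z F).all fun P => rob Z P

@[fun_prop]
theorem poly_narc {e f : α → Ex} (he : Poly e) (hf : Poly f) :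
    Poly (fun a => narc (e a) (f a)) := by
  unfold narc
  fun_prop

@[fun_prop]
theorem poly_narz (M : ℕ) {e : α → Ex} {Z : α → List ℕ} (he : Poly e) (hZ : Poly Z) :
    Poly (fun a => narz M (e a) (Z a)) := by
  unfold narz
  fun_prop

/-- **The condition can be tested in polynomial time.** -/
@[fun_prop]
theorem poly_narb (M k : ℕ) {e : α → Ex} (he : Poly e) : Poly (fun a => narb M k (e a)) := by
  have h : Poly (fun E : Ex => E.subs.all fun F => (pts k F.vlist 1).any fun z =>
      narz M F (z.map Prod.fst ++ narc F E)) := by fun_prop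
  exact h.comp he

end Pool.Agent.J6H25.PIT
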